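import Mathlib
import Pool.Agent.Lib.MP_05cdf2_gt.B.LDef
import Pool.Agent.Lib.MP_05cdf2_gt.B.LatB
import Pool.Agent.Lib.MP_05cdf2_gt.B.Orb

/-! MP_05cdf2_gt, stream D (helper61): definitions.

* `Zc`, `HFG`, `HFGZ`: cycles of a complex, finite generation of the homology over the ring / over `ℤ`.
* `Co N M`: coinvariants of a `ℤ[G]`-module `M` under the normal subgroup `N`, a module over `ℤ[G/N]`.
* `Tup α n`: lists of length `n`; `tb`: the simplicial boundary; `Bar G n = ℤ[G^{n+1}]`.
* `KL N`: the subgroup of the chains of lists generated by `n c - c`.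
-/

set_option autoImplicit false

namespace Tor
open Finsupp

section complexes
variable {R : Type} [Ring R] (C : ℕ → Type) [∀ n, AddCommGroup (C n)] [∀ n, Module R (C n)]
  (d : ∀ n, C (n + 1) →ₗ[R] C n)

/-- cycles of degree `k` (in degree `0` everything is a cycle) -/
def Zc : (k : ℕ) → Submodule R (C k)
  | 0 => ⊤
  | k + 1 => LinearMap.ker (d k)

/-- the homology in degree `k` is finitely generated over `R` -/
def HFG (k : ℕ) : Prop :=
  ∃ s : Finset (C k), (∀ z ∈ s, z ∈ Zc C d k) ∧
    ∀ x ∈ Zc C d k, ∃ y ∈ Submodule.span R (s : Set (C k)), ∃ w : C (k + 1), x = y + d k w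

/-- the homology in degree `k` is finitely generated as an abelian group -/
def HFGZ (k : ℕ) : Prop :=
  ∃ s : Finset (C k), (∀ z ∈ s, z ∈ Zc C d k) ∧
    ∀ x ∈ Zc C d k, ∃ y ∈ AddSubgroup.closure (s : Set (C k)), ∃ w : C (k + 1), x = y + d k w

end complexes

section coinvariants
variable {G : Type} [Group G] (N : Subgroup G) (M : Type) [AddCommGroup M] [Module (GA G) M]

/-- the submodule generated by the `n m - m` -/
noncomputable def coSub : Submodule (GA G) M :=
  Submodule.span (GA G) {x | ∃ n ∈ N, ∃ m : M, x = MonoidAlgebra.of ℤ G n • m - m}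

/-- coinvariants -/
def Co : Type := M ⧸ coSub N M

noncomputable instance Co.instAddCommGroup : AddCommGroup (Co N M) :=
  inferInstanceAs (AddCommGroup (M ⧸ coSub N M))

/-- the projection -/
noncomputable def Co.mk : M →+ Co N M := (coSub N M).mkQ.toAddMonoidHom

variable {M}

theorem Co.mk_surjective : Function.Surjective (Co.mk N M) :=
  (coSub N M).mkQ_surjective

theorem Co.mk_eq_zero (x : M) : Co.mk N M x = 0 ↔ x ∈ coSub N M :=
  Submodule.Quotient.mk_eq_zero (coSub N M)

theorem Co.mk_of_smul {n : G} (hn : n ∈ N) (x : M) :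
    Co.mk N M (MonoidAlgebra.of ℤ G n • x) = Co.mk N M x := by
  rw [← sub_eq_zero, ← map_sub, Co.mk_eq_zero]
  exact Submodule.subset_span ⟨n, hn, x, rfl⟩

/-- induction -/
theorem Co.ind {P : Co N M → Prop} (h : ∀ x : M, P (Co.mk N M x)) (y : Co N M) : P y := by
  obtain ⟨x, rfl⟩ := Co.mk_surjective N y
  exact h x

variable (M)

/-- the action of `G` on the coinvariants -/
noncomputable def Co.hom0 : G →* Module.End ℤ (Co N M) where
  toFun g := AddMonoidHom.toIntLinearMap
    ((QuotientAddGroup.lift (coSub N M).toAddSubgroup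
      ((Co.mk N M).comp (DistribSMul.toAddMonoidHom M (MonoidAlgebra.of ℤ G g)))
      (fun x hx => by
        show Co.mk N M (MonoidAlgebra.of ℤ G g • x) = 0
        rw [Co.mk_eq_zero]
        exact (coSub N M).smul_mem _ hx)) : (M ⧸ coSub N M) →+ Co N M)
  map_one' := by
    refine LinearMap.ext fun y => ?_
    induction y using Co.ind with
    | h x =>
      show Co.mk N M (MonoidAlgebra.of ℤ G 1 • x) = Co.mk N M x
      rw [map_one, one_smul]
  map_mul' g h := by
    refine LinearMap.ext fun y => ?_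
    induction y using Co.ind with
    | h x =>
      show Co.mk N M (MonoidAlgebra.of ℤ G (g * h) • x) =
        Co.mk N M (MonoidAlgebra.of ℤ G g • MonoidAlgebra.of ℤ G h • x)
      rw [map_mul, mul_smul]

theorem Co.hom0_mk (g : G) (x : M) :
    Co.hom0 N M g (Co.mk N M x) = Co.mk N M (MonoidAlgebra.of ℤ G g • x) := rfl

variable [N.Normal]

/-- the action of `G / N` on the coinvariants -/
noncomputable def Co.hom : (G ⧸ N) →* Module.End ℤ (Co N M) :=
  QuotientGroup.lift N (Co.hom0 N M) (fun n hn => by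
    refine LinearMap.ext fun y => ?_
    induction y using Co.ind with
    | h x =>
      rw [Co.hom0_mk, Co.mk_of_smul N hn]; rfl)

/-- the group ring acts -/
noncomputable def Co.act : GA (G ⧸ N) →+* Module.End ℤ (Co N M) :=
  (MonoidAlgebra.lift ℤ (Module.End ℤ (Co N M)) (G ⧸ N) (Co.hom N M)).toRingHom

noncomputable instance Co.instModule : Module (GA (G ⧸ N)) (Co N M) :=
  Module.compHom (Co N M) (Co.act N M)

theorem Co.of_smul_mk (g : G) (x : M) :
    MonoidAlgebra.of ℤ (G ⧸ N) (g : G ⧸ N) • Co.mk N M x =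
      Co.mk N M (MonoidAlgebra.of ℤ G g • x) := by
  show Co.act N M (MonoidAlgebra.of ℤ (G ⧸ N) (g : G ⧸ N)) (Co.mk N M x) = _
  have : Co.act N M (MonoidAlgebra.of ℤ (G ⧸ N) (g : G ⧸ N)) = Co.hom N M (g : G ⧸ N) :=
    MonoidAlgebra.lift_of (Co.hom N M) (g : G ⧸ N)
  rw [this]
  rfl

variable {M} {M' : Type} [AddCommGroup M'] [Module (GA G) M']

omit [N.Normal] in
theorem Co.map_coSub (f : M →ₗ[GA G] M') {x : M} (hx : x ∈ coSub N M) : f x ∈ coSub N M' := by
  unfold coSub at hx
  induction hx using Submodule.span_induction with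
  | mem x h =>
    obtain ⟨n, hn, m, rfl⟩ := h
    rw [map_sub, map_smul]
    exact Submodule.subset_span ⟨n, hn, f m, rfl⟩
  | zero => rw [map_zero]; exact Submodule.zero_mem _
  | add x y _ _ hx hy => rw [map_add]; exact Submodule.add_mem _ hx hy
  | smul r x _ hx => rw [map_smul]; exact Submodule.smul_mem _ _ hx

/-- functoriality, additive version -/
noncomputable def Co.map0 (f : M →ₗ[GA G] M') : Co N M →+ Co N M' :=
  (QuotientAddGroup.lift (coSub N M).toAddSubgroup ((Co.mk N M').comp f.toAddMonoidHom)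
      (fun x hx => by
        show Co.mk N M' (f x) = 0
        rw [Co.mk_eq_zero]
        exact Co.map_coSub N f hx) : (M ⧸ coSub N M) →+ Co N M')

/-- functoriality -/
noncomputable def Co.map (f : M →ₗ[GA G] M') : Co N M →ₗ[GA (G ⧸ N)] Co N M' :=
  linOf (Co.map0 N f) (by
    intro q y
    induction y using Co.ind with
    | h x =>
      induction q using QuotientGroup.induction_on with
      | H g =>
        rw [Co.of_smul_mk]
        show Co.mk N M' (f (MonoidAlgebra.of ℤ G g • x)) = _ • Co.mk N M' (f x)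
        rw [Co.of_smul_mk, map_smul])

@[simp] theorem Co.map_mk (f : M →ₗ[GA G] M') (x : M) :
    Co.map N f (Co.mk N M x) = Co.mk N M' (f x) := rfl

theorem Co.map_id (y : Co N M) : Co.map N (LinearMap.id : M →ₗ[GA G] M) y = y := by
  induction y using Co.ind with
  | h x => rfl

theorem Co.map_comp {M'' : Type} [AddCommGroup M''] [Module (GA G) M''] (f : M →ₗ[GA G] M')
    (g : M' →ₗ[GA G] M'') (y : Co N M) : Co.map N (g ∘ₗ f) y = Co.map N g (Co.map N f y) := by
  induction y using Co.ind with
  | h x => rfl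

theorem Co.map_add (f g : M →ₗ[GA G] M') (y : Co N M) :
    Co.map N (f + g) y = Co.map N f y + Co.map N g y := by
  induction y using Co.ind with
  | h x => simp

theorem Co.map_sub (f g : M →ₗ[GA G] M') (y : Co N M) :
    Co.map N (f - g) y = Co.map N f y - Co.map N g y := by
  induction y using Co.ind with
  | h x => simp

theorem Co.map_zero (y : Co N M) : Co.map N (0 : M →ₗ[GA G] M') y = 0 := by
  induction y using Co.ind with
  | h x => simp

end coinvariants

section tuples

/-- lists of length `n` -/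
def Tup (α : Type) (n : ℕ) : Type := {l : List α // l.length = n}

instance Tup.instMulAction (G α : Type) [Group G] [MulAction G α] (n : ℕ) :
    MulAction G (Tup α n) where
  smul g l := ⟨l.1.map (g • ·), by rw [List.length_map]; exact l.2⟩
  one_smul l := by
    apply Subtype.ext
    show l.1.map ((1 : G) • ·) = l.1
    simp
  mul_smul g h l := by
    apply Subtype.ext
    show l.1.map ((g * h) • ·) = (l.1.map (h • ·)).map (g • ·)
    simp [mul_smul]

theorem Tup.smul_val {G α : Type} [Group G] [MulAction G α] {n : ℕ} (g : G) (l : Tup α n) :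
    (g • l).1 = l.1.map (g • ·) := rfl

variable {α : Type}

/-- the underlying list -/
def Tup.v {n : ℕ} (l : Tup α n) : List α := l.1

theorem Tup.v_injective (n : ℕ) : Function.Injective (Tup.v : Tup α n → List α) :=
  fun _ _ h => Subtype.ext h

theorem Tup.v_length {n : ℕ} (l : Tup α n) : l.v.length = n := l.2

theorem Tup.v_smul {G : Type} [Group G] [MulAction G α] {n : ℕ} (g : G) (l : Tup α n) :
    (g • l).v = l.v.map (g • ·) := rfl

/-- the inclusion of the chains on lists of length `n` in all chains -/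
noncomputable def Tup.inc (α : Type) (n : ℕ) : (Tup α n →₀ ℤ) →ₗ[ℤ] Ch α :=
  Finsupp.lmapDomain ℤ ℤ Tup.v

theorem Tup.inc_single {n : ℕ} (l : Tup α n) (a : ℤ) :
    Tup.inc α n (single l a) = single l.v a := by
  simp [Tup.inc]

theorem Tup.inc_injective (n : ℕ) : Function.Injective (Tup.inc α n) :=
  Finsupp.mapDomain_injective (Tup.v_injective n)

/-- the boundary -/
noncomputable def tb (α : Type) (n : ℕ) : (Tup α (n + 1) →₀ ℤ) →ₗ[ℤ] (Tup α n →₀ ℤ) :=
  Finsupp.linearCombination ℤ (fun l : Tup α (n + 1) =>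
    Finsupp.comapDomain (Tup.v : Tup α n → List α) (bdL l.v) (Tup.v_injective n).injOn)

theorem Tup.inc_tb (n : ℕ) (c : Tup α (n + 1) →₀ ℤ) :
    Tup.inc α n (tb α n c) = bd (Tup.inc α (n + 1) c) := by
  have : (Tup.inc α n) ∘ₗ (tb α n) = bd ∘ₗ (Tup.inc α (n + 1)) := by
    refine Finsupp.lhom_ext' fun l => LinearMap.ext_ring ?_
    show Tup.inc α n (tb α n (single l 1)) = bd (Tup.inc α (n + 1) (single l 1))
    have h1 : tb α n (single l 1) =
        Finsupp.comapDomain (Tup.v : Tup α n → List α) (bdL l.v) (Tup.v_injective n).injOn := by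
      unfold tb
      rw [Finsupp.linearCombination_single, one_smul]
    rw [h1, Tup.inc_single, bd_single, one_smul]
    apply Finsupp.mapDomain_comapDomain
    · exact Tup.v_injective n
    · intro l' hl'
      have := bdL_support l.v l' hl'
      refine ⟨⟨l', ?_⟩, rfl⟩
      have h3 := l.v_length
      omega
  exact LinearMap.congr_fun this c

theorem tb_tb (n : ℕ) (c : Tup α (n + 2) →₀ ℤ) : tb α n (tb α (n + 1) c) = 0 := by
  apply Tup.inc_injective
  rw [Tup.inc_tb, Tup.inc_tb, bd_bd, LinearMap.map_zero]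

theorem tb_equivariant {G : Type} [Group G] [MulAction G α] (n : ℕ) (g : G)
    (c : Tup α (n + 1) →₀ ℤ) :
    tb α n (mapDomain (g • ·) c) = mapDomain (g • ·) (tb α n c) := by
  apply Tup.inc_injective
  have key : ∀ (m : ℕ) (c : Tup α m →₀ ℤ), Tup.inc α m (mapDomain (g • ·) c) =
      mapDomain (List.map (g • ·)) (Tup.inc α m c) := by
    intro m c
    simp only [Tup.inc, lmapDomain_apply, ← mapDomain_comp]
    rfl
  rw [Tup.inc_tb, key, key, bd_map, Tup.inc_tb]

end tuples

section inhomogeneous
variable (N : Type) [Group N]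

/-- the boundary of the inhomogeneous complex (trivial coefficients `ℤ`) -/
noncomputable def dI (k : ℕ) : ((Fin (k + 1) → N) →₀ ℤ) →ₗ[ℤ] ((Fin k → N) →₀ ℤ) :=
  Finsupp.linearCombination ℤ (fun g : Fin (k + 1) → N =>
    (single (fun i : Fin k => g i.succ) 1 : (Fin k → N) →₀ ℤ) +
      ∑ j : Fin (k + 1), (-1 : ℤ) ^ ((j : ℕ) + 1) • single (Fin.contractNth j (· * ·) g) 1)

/-- cycles of the inhomogeneous complex -/
noncomputable def ZI : (k : ℕ) → Submodule ℤ ((Fin k → N) →₀ ℤ)
  | 0 => ⊤
  | k + 1 => LinearMap.ker (dI N k)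

/-- the `k`-th homology group of `N` with trivial coefficients `ℤ` is finitely generated
(inhomogeneous complex) -/
def HIF (k : ℕ) : Prop :=
  ∃ s : Finset ((Fin k → N) →₀ ℤ), (∀ z ∈ s, z ∈ ZI N k) ∧
    ∀ x ∈ ZI N k, ∃ y ∈ AddSubgroup.closure (s : Set ((Fin k → N) →₀ ℤ)),
      ∃ w : (Fin (k + 1) → N) →₀ ℤ, x = y + dI N k w

end inhomogeneous

section bar
variable (G : Type) [Group G]

/-- the bar complex: `Bar G n` is the free abelian group on `G^{n+1}` -/
abbrev Bar (n : ℕ) : Type := PM G (Tup G (n + 1))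

/-- the boundary of the bar complex -/
noncomputable def dBar (n : ℕ) : Bar G (n + 1) →ₗ[GA G] Bar G n :=
  PM.map (tb G (n + 1)).toAddMonoidHom (fun g x => tb_equivariant (n + 1) g x)

/-- the augmentation, with values in the free abelian group on the empty list -/
noncomputable def eBar : Bar G 0 →ₗ[GA G] PM G (Tup G 0) :=
  PM.map (tb G 0).toAddMonoidHom (fun g x => tb_equivariant 0 g x)

variable {G} (N : Subgroup G) [N.Normal]

/-- the complex computing the homology of `N`, with the action of `G / N` -/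
abbrev CB (n : ℕ) : Type := Co N (Bar G n)

/-- its boundary -/
noncomputable def dCB (n : ℕ) : CB N (n + 1) →ₗ[GA (G ⧸ N)] CB N n := Co.map N (dBar G n)

end bar

section lists
variable {H : Type} [Group H] {α β : Type} [MulAction H α] [MulAction H β]

/-- the action on chains of lists -/
noncomputable def aL (h : H) : Ch α →ₗ[ℤ] Ch α := Finsupp.lmapDomain ℤ ℤ (List.map (h • ·))

/-- the subgroup generated by the `n c - c` -/
noncomputable def KL (N : Subgroup H) (α : Type) [MulAction H α] : Submodule ℤ (Ch α) :=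
  Submodule.span ℤ {c | ∃ n ∈ N, ∃ x : Ch α, c = aL n x - x}

/-- chains of pairs of lists -/
abbrev Ch2 (β α : Type) : Type := (List β × List α) →₀ ℤ

/-- boundary in the first variable -/
noncomputable def d1 : Ch2 β α →ₗ[ℤ] Ch2 β α :=
  Finsupp.linearCombination ℤ (fun x => mapDomain (fun s => (s, x.2)) (bdL x.1))

/-- boundary in the second variable -/
noncomputable def d2 : Ch2 β α →ₗ[ℤ] Ch2 β α :=
  Finsupp.linearCombination ℤ (fun x => mapDomain (fun l => (x.1, l)) (bdL x.2))

/-- the action on chains of pairs of lists -/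
noncomputable def aL2 (h : H) : Ch2 β α →ₗ[ℤ] Ch2 β α :=
  Finsupp.lmapDomain ℤ ℤ (fun x => (x.1.map (h • ·), x.2.map (h • ·)))

/-- the subgroup generated by the `n c - c` -/
noncomputable def KL2 (N : Subgroup H) (β α : Type) [MulAction H α] [MulAction H β] :
    Submodule ℤ (Ch2 β α) :=
  Submodule.span ℤ {c | ∃ n ∈ N, ∃ x : Ch2 β α, c = aL2 n x - x}

/-- lists in `S` of length `p` -/
def Len (S : Set (List β)) (p : ℕ) : Set (List β) := {l | l ∈ S ∧ l.length = p}

/-- pairs of lists, the first one in `S` of length `p`, the second of length `q` -/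
def Len2 (S : Set (List β)) (α : Type) (p q : ℕ) : Set (List β × List α) :=
  {x | (x.1 ∈ S ∧ x.1.length = p) ∧ x.2.length = q}

/-- chains of bidegree `(p, q)` -/
noncomputable abbrev Sup2 (S : Set (List β)) (α : Type) (p q : ℕ) : Submodule ℤ (Ch2 β α) :=
  Finsupp.supported ℤ ℤ (Len2 S α p q)

/-- data showing that `τ` acts unipotently: `S` is an `H`-invariant set of lists, acyclic up to
length `k`, and every nonempty list `s` of `S` is fixed by an element `θ s` of the coset `N τ` which
depends equivariantly on `s` -/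
structure UData (N : Subgroup H) (β : Type) [MulAction H β] (S : Set (List β)) (k : ℕ) (τ : H)
    (θ : List β → H) : Prop where
  nil : [] ∈ S
  closed : Closed S
  inv : ∀ (h : H) (l : List β), l ∈ S → l.map (h • ·) ∈ S
  exact : ∀ n ≤ k, ∀ z ∈ Sup (Len S n), bd z = 0 → ∃ w ∈ Sup (Len S (n + 1)), bd w = z
  equi : ∀ s ∈ S, s ≠ [] → ∀ n ∈ N, θ (s.map (n • ·)) = n * θ s * n⁻¹
  fix : ∀ s ∈ S, s ≠ [] → s.map (θ s • ·) = s
  coset : ∀ s ∈ S, s ≠ [] → θ s * τ⁻¹ ∈ N

end lists

end Tor
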