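import Mathlib
import Pool.Agent.Lib.MP_05cdf2_gt.D.DDef

/-! MP_05cdf2_gt, stream D, job BarEx: the bar complex is exact and projective.

`bar_projective`: `Tup G (n+1) ≅ G × Tup G n` by `l = g :: l' ↦ (g, g⁻¹ l')` as `G`-sets (`G` acts on the first
factor of the product); so `Bar G n` is free over `GA G` with basis the lists starting with `1`. Suggestion:
`Bar G n ≃ₗ[GA G] (Tup G n →₀ GA G)`: the linear map `(Tup G n →₀ GA G) → Bar G n` sending the basis vector `l'` to
`single (1 :: l') 1` is bijective; or prove the lifting property by hand; `Module.Projective.of_equiv`,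
`Module.Free`.
`dBar_dBar`, `eBar_dBar`: `tb_tb`. `dBar_exact`, `eBar_exact`, `eBar_surjective`: the operator
`c ↦ (1 :: ·) c` on `Tup G n →₀ ℤ`: `tb (1 :: c) = c - 1 :: (tb c)`; on lists this is `bd_cone`. Use
`Tup.inc_tb` and `Tup.inc_injective`. For the empty lists: `tb ([1]) = []`.
-/

set_option autoImplicit false

namespace Tor
open Finsupp

variable (G : Type) [Group G]

/-- additive maps on `S →₀ ℤ` agreeing on the basis are equal -/
theorem BarEx_ext {S M : Type} [AddCommGroup M] {f g : (S →₀ ℤ) →+ M}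
    (h : ∀ s, f (single s 1) = g (single s 1)) (x : S →₀ ℤ) : f x = g x := by
  have e : f.toIntLinearMap = g.toIntLinearMap := by
    refine Finsupp.lhom_ext' fun s => LinearMap.ext_ring ?_
    exact h s
  exact LinearMap.congr_fun e x

variable {G} in
/-- A `G`-set with an equivariant map to `G` gives a projective permutation module. -/
theorem BarEx_proj {S : Type} [MulAction G S] (c : S → G) (hc : ∀ (g : G) (s : S), c (g • s) = g * c s) :
    Module.Projective (GA G) (PM G S) := by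
  refine Module.Projective.of_lifting_property'' ?_
  intro f hf
  have h1 : ∀ s : S, ∃ m : (PM G S →₀ GA G), f m = (PM.eq G S).symm (single s 1) := fun s => hf _
  choose m hm using h1
  let F : (S →₀ ℤ) →+ (PM G S →₀ GA G) :=
    (Finsupp.linearCombination ℤ
      (fun s : S => MonoidAlgebra.of ℤ G (c s) • m ((c s)⁻¹ • s))).toAddMonoidHom
  have hF : ∀ s : S, F (single s 1) = MonoidAlgebra.of ℤ G (c s) • m ((c s)⁻¹ • s) := by
    intro s
    show Finsupp.linearCombination ℤ
      (fun s : S => MonoidAlgebra.of ℤ G (c s) • m ((c s)⁻¹ • s)) (single s 1) = _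
    rw [Finsupp.linearCombination_single, one_smul]
  have hequi : ∀ (g : G) (x : S →₀ ℤ),
      F (mapDomain (g • ·) x) = MonoidAlgebra.of ℤ G g • F x := by
    intro g x
    let A1 : (S →₀ ℤ) →+ (PM G S →₀ GA G) := F.comp (Finsupp.mapDomain.addMonoidHom (g • · : S → S))
    let A2 : (S →₀ ℤ) →+ (PM G S →₀ GA G) :=
      (DistribSMul.toAddMonoidHom (PM G S →₀ GA G) (MonoidAlgebra.of ℤ G g)).comp F
    have h2 : A1 x = A2 x := by
      apply BarEx_ext
      intro s
      show F (mapDomain (g • ·) (single s 1)) = MonoidAlgebra.of ℤ G g • F (single s 1)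
      have h3 : (g * c s)⁻¹ • (g • s) = (c s)⁻¹ • s := by
        rw [mul_inv_rev, mul_smul, inv_smul_smul]
      rw [mapDomain_single, hF, hF, hc, h3, map_mul, mul_smul]
    exact h2
  refine ⟨PM.lift F hequi, ?_⟩
  refine LinearMap.ext fun x => ?_
  show f (F (PM.eq G S x)) = x
  let B1 : (S →₀ ℤ) →+ PM G S := f.toAddMonoidHom.comp F
  let B2 : (S →₀ ℤ) →+ PM G S := (PM.eq G S).symm.toAddMonoidHom
  have h3 : B1 (PM.eq G S x) = B2 (PM.eq G S x) := by
    apply BarEx_ext
    intro s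
    show f (F (single s 1)) = (PM.eq G S).symm (single s 1)
    rw [hF, map_smul, hm]
    apply (PM.eq G S).injective
    rw [PM.eq_of_smul, AddEquiv.apply_symm_apply, AddEquiv.apply_symm_apply, mapDomain_single,
      smul_inv_smul]
  exact h3

theorem bar_projective (n : ℕ) : Module.Projective (GA G) (Bar G n) := by
  have hne : ∀ l : Tup G (n + 1), l.1 ≠ [] := by
    intro l h
    have h2 := l.2
    rw [h] at h2
    simp at h2
  refine BarEx_proj (fun l : Tup G (n + 1) => l.1.head (hne l)) ?_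
  intro g l
  simp only [Tup.smul_val]
  rw [List.head_map]
  rfl

/-- the cone on lists of length `n` -/
noncomputable def BarEx_cn (n : ℕ) : (Tup G n →₀ ℤ) →ₗ[ℤ] (Tup G (n + 1) →₀ ℤ) :=
  Finsupp.lmapDomain ℤ ℤ
    (fun l : Tup G n => (⟨(1 : G) :: l.1, by rw [List.length_cons, l.2]⟩ : Tup G (n + 1)))

theorem BarEx_inc_cn (n : ℕ) (c : Tup G n →₀ ℤ) :
    Tup.inc G (n + 1) (BarEx_cn G n c) = cone 1 (Tup.inc G n c) := by
  simp only [Tup.inc, BarEx_cn, cone, lmapDomain_apply, ← mapDomain_comp]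
  rfl

theorem BarEx_tb_cn_succ (n : ℕ) (c : Tup G (n + 1) →₀ ℤ) :
    tb G (n + 1) (BarEx_cn G (n + 1) c) = c - BarEx_cn G n (tb G n c) := by
  apply Tup.inc_injective
  rw [Tup.inc_tb, BarEx_inc_cn, bd_cone, map_sub, BarEx_inc_cn, Tup.inc_tb]

theorem BarEx_tb_cn_zero (c : Tup G 0 →₀ ℤ) : tb G 0 (BarEx_cn G 0 c) = c := by
  apply Tup.inc_injective
  rw [Tup.inc_tb, BarEx_inc_cn, bd_cone]
  have h : bd (Tup.inc G 0 c) = 0 := by
    have e : (bd ∘ₗ Tup.inc G 0) = (0 : (Tup G 0 →₀ ℤ) →ₗ[ℤ] Ch G) := by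
      refine Finsupp.lhom_ext' fun l => LinearMap.ext_ring ?_
      show bd (Tup.inc G 0 (single l 1)) = 0
      rw [Tup.inc_single, bd_single, one_smul]
      have : l.v = [] := List.length_eq_zero_iff.mp l.2
      rw [this, bdL_nil]
    exact LinearMap.congr_fun e c
  rw [h, map_zero, sub_zero]

theorem BarEx_eq_dBar (n : ℕ) (x : Bar G (n + 1)) :
    PM.eq G (Tup G (n + 1)) (dBar G n x) = tb G (n + 1) (PM.eq G (Tup G (n + 2)) x) := rfl

theorem BarEx_eq_eBar (x : Bar G 0) :
    PM.eq G (Tup G 0) (eBar G x) = tb G 0 (PM.eq G (Tup G 1) x) := rfl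

theorem dBar_dBar (n : ℕ) (x : Bar G (n + 2)) : dBar G n (dBar G (n + 1) x) = 0 := by
  apply (PM.eq G (Tup G (n + 1))).injective
  rw [BarEx_eq_dBar, BarEx_eq_dBar, tb_tb, map_zero]

theorem eBar_dBar (x : Bar G 1) : eBar G (dBar G 0 x) = 0 := by
  apply (PM.eq G (Tup G 0)).injective
  rw [BarEx_eq_eBar, BarEx_eq_dBar, tb_tb, map_zero]

theorem eBar_surjective : Function.Surjective (eBar G) := by
  intro y
  refine ⟨(PM.eq G (Tup G 1)).symm (BarEx_cn G 0 (PM.eq G (Tup G 0) y)), ?_⟩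
  apply (PM.eq G (Tup G 0)).injective
  rw [BarEx_eq_eBar, AddEquiv.apply_symm_apply, BarEx_tb_cn_zero]

theorem eBar_exact (x : Bar G 0) (h : eBar G x = 0) : ∃ y, dBar G 0 y = x := by
  have h1 : tb G 0 (PM.eq G (Tup G 1) x) = 0 := by
    rw [← BarEx_eq_eBar, h, map_zero]
  refine ⟨(PM.eq G (Tup G 2)).symm (BarEx_cn G 1 (PM.eq G (Tup G 1) x)), ?_⟩
  apply (PM.eq G (Tup G 1)).injective
  rw [BarEx_eq_dBar, AddEquiv.apply_symm_apply, BarEx_tb_cn_succ, h1, map_zero, sub_zero]

theorem dBar_exact (n : ℕ) (x : Bar G (n + 1)) (h : dBar G n x = 0) :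
    ∃ y, dBar G (n + 1) y = x := by
  have h1 : tb G (n + 1) (PM.eq G (Tup G (n + 2)) x) = 0 := by
    rw [← BarEx_eq_dBar, h, map_zero]
  refine ⟨(PM.eq G (Tup G (n + 3))).symm (BarEx_cn G (n + 2) (PM.eq G (Tup G (n + 2)) x)), ?_⟩
  apply (PM.eq G (Tup G (n + 2))).injective
  rw [BarEx_eq_dBar, AddEquiv.apply_symm_apply, BarEx_tb_cn_succ, h1, map_zero, sub_zero]

theorem dCB_dCB (N : Subgroup G) [N.Normal] (n : ℕ) (x : CB N (n + 2)) :
    dCB N n (dCB N (n + 1) x) = 0 := by
  induction x using Co.ind with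
  | h x =>
    show Co.map N (dBar G n) (Co.map N (dBar G (n + 1)) (Co.mk N _ x)) = 0
    rw [Co.map_mk, Co.map_mk, dBar_dBar, map_zero]

end Tor
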