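import Mathlib
import Pool.Agent.Lib.MP_05cdf2_gt.D.DDef

/-! MP_05cdf2_gt, stream D, job BrA: comparison of the complex `CB N` with the inhomogeneous complex of `N`.

`φ k` sends the basis element `g : Fin k → N` to the class of the list `[1, g_0, g_0 g_1, ..., g_0 ... g_{k-1}]` (running
products, length `k + 1`). Choose `ν : G → N` with `ν (n * x) = n * ν x` for `n ∈ N` and `ν n = n` for `n ∈ N` (right cosets `N x`;
choose representatives with `1` for the coset `N`). `ψ k` is induced by the map
`[x_0, ..., x_k] ↦ ((ν x_i)⁻¹ * ν x_{i+1})_{i < k}` on basis elements; it is constant on `N`-orbits, so it kills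
`coSub N (Bar G k)`. `ψ ∘ φ = id` is clear.
Chain maps: the boundary of a list `[x_0, ..., x_k]` is `∑ (-1)^i (omit x_i)` (prove this form of `bdL`:
`bdL l = ∑ i : Fin l.length, (-1)^i • single (l.eraseIdx i) 1`, or work with functions `Fin (k+1) → G` and
`Fin.succAbove`). Under `ψ` omitting `x_0` gives `fun i => g i.succ`, omitting `x_{j+1}` gives
`Fin.contractNth j (· * ·) g` (for `j < k`: the product of the two adjacent entries; for the last one `j = k` the last
entry is dropped, which is `Fin.contractNth (Fin.last k)`), with sign `(-1)^(j+1)`. This is the formula of `dI`. For `φ`: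
omitting the first element of `[1, g_0, g_0 g_1, ...]` gives `g_0 • [1, g_1, g_1 g_2, ...]`, which has the same class
in `Co`.
It may be convenient to prove the statement for `ψ` first and to deduce the one for `φ` by injectivity of `ψ` only
if `G = N`; in general do both computations.
`ψφ` suffices for us, no homotopy is needed.
-/

set_option autoImplicit false

namespace Tor
open Finsupp

/-- the boundary of a list given by a function -/
theorem BrA_bdL_ofFn {α : Type} : ∀ (n : ℕ) (f : Fin (n + 1) → α), bdL (List.ofFn f) =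
    ∑ i : Fin (n + 1), (-1 : ℤ) ^ (i : ℕ) • (single (List.ofFn (fun j => f (i.succAbove j))) 1 : Ch α) := by
  intro n
  induction n with
  | zero =>
    intro f
    rw [Fin.sum_univ_one, List.ofFn_succ, List.ofFn_zero, bdL_cons, bdL_nil, map_zero, sub_zero,
      List.ofFn_zero]
    simp
  | succ n ih =>
    intro f
    rw [List.ofFn_succ, bdL_cons, ih]
    conv_rhs => rw [Fin.sum_univ_succ]
    have h0 : (fun j : Fin (n + 1) => f ((0 : Fin (n + 2)).succAbove j)) = fun j => f j.succ := by
      funext j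
      rw [Fin.zero_succAbove]
    rw [h0, Fin.val_zero, pow_zero, one_smul, map_sum, sub_eq_add_neg, ← Finset.sum_neg_distrib]
    congr 1
    refine Finset.sum_congr rfl fun i _ => ?_
    rw [map_zsmul, cone_single, Fin.val_succ, pow_succ, mul_neg_one, neg_smul]
    congr 3
    rw [List.ofFn_succ]
    congr 2
    funext j
    rw [Fin.succ_succAbove_succ]

/-- the list of a function -/
def BrA_T {α : Type} {n : ℕ} (f : Fin n → α) : Tup α n := ⟨List.ofFn f, List.length_ofFn⟩

/-- the function of a list -/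
def BrA_un {α : Type} {n : ℕ} (l : Tup α n) : Fin n → α := fun i => l.1.get (Fin.cast l.2.symm i)

theorem BrA_un_T {α : Type} {n : ℕ} (f : Fin n → α) : BrA_un (BrA_T f) = f := by
  funext i
  show (List.ofFn f).get _ = f i
  rw [List.get_ofFn]
  rfl

theorem BrA_T_un {α : Type} {n : ℕ} (l : Tup α n) : BrA_T (BrA_un l) = l := by
  apply Subtype.ext
  show List.ofFn (BrA_un l) = l.1
  obtain ⟨l, rfl⟩ := l
  exact List.ofFn_get l

theorem BrA_un_smul {G α : Type} [Group G] [MulAction G α] {n : ℕ} (g : G) (l : Tup α n) (i : Fin n) :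
    BrA_un (g • l) i = g • BrA_un l i := by
  simp [BrA_un, Tup.smul_val]

theorem BrA_smul_T {G α : Type} [Group G] [MulAction G α] {n : ℕ} (g : G) (f : Fin n → α) :
    g • BrA_T f = BrA_T (fun i => g • f i) := by
  apply Subtype.ext
  show (List.ofFn f).map (g • ·) = List.ofFn (fun i => g • f i)
  rw [List.map_ofFn]
  rfl

/-- the boundary of a basis element -/
theorem BrA_tb {α : Type} (n : ℕ) (f : Fin (n + 1) → α) : tb α n (single (BrA_T f) 1) =
    ∑ i : Fin (n + 1), (-1 : ℤ) ^ (i : ℕ) •
      (single (BrA_T (fun j => f (i.succAbove j))) 1 : Tup α n →₀ ℤ) := by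
  apply Tup.inc_injective
  rw [Tup.inc_tb, Tup.inc_single, bd_single, one_smul, map_sum]
  show bdL (List.ofFn f) = _
  rw [BrA_bdL_ofFn]
  refine Finset.sum_congr rfl fun i _ => ?_
  rw [map_zsmul, Tup.inc_single]
  rfl

theorem BrA_hom_ext {α : Type} {n : ℕ} {A : Type} [AddCommGroup A] {f g : (Tup α n →₀ ℤ) →+ A}
    (h : ∀ x : Fin n → α, f (single (BrA_T x) 1) = g (single (BrA_T x) 1)) : f = g := by
  refine Finsupp.addHom_ext' fun l => ?_
  refine AddMonoidHom.ext_int ?_
  show f (single l 1) = g (single l 1)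
  have := h (BrA_un l)
  rwa [BrA_T_un] at this

/-- the differences of consecutive entries -/
def BrA_q {G N : Type} [Group N] (ν : G → N) {k : ℕ} (x : Fin (k + 1) → G) : Fin k → N :=
  fun i => (ν (x i.castSucc))⁻¹ * ν (x i.succ)

theorem BrA_contract {N : Type} [Group N] {k : ℕ} (x : Fin (k + 2) → N) (j : Fin (k + 1))
    (i : Fin k) :
    (x (j.succ.succAbove i.castSucc))⁻¹ * x (j.succ.succAbove i.succ) =
      j.contractNth (· * ·) (fun i : Fin (k + 1) => (x i.castSucc)⁻¹ * x i.succ) i := by
  have h0 := Fin.partialProd_left_inv x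
  set g : Fin (k + 1) → N := fun i : Fin (k + 1) => (x i.castSucc)⁻¹ * x i.succ with hg
  have h1 : ∀ a, x a = x 0 * Fin.partialProd g a := fun a => (congrFun h0 a).symm
  have h2 : ∀ b, Fin.partialProd (j.contractNth (· * ·) g) b = Fin.partialProd g (j.succ.succAbove b) :=
    fun b => congrFun (Fin.partialProd_contractNth g j) b
  rw [h1, h1 (j.succ.succAbove i.succ), mul_inv_rev, mul_assoc, inv_mul_cancel_left, ← h2, ← h2,
    Fin.partialProd_right_inv]

/-- the map to `N` -/
theorem BrA_nu {G : Type} [Group G] (N : Subgroup G) [N.Normal] :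
    ∃ ν : G → N, (∀ (n : N) (x : G), ν (n * x) = n * ν x) ∧ ∀ n : N, ν n = n := by
  classical
  obtain ⟨ρ, hρ1, hρ2, hρ3⟩ : ∃ ρ : G → G, (∀ x : G, (ρ x : G ⧸ N) = (x : G ⧸ N)) ∧
      (∀ x y : G, (x : G ⧸ N) = (y : G ⧸ N) → ρ x = ρ y) ∧ (∀ x : G, x ∈ N → ρ x = 1) := by
    refine ⟨fun x => if (x : G ⧸ N) = 1 then 1 else (x : G ⧸ N).out, fun x => ?_, fun x y h => ?_,
      fun x hx => ?_⟩
    · by_cases h : (x : G ⧸ N) = 1
      · simp only [if_pos h]
        rw [h]
        rfl
      · simp only [if_neg h]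
        exact QuotientGroup.out_eq' _
    · simp only [h]
    · simp only [(QuotientGroup.eq_one_iff x).2 hx, if_true]
  have hmem : ∀ x, x * (ρ x)⁻¹ ∈ N := by
    intro x
    rw [← QuotientGroup.eq_one_iff]
    show (x : G ⧸ N) * ((ρ x : G ⧸ N))⁻¹ = 1
    rw [hρ1, mul_inv_cancel]
  refine ⟨fun x => ⟨x * (ρ x)⁻¹, hmem x⟩, fun n x => ?_, fun n => ?_⟩
  · apply Subtype.ext
    show (n : G) * x * (ρ ((n : G) * x))⁻¹ = n * (x * (ρ x)⁻¹)
    have : ρ ((n : G) * x) = ρ x := by
      apply hρ2
      show ((n : G) : G ⧸ N) * (x : G ⧸ N) = x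
      rw [(QuotientGroup.eq_one_iff (n : G)).2 n.2, one_mul]
    rw [this, mul_assoc]
  · apply Subtype.ext
    show (n : G) * (ρ (n : G))⁻¹ = n
    rw [hρ3 n n.2, inv_one, mul_one]

theorem exists_bar_maps {G : Type} [Group G] (N : Subgroup G) [N.Normal] :
    ∃ (φ : ∀ k, ((Fin k → N) →₀ ℤ) →+ CB N k) (ψ : ∀ k, CB N k →+ ((Fin k → N) →₀ ℤ)),
      (∀ k c, φ k (dI N k c) = dCB N k (φ (k + 1) c)) ∧
      (∀ k x, ψ k (dCB N k x) = dI N k (ψ (k + 1) x)) ∧ ∀ k c, ψ k (φ k c) = c := by
  obtain ⟨ν, hν1, hν2⟩ := BrA_nu N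
  -- the class of a function
  let cl : ∀ k, (Fin (k + 1) → G) → CB N k := fun k x =>
    Co.mk N (Bar G k) ((PM.eq G (Tup G (k + 1))).symm (single (BrA_T x) 1))
  have hcl_smul : ∀ k (n : G) (x : Fin (k + 1) → G), n ∈ N → cl k (fun i => n * x i) = cl k x := by
    intro k n x hn
    show Co.mk N (Bar G k) ((PM.eq G (Tup G (k + 1))).symm (single (BrA_T fun i => n * x i) 1)) = _
    refine Eq.trans ?_ (Co.mk_of_smul N hn ((PM.eq G (Tup G (k + 1))).symm (single (BrA_T x) 1)))
    congr 1
    apply (PM.eq G (Tup G (k + 1))).injective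
    rw [PM.eq_of_smul]
    simp only [AddEquiv.apply_symm_apply, mapDomain_single]
    rw [BrA_smul_T]
    rfl
  have hcl_d : ∀ k (x : Fin (k + 2) → G), dCB N k (cl (k + 1) x) =
      ∑ i : Fin (k + 2), (-1 : ℤ) ^ (i : ℕ) • cl k (fun j => x (i.succAbove j)) := by
    intro k x
    show Co.mk N (Bar G k) (dBar G k ((PM.eq G (Tup G (k + 2))).symm (single (BrA_T x) 1))) = _
    have h1 : dBar G k ((PM.eq G (Tup G (k + 2))).symm (single (BrA_T x) 1)) =
        ∑ i : Fin (k + 2), (-1 : ℤ) ^ (i : ℕ) •
          (PM.eq G (Tup G (k + 1))).symm (single (BrA_T fun j => x (i.succAbove j)) 1) := by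
      apply (PM.eq G (Tup G (k + 1))).injective
      show tb G (k + 1) (single (BrA_T x) 1) = _
      rw [BrA_tb, map_sum]
      refine Finset.sum_congr rfl fun i _ => ?_
      rw [map_zsmul]
      rfl
    rw [h1, map_sum]
    refine Finset.sum_congr rfl fun i _ => ?_
    rw [map_zsmul]
  -- the map φ
  let φ : ∀ k, ((Fin k → N) →₀ ℤ) →+ CB N k := fun k =>
    (Finsupp.linearCombination ℤ (fun g : Fin k → N =>
      cl k (fun i => ((Fin.partialProd g i : N) : G)))).toAddMonoidHom
  have hφ : ∀ k (g : Fin k → N), φ k (single g 1) = cl k (fun i => ((Fin.partialProd g i : N) : G)) := by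
    intro k g
    show (Finsupp.linearCombination ℤ _) (single g 1) = _
    rw [Finsupp.linearCombination_single, one_smul]
  -- the map ψ before passing to the quotient
  let ψ0 : ∀ k, Bar G k →+ ((Fin k → N) →₀ ℤ) := fun k =>
    (Finsupp.mapDomain.addMonoidHom (fun l : Tup G (k + 1) => BrA_q ν (BrA_un l))).comp
      (PM.eq G (Tup G (k + 1))).toAddMonoidHom
  have hψ0 : ∀ k (m : Bar G k), ψ0 k m =
      mapDomain (fun l : Tup G (k + 1) => BrA_q ν (BrA_un l)) (PM.eq G (Tup G (k + 1)) m) :=
    fun k m => rfl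
  have hinv : ∀ k (n : G) (hn : n ∈ N) (m : Bar G k),
      ψ0 k (MonoidAlgebra.of ℤ G n • m) = ψ0 k m := by
    intro k n hn m
    rw [hψ0, hψ0, PM.eq_of_smul, ← mapDomain_comp]
    congr 1
    funext l i
    show (ν (BrA_un (n • l) i.castSucc))⁻¹ * ν (BrA_un (n • l) i.succ) =
      (ν (BrA_un l i.castSucc))⁻¹ * ν (BrA_un l i.succ)
    rw [BrA_un_smul, BrA_un_smul]
    have h1 : ∀ y : G, ν (n • y) = ⟨n, hn⟩ * ν y := fun y => hν1 ⟨n, hn⟩ y
    rw [h1, h1, mul_inv_rev, mul_assoc, inv_mul_cancel_left]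
  have hkill : ∀ k (m : Bar G k), m ∈ coSub N (Bar G k) → ψ0 k m = 0 := by
    intro k m hm
    have h : ∀ r : GA G, ψ0 k (r • m) = 0 := by
      unfold coSub at hm
      induction hm using Submodule.span_induction with
      | mem x h =>
        obtain ⟨n, hn, y, rfl⟩ := h
        intro r
        induction r using MonoidAlgebra.induction_on with
        | of g =>
          rw [smul_sub, map_sub, ← mul_smul, ← map_mul,
            show g * n = (g * n * g⁻¹) * g by group, map_mul, mul_smul,
            hinv k _ (Subgroup.Normal.conj_mem inferInstance n hn g), sub_self]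
        | add a b ha hb => rw [add_smul, map_add, ha, hb, add_zero]
        | smul c a ha => rw [smul_assoc, map_zsmul, ha, smul_zero]
      | zero => intro r; rw [smul_zero, map_zero]
      | add x y _ _ hx hy => intro r; rw [smul_add, map_add, hx, hy, add_zero]
      | smul c x _ hx => intro r; rw [← mul_smul]; exact hx _
    have := h 1
    rwa [one_smul] at this
  let ψ : ∀ k, CB N k →+ ((Fin k → N) →₀ ℤ) := fun k =>
    (QuotientAddGroup.lift (coSub N (Bar G k)).toAddSubgroup (ψ0 k) (hkill k) :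
      (Bar G k ⧸ coSub N (Bar G k)) →+ ((Fin k → N) →₀ ℤ))
  have hψmk : ∀ k (m : Bar G k), ψ k (Co.mk N (Bar G k) m) = ψ0 k m := fun k m => rfl
  have hψcl : ∀ k (x : Fin (k + 1) → G), ψ k (cl k x) = single (BrA_q ν x) 1 := by
    intro k x
    show mapDomain (fun l : Tup G (k + 1) => BrA_q ν (BrA_un l)) (single (BrA_T x) 1) = _
    rw [mapDomain_single, BrA_un_T]
  have hdI : ∀ k (g : Fin (k + 1) → N), dI N k (single g 1) =
      (single (fun i : Fin k => g i.succ) 1 : (Fin k → N) →₀ ℤ) +
      ∑ j : Fin (k + 1), (-1 : ℤ) ^ ((j : ℕ) + 1) • single (Fin.contractNth j (· * ·) g) 1 := by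
    intro k g
    unfold dI
    rw [Finsupp.linearCombination_single, one_smul]
  refine ⟨φ, ψ, fun k c => ?_, fun k x => ?_, fun k c => ?_⟩
  · have key : (φ k).comp (dI N k).toAddMonoidHom =
        (dCB N k).toAddMonoidHom.comp (φ (k + 1)) := by
      refine Finsupp.addHom_ext' fun g => AddMonoidHom.ext_int ?_
      show φ k (dI N k (single g 1)) = dCB N k (φ (k + 1) (single g 1))
      rw [hφ, hcl_d, hdI, map_add, map_sum, hφ]
      conv_rhs => rw [Fin.sum_univ_succ]
      congr 1
      · rw [Fin.val_zero, pow_zero, one_smul]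
        rw [← hcl_smul k (g 0 : G) _ (g 0).2]
        congr 1
        funext j
        rw [Fin.zero_succAbove, Fin.partialProd_succ']
        rfl
      · refine Finset.sum_congr rfl fun j _ => ?_
        rw [map_zsmul, hφ, Fin.partialProd_contractNth, Fin.val_succ]
        rfl
    exact DFunLike.congr_fun key c
  · induction x using Co.ind with
    | h m =>
      have key : (ψ k).comp ((dCB N k).toAddMonoidHom.comp ((Co.mk N (Bar G (k + 1))).comp
          (PM.eq G (Tup G (k + 2))).symm.toAddMonoidHom)) =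
          (dI N k).toAddMonoidHom.comp ((ψ (k + 1)).comp ((Co.mk N (Bar G (k + 1))).comp
          (PM.eq G (Tup G (k + 2))).symm.toAddMonoidHom)) := by
        refine BrA_hom_ext fun x => ?_
        show ψ k (dCB N k (cl (k + 1) x)) = dI N k (ψ (k + 1) (cl (k + 1) x))
        rw [hψcl, hcl_d, hdI, map_sum]
        conv_lhs => rw [Fin.sum_univ_succ]
        congr 1
        · rw [map_zsmul, hψcl, Fin.val_zero, pow_zero, one_smul]
          congr 1
        · refine Finset.sum_congr rfl fun j _ => ?_
          rw [map_zsmul, hψcl, Fin.val_succ]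
          congr 2
          funext i
          exact BrA_contract (fun i => ν (x i)) j i
      exact DFunLike.congr_fun key (PM.eq G (Tup G (k + 2)) m)
  · have key : (ψ k).comp (φ k) = AddMonoidHom.id _ := by
      refine Finsupp.addHom_ext' fun g => AddMonoidHom.ext_int ?_
      show ψ k (φ k (single g 1)) = single g 1
      rw [hφ, hψcl]
      congr 1
      funext i
      show (ν ((Fin.partialProd g i.castSucc : N) : G))⁻¹ * ν ((Fin.partialProd g i.succ : N) : G) = g i
      rw [hν2, hν2, Fin.partialProd_right_inv]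
    exact DFunLike.congr_fun key c

end Tor
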