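import Mathlib
import Pool.Agent.Lib.MP_05cdf2_gt.D.DDef

/-! MP_05cdf2_gt, stream D, job BrB: finite generation of Mathlib's group homology from the inhomogeneous
complex.

`groupHomology A n = (inhomogeneousChains A).homology n`, with
`(inhomogeneousChains A).X n = ModuleCat.of ℤ ((Fin n → N) →₀ A)` and differential
`inhomogeneousChains.d A n` (`inhomogeneousChains.d_single`, `inhomogeneousChains.d_def`). For `A = Rep.trivial ℤ N ℤ` this
differential is `dI N n` (check on `single g 1`; `single g a = a • single g 1`).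
Every element of `groupHomology A k` is `π` of a cycle (`groupHomology_induction_on` or
`ModuleCat.epi_iff_surjective`), a cycle is an element of `ZI N k` (`iCycles`, injective, `cyclesMk`), and `π` of a boundary
is `0` (`toCycles_comp_homologyπ` or `homologyπ` of `toCycles`). So the finite set of the classes of the elements of `s`
generates `groupHomology A k` over `ℤ`: `Module.Finite`. (One can also build a surjective linear map from
`ZI N k` onto `groupHomology A k` with `cyclesMk` that kills the boundaries, and use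
`Module.Finite.of_surjective` from `(ZI N k) ⧸ (boundaries)`.)
-/

set_option autoImplicit false

namespace Tor
open Finsupp

section BrB
open CategoryTheory groupHomology

theorem brB_d (N : Type) [Group N] (n : ℕ) (f : (Fin (n + 1) → N) →₀ ℤ) :
    (inhomogeneousChains.d (Rep.trivial ℤ N ℤ) n).hom f = dI N n f := by
  have h : (inhomogeneousChains.d (Rep.trivial ℤ N ℤ) n).hom = dI N n := by
    refine Finsupp.lhom_ext' fun g => LinearMap.ext_ring ?_
    show (inhomogeneousChains.d (Rep.trivial ℤ N ℤ) n).hom (single g 1) = dI N n (single g 1)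
    have h1 := inhomogeneousChains.d_single (A := Rep.trivial ℤ N ℤ) n g (1 : ℤ)
    rw [dI, Finsupp.linearCombination_single, one_smul]
    exact h1
  rw [h]

theorem brB_dd (N : Type) [Group N] (n : ℕ) (f : (Fin (n + 1) → N) →₀ ℤ) :
    ((inhomogeneousChains (Rep.trivial ℤ N ℤ)).d (n + 1) n).hom f = dI N n f := by
  rw [inhomogeneousChains.d_def]
  exact brB_d N n f

theorem brB_zero (N : Type) [Group N] (k j : ℕ) (hj : (ComplexShape.down ℕ).next k = j)
    (z : (Fin k → N) →₀ ℤ) (hz : z ∈ ZI N k) :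
    ((inhomogeneousChains (Rep.trivial ℤ N ℤ)).d k j).hom z = 0 := by
  cases k with
  | zero =>
    have h0 : (inhomogeneousChains (Rep.trivial ℤ N ℤ)).d 0 j = 0 :=
      HomologicalComplex.shape _ _ _ (by simp)
    rw [h0]
    rfl
  | succ k =>
    rw [ChainComplex.next_nat_succ] at hj
    subst hj
    rw [brB_dd]
    exact hz

/-- the class of a cycle -/
noncomputable def brB_cyc (N : Type) [Group N] (k : ℕ) (z : ZI N k) :
    cycles (Rep.trivial ℤ N ℤ) k :=
  cyclesMk k _ rfl z.1 (brB_zero N k _ rfl z.1 z.2)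

theorem brB_iCyc (N : Type) [Group N] (k : ℕ) (z : ZI N k) :
    (iCycles (Rep.trivial ℤ N ℤ) k).hom (brB_cyc N k z) = z.1 :=
  iCycles_mk (A := Rep.trivial ℤ N ℤ) rfl z.1 (brB_zero N k _ rfl z.1 z.2)

theorem brB_inj (N : Type) [Group N] (k : ℕ) (x y : cycles (Rep.trivial ℤ N ℤ) k)
    (h : (iCycles (Rep.trivial ℤ N ℤ) k).hom x = (iCycles (Rep.trivial ℤ N ℤ) k).hom y) : x = y :=
  (ModuleCat.mono_iff_injective (iCycles (Rep.trivial ℤ N ℤ) k)).1 inferInstance h

/-- the map from cycles to homology -/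
noncomputable def brB_L (N : Type) [Group N] (k : ℕ) :
    ZI N k →+ groupHomology (Rep.trivial ℤ N ℤ) k where
  toFun z := (groupHomology.π (Rep.trivial ℤ N ℤ) k).hom (brB_cyc N k z)
  map_zero' := by
    have : brB_cyc N k 0 = 0 := by
      apply brB_inj
      rw [brB_iCyc, map_zero]
      rfl
    rw [this, map_zero]
  map_add' x y := by
    have : brB_cyc N k (x + y) = brB_cyc N k x + brB_cyc N k y := by
      apply brB_inj
      rw [map_add, brB_iCyc, brB_iCyc, brB_iCyc]
      rfl
    rw [this, map_add]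

theorem brB_L_bd (N : Type) [Group N] (k : ℕ) (w : (Fin (k + 1) → N) →₀ ℤ)
    (hw : dI N k w ∈ ZI N k) : brB_L N k ⟨dI N k w, hw⟩ = 0 := by
  have h1 : brB_cyc N k ⟨dI N k w, hw⟩ =
      ((inhomogeneousChains (Rep.trivial ℤ N ℤ)).toCycles (k + 1) k).hom w := by
    apply brB_inj
    rw [brB_iCyc]
    have h2 := (inhomogeneousChains (Rep.trivial ℤ N ℤ)).toCycles_i (k + 1) k
    have h3 := congrArg (fun f => (ModuleCat.Hom.hom f) w) h2
    simp only [ModuleCat.hom_comp, LinearMap.comp_apply] at h3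
    rw [brB_dd] at h3
    exact h3.symm
  show (groupHomology.π (Rep.trivial ℤ N ℤ) k).hom (brB_cyc N k ⟨dI N k w, hw⟩) = 0
  rw [h1]
  have h2 := (inhomogeneousChains (Rep.trivial ℤ N ℤ)).toCycles_comp_homologyπ (k + 1) k
  have h3 := congrArg (fun f => (ModuleCat.Hom.hom f) w) h2
  simp only [ModuleCat.hom_comp, LinearMap.comp_apply] at h3
  exact h3

theorem brB_surj (N : Type) [Group N] (k : ℕ) : Function.Surjective (brB_L N k) := by
  intro y
  induction y using groupHomology_induction_on with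
  | h x =>
    have hz : (iCycles (Rep.trivial ℤ N ℤ) k).hom x ∈ ZI N k := by
      cases k with
      | zero => exact Submodule.mem_top
      | succ k =>
        show (iCycles (Rep.trivial ℤ N ℤ) (k + 1)).hom x ∈ LinearMap.ker (dI N k)
        rw [LinearMap.mem_ker, ← brB_dd]
        have h2 := (inhomogeneousChains (Rep.trivial ℤ N ℤ)).iCycles_d (k + 1) k
        have h3 := congrArg (fun f => (ModuleCat.Hom.hom f) x) h2
        simp only [ModuleCat.hom_comp, LinearMap.comp_apply] at h3
        exact h3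
    refine ⟨⟨_, hz⟩, ?_⟩
    show (groupHomology.π (Rep.trivial ℤ N ℤ) k).hom (brB_cyc N k ⟨_, hz⟩) = _
    have h1 : brB_cyc N k ⟨_, hz⟩ = x := by
      apply brB_inj
      rw [brB_iCyc]
    rw [h1]

end BrB

theorem groupHomology_finite_of (N : Type) [Group N] (k : ℕ) (h : HIF N k) :
    Module.Finite ℤ (groupHomology (Rep.trivial ℤ N ℤ) k) := by
  obtain ⟨s, hs, hs'⟩ := h
  set S : Set (groupHomology (Rep.trivial ℤ N ℤ) k) :=
    brB_L N k '' ((fun z : ZI N k => z.1) ⁻¹' (s : Set ((Fin k → N) →₀ ℤ))) with hS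
  have hfin : S.Finite := by
    refine Set.Finite.image _ ?_
    exact Set.Finite.preimage (Subtype.val_injective.injOn) s.finite_toSet
  have hcl : ∀ y ∈ AddSubgroup.closure (s : Set ((Fin k → N) →₀ ℤ)),
      ∃ hy : y ∈ ZI N k, brB_L N k ⟨y, hy⟩ ∈ Submodule.span ℤ S := by
    intro y hy
    induction hy using AddSubgroup.closure_induction with
    | mem x hx => exact ⟨hs x hx, Submodule.subset_span ⟨⟨x, hs x hx⟩, hx, rfl⟩⟩
    | zero => exact ⟨(ZI N k).zero_mem, by
        have : (⟨0, (ZI N k).zero_mem⟩ : ZI N k) = 0 := rfl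
        rw [this, map_zero]
        exact Submodule.zero_mem _⟩
    | add x y _ _ hx hy =>
      obtain ⟨h1, h2⟩ := hx
      obtain ⟨h3, h4⟩ := hy
      refine ⟨(ZI N k).add_mem h1 h3, ?_⟩
      have : (⟨x + y, (ZI N k).add_mem h1 h3⟩ : ZI N k) = ⟨x, h1⟩ + ⟨y, h3⟩ := rfl
      rw [this, map_add]
      exact Submodule.add_mem _ h2 h4
    | neg x _ hx =>
      obtain ⟨h1, h2⟩ := hx
      refine ⟨(ZI N k).neg_mem h1, ?_⟩
      have : (⟨-x, (ZI N k).neg_mem h1⟩ : ZI N k) = -⟨x, h1⟩ := rfl
      rw [this, map_neg]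
      exact Submodule.neg_mem _ h2
  refine ⟨⟨hfin.toFinset, ?_⟩⟩
  rw [hfin.coe_toFinset, eq_top_iff]
  intro q _
  obtain ⟨z, rfl⟩ := brB_surj N k q
  obtain ⟨y, hy, w, hw⟩ := hs' z.1 z.2
  obtain ⟨hy1, hy2⟩ := hcl y hy
  have hw1 : dI N k w ∈ ZI N k := by
    have : dI N k w = z.1 - y := by rw [hw]; abel
    rw [this]
    exact (ZI N k).sub_mem z.2 hy1
  have hz : z = ⟨y, hy1⟩ + ⟨dI N k w, hw1⟩ := Subtype.ext hw
  rw [hz, map_add, brB_L_bd, add_zero]
  exact hy2

end Tor
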