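import Mathlib
import Pool.Agent.Lib.MP_05cdf2_gt.D.BrA
import Pool.Agent.Lib.MP_05cdf2_gt.D.BrB

/-! MP_05cdf2_gt, stream D, job BrC: bridge.

`HIF_of_HFGZ`: let `s` be the finite set of `HFGZ (CB N) (dCB N) k`; take the image of `s` under `ψ k`. For `x ∈ ZI N k` the
element `φ k x` is in `Zc` (chain map), so `φ x = y + dCB w`, and `x = ψ φ x = ψ y + dI (ψ w)`.
`HFGZ_zero`: `Zc` in degree `0` is everything; `Bar G 0 = PM G (Tup G 1)` is spanned by the `[x]`, `x : G`, and
`[x] - [1] = tb [1, x]` up to sign; so `s = {Co.mk [1]}` works (already over `ℤ`).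
-/

set_option autoImplicit false

namespace Tor
open Finsupp

/-- lists of length 1 -/
def BrC_one {G : Type} (g : G) : Tup G 1 := ⟨[g], rfl⟩

/-- lists of length 2 -/
def BrC_two {G : Type} (a g : G) : Tup G 2 := ⟨[a, g], rfl⟩

theorem BrC_tb {G : Type} [Group G] (g : G) (a : ℤ) :
    tb G 1 (single (BrC_two 1 g) a) = single (BrC_one g) a - single (BrC_one 1) a := by
  apply Tup.inc_injective
  rw [Tup.inc_tb, LinearMap.map_sub, Tup.inc_single, Tup.inc_single, Tup.inc_single, bd_single]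
  have h1 : (BrC_two 1 g).v = [1, g] := rfl
  have h2 : (BrC_one g).v = [g] := rfl
  have h3 : (BrC_one (1 : G)).v = [1] := rfl
  rw [h1, h2, h3, bdL_cons, bdL_cons, bdL_nil, LinearMap.map_zero, sub_zero, cone_single, smul_sub,
    Finsupp.smul_single, Finsupp.smul_single, smul_eq_mul, mul_one]

theorem BrC_zero {G : Type} [Group G] (x : Bar G 0) : ∃ (n : ℤ) (w : Bar G 1),
    x = n • (PM.eq G (Tup G 1)).symm (single (BrC_one 1) 1) + dBar G 0 w := by
  have key : ∀ c : Tup G 1 →₀ ℤ, ∃ (n : ℤ) (w : Tup G 2 →₀ ℤ),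
      c = n • single (BrC_one 1) 1 + tb G 1 w := by
    intro c
    induction c using Finsupp.induction_linear with
    | zero => exact ⟨0, 0, by rw [zero_smul, LinearMap.map_zero, add_zero]⟩
    | add f g hf hg =>
      obtain ⟨n, w, h⟩ := hf
      obtain ⟨n', w', h'⟩ := hg
      refine ⟨n + n', w + w', ?_⟩
      rw [LinearMap.map_add, add_smul, h, h']
      abel
    | single l a =>
      obtain ⟨l, hl⟩ := l
      obtain ⟨g, rfl⟩ := List.length_eq_one_iff.1 hl
      refine ⟨a, single (BrC_two 1 g) a, ?_⟩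
      have h1 : (⟨[g], hl⟩ : Tup G 1) = BrC_one g := rfl
      rw [h1, BrC_tb, Finsupp.smul_single, smul_eq_mul, mul_one]
      abel
  obtain ⟨n, w, h⟩ := key (PM.eq G (Tup G 1) x)
  refine ⟨n, (PM.eq G (Tup G 2)).symm w, ?_⟩
  apply (PM.eq G (Tup G 1)).injective
  rw [map_add, map_zsmul, AddEquiv.apply_symm_apply, h]
  rfl

theorem HIF_of_HFGZ {G : Type} [Group G] (N : Subgroup G) [N.Normal] (k : ℕ)
    (h : HFGZ (CB N) (dCB N) k) : HIF N k := by
  classical
  obtain ⟨φ, ψ, hφ, hψ, hψφ⟩ := exists_bar_maps N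
  obtain ⟨s, hs1, hs2⟩ := h
  refine ⟨s.image (ψ k), ?_, ?_⟩
  · intro z hz
    obtain ⟨x, hx, rfl⟩ := Finset.mem_image.1 hz
    have h1 := hs1 x hx
    cases k with
    | zero => exact Submodule.mem_top
    | succ k =>
      have h2 : dCB N k x = 0 := h1
      show dI N k (ψ (k + 1) x) = 0
      rw [← hψ, h2, map_zero]
  · intro x hx
    have h1 : φ k x ∈ Zc (CB N) (dCB N) k := by
      cases k with
      | zero => exact Submodule.mem_top
      | succ k =>
        have h2 : dI N k x = 0 := hx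
        show dCB N k (φ (k + 1) x) = 0
        rw [← hφ, h2, map_zero]
    obtain ⟨y, hy, w, hw⟩ := hs2 _ h1
    refine ⟨ψ k y, ?_, ψ (k + 1) w, ?_⟩
    · rw [Finset.coe_image, ← AddMonoidHom.map_closure]
      exact ⟨y, hy, rfl⟩
    · rw [← hψ, ← map_add, ← hw, hψφ]

theorem HFGZ_zero {G : Type} [Group G] (N : Subgroup G) [N.Normal] :
    HFGZ (CB N) (dCB N) 0 := by
  classical
  refine ⟨{Co.mk N (Bar G 0) ((PM.eq G (Tup G 1)).symm (single (BrC_one 1) 1))},
    fun z _ => Submodule.mem_top, ?_⟩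
  intro x _
  induction x using Co.ind with
  | h x =>
    obtain ⟨n, w, h⟩ := BrC_zero x
    refine ⟨n • Co.mk N (Bar G 0) ((PM.eq G (Tup G 1)).symm (single (BrC_one 1) 1)),
      ?_, Co.mk N (Bar G 1) w, ?_⟩
    · apply AddSubgroup.zsmul_mem
      apply AddSubgroup.subset_closure
      simp
    · have h2 : dCB N 0 (Co.mk N (Bar G 1) w) = Co.mk N (Bar G 0) (dBar G 0 w) := rfl
      rw [h2, ← map_zsmul, ← map_add, ← h]

end Tor
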