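import Mathlib
import Pool.Agent.Lib.MP_05cdf2_gt.D.DDef

/-! MP_05cdf2_gt, stream D, job CT: the comparison theorem, by hand.

`chain_lift`: construct `F n` by recursion. `F 0`: lift `f ∘ eP` through the surjection `eY`
(`Module.projective_lifting_property`). `F 1`: `F 0 ∘ dP 0` has values in `ker eY` (because
`eY (F 0 (dP 0 x)) = f (eP (dP 0 x)) = 0`) which is the range of `dY 0`: lift through the surjection
`Y 1 → range (dY 0)` (`LinearMap.rangeRestrict`, codRestrict). `F (n+2)`: the same with `dY n`,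
`dY (n+1)`. Suggestion for the recursion: define the type of pairs
`{p : (P n →ₗ Y n) × (P (n+1) →ₗ Y (n+1)) // ∀ x, dY n (p.2 x) = p.1 (dP n x)}`, a step function by choice
with first component of the next pair equal to the second component of the previous one, and `Nat.rec`.

`chain_homotopy`: `h 0`: `F 0 - F' 0` has values in `ker eY = range (dY 0)`, lift. `h (n+1)`:
`F (n+1) - F' (n+1) - h n ∘ dP n` is killed by `dY n`:
`dY n (F (n+1) x - F' (n+1) x) = F n (dP n x) - F' n (dP n x) = dY n (h n (dP n x)) + h (n-1) (dP (n-1) (dP n x))`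
and the last term is zero (for `n = 0` there is no last term). So it has values in `range (dY (n+1))`; lift.
-/

set_option autoImplicit false

namespace Tor
open Finsupp

private theorem ct_lift {R : Type} [Ring R] {A B C : Type} [AddCommGroup A] [Module R A]
    [AddCommGroup B] [Module R B] [AddCommGroup C] [Module R C] (hA : Module.Projective R A)
    (g : B →ₗ[R] C) (φ : A →ₗ[R] C) (h : ∀ x, ∃ z, g z = φ x) :
    ∃ ψ : A →ₗ[R] B, ∀ x, g (ψ x) = φ x := by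
  let φ' : A →ₗ[R] LinearMap.range g := φ.codRestrict (LinearMap.range g) (fun x => by
    obtain ⟨z, hz⟩ := h x
    exact ⟨z, hz⟩)
  obtain ⟨ψ, hψ⟩ := Module.projective_lifting_property g.rangeRestrict φ'
    (LinearMap.surjective_rangeRestrict g)
  refine ⟨ψ, fun x => ?_⟩
  have h1 := congrArg Subtype.val (LinearMap.congr_fun hψ x)
  exact h1

section
variable {R : Type} [Ring R] (P Y : ℕ → Type) [∀ n, AddCommGroup (P n)] [∀ n, Module R (P n)]
  [∀ n, AddCommGroup (Y n)] [∀ n, Module R (Y n)] (dP : ∀ n, P (n + 1) →ₗ[R] P n)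
  (dY : ∀ n, Y (n + 1) →ₗ[R] Y n) {M M' : Type} [AddCommGroup M] [Module R M]
  [AddCommGroup M'] [Module R M'] (eP : P 0 →ₗ[R] M) (eY : Y 0 →ₗ[R] M')

theorem chain_lift (hproj : ∀ n, Module.Projective R (P n)) (hP0 : ∀ x, eP (dP 0 x) = 0)
    (hPP : ∀ n x, dP n (dP (n + 1) x) = 0) (hYs : Function.Surjective eY)
    (hY0 : ∀ y, eY y = 0 → ∃ z, dY 0 z = y) (hYY : ∀ n y, dY n y = 0 → ∃ z, dY (n + 1) z = y)
    (f : M →ₗ[R] M') :
    ∃ F : ∀ n, P n →ₗ[R] Y n, (∀ x, eY (F 0 x) = f (eP x)) ∧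
      ∀ n x, dY n (F (n + 1) x) = F n (dP n x) := by
  obtain ⟨F0, hF0⟩ := ct_lift (hproj 0) eY (f ∘ₗ eP) (fun x => hYs _)
  obtain ⟨F1, hF1⟩ := ct_lift (hproj 1) (dY 0) (F0 ∘ₗ dP 0) (fun x => hY0 _ (by
    show eY (F0 (dP 0 x)) = 0
    rw [hF0]
    show f (eP (dP 0 x)) = 0
    rw [hP0, map_zero]))
  let Good : ℕ → Type := fun n => {p : (P n →ₗ[R] Y n) × (P (n + 1) →ₗ[R] Y (n + 1)) //
    ∀ x, dY n (p.2 x) = p.1 (dP n x)}
  have step : ∀ (n : ℕ) (p : Good n), ∃ q : Good (n + 1), q.1.1 = p.1.2 := by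
    intro n p
    obtain ⟨ψ, hψ⟩ := ct_lift (hproj (n + 2)) (dY (n + 1)) (p.1.2 ∘ₗ dP (n + 1)) (fun x =>
      hYY n _ (by
        show dY n (p.1.2 (dP (n + 1) x)) = 0
        rw [p.2, hPP, map_zero]))
    exact ⟨⟨(p.1.2, ψ), hψ⟩, rfl⟩
  choose S hS using step
  let g0 : Good 0 := ⟨(F0, F1), hF1⟩
  let seq : ∀ n, Good n := fun n => Nat.rec g0 (fun n p => S n p) n
  refine ⟨fun n => (seq n).1.1, fun x => hF0 x, fun n x => ?_⟩
  have h1 : (seq (n + 1)).1.1 = (seq n).1.2 := hS n (seq n)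
  show dY n ((seq (n + 1)).1.1 x) = (seq n).1.1 (dP n x)
  rw [h1]
  exact (seq n).2 x

theorem chain_homotopy (hproj : ∀ n, Module.Projective R (P n))
    (hPP : ∀ n x, dP n (dP (n + 1) x) = 0)
    (hY0 : ∀ y, eY y = 0 → ∃ z, dY 0 z = y) (hYY : ∀ n y, dY n y = 0 → ∃ z, dY (n + 1) z = y)
    (F F' : ∀ n, P n →ₗ[R] Y n) (h0 : ∀ x, eY (F 0 x) = eY (F' 0 x))
    (hF : ∀ n x, dY n (F (n + 1) x) = F n (dP n x))
    (hF' : ∀ n x, dY n (F' (n + 1) x) = F' n (dP n x)) :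
    ∃ h : ∀ n, P n →ₗ[R] Y (n + 1), (∀ x, F 0 x - F' 0 x = dY 0 (h 0 x)) ∧
      ∀ n x, F (n + 1) x - F' (n + 1) x = dY (n + 1) (h (n + 1) x) + h n (dP n x) := by
  obtain ⟨k0, hk0⟩ := ct_lift (hproj 0) (dY 0) (F 0 - F' 0) (fun x => hY0 _ (by
    rw [LinearMap.sub_apply, map_sub, h0, sub_self]))
  let K : ℕ → Type := fun n => {q : P n →ₗ[R] Y (n + 1) //
    ∀ x, dY n (q (dP n x)) = F n (dP n x) - F' n (dP n x)}
  have step : ∀ (n : ℕ) (q : K n), ∃ r : K (n + 1),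
      ∀ x, F (n + 1) x - F' (n + 1) x = dY (n + 1) (r.1 x) + q.1 (dP n x) := by
    intro n q
    obtain ⟨ψ, hψ⟩ := ct_lift (hproj (n + 1)) (dY (n + 1)) (F (n + 1) - F' (n + 1) - q.1 ∘ₗ dP n)
      (fun x => hYY n _ (by
        show dY n (F (n + 1) x - F' (n + 1) x - q.1 (dP n x)) = 0
        rw [map_sub, map_sub, hF, hF', q.2, sub_self]))
    have hψ' : ∀ x, dY (n + 1) (ψ x) = F (n + 1) x - F' (n + 1) x - q.1 (dP n x) := hψ
    refine ⟨⟨ψ, fun x => ?_⟩, fun x => ?_⟩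
    · rw [hψ', hPP, map_zero, sub_zero]
    · show F (n + 1) x - F' (n + 1) x = dY (n + 1) (ψ x) + q.1 (dP n x)
      rw [hψ', sub_add_cancel]
  choose S hS using step
  let g0 : K 0 := ⟨k0, fun x => hk0 _⟩
  let seq : ∀ n, K n := fun n => Nat.rec g0 (fun n p => S n p) n
  exact ⟨fun n => (seq n).1, fun x => (hk0 x).symm, fun n x => hS n (seq n) x⟩

end

end Tor
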