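import Mathlib
import Pool.Agent.Lib.MP_05cdf2_gt.D.DDef

/-! MP_05cdf2_gt, stream D, job Cols: `τ` is homotopic to the identity on the columns.

Put `θ' s = θ s` if `s ∈ S` and `s ≠ []`, and `θ' s = 1` otherwise. Then `θ' (n s) = n * θ' s * n⁻¹` for ALL lists `s` and
`n ∈ N` (`S` is invariant under `H`, hence `n s ∈ S ↔ s ∈ S`), `θ' s` fixes `s`, and `θ' s * τ⁻¹ ∈ N` if `s ∈ S`, `s ≠ []`.
Prism operator for `g : H`: `pr g : List α → Ch α`, `pr g [] = 0`,
`pr g (a :: l) = single (g • a :: a :: l) 1 - cone (g • a) (pr g l)`, extended linearly. By induction on `l`: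
`bd (pr g l) + pr g (bd l) = l - g l` (here `g l = l.map (g • ·)`), see the computation
`bd (g a :: a :: l) = (a :: l) - g a :: l + g a :: a :: bd l`, ... ; for `l = []` both sides are `0`.
Put `P (s, l) = s ⊗ pr (θ' s) l` on `Ch2 β α`. Then
(1) `d2 (P c) + P (d2 c) = c - c'`, where `(s, l)' = (s, θ' s • l)`;
(2) `P (aL2 n c) = aL2 n (P c)` for `n ∈ N` (equivariance of `θ'`: `pr (n g n⁻¹) (n l) = n (pr g l)`), so `P` preserves
    `KL2 N β α`;
(3) for `c` supported on pairs with `s ∈ S`, `s ≠ []`: `c' - aL2 τ c ∈ KL2 N β α`, because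
    `(s, θ' s • l) = θ' s • (s, l) = n τ (s, l)` with `n = θ' s * τ⁻¹ ∈ N`.
(4) `P` maps `Sup2 S α (p+1) (q+1)` to `Sup2 S α (p+1) (q+2)`.
So `aL2 τ x - x ≡ x' - x = - d2 (P x) - P (d2 x)`. If `q ≠ 0` then `d2 x ∈ KL2` and `P (d2 x) ∈ KL2`. If `q = 0` then
`d2 x` is supported on pairs `(s, [])` and `P (d2 x) = 0`. Take `y = - P x`.
-/

set_option autoImplicit false

namespace Tor
open Finsupp

theorem Cols_supp {ι M : Type} [AddCommGroup M] {T : Set ι} (f : (ι →₀ ℤ) →ₗ[ℤ] M)
    (N : Submodule ℤ M) (h : ∀ x ∈ T, f (single x 1) ∈ N) {c : ι →₀ ℤ}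
    (hc : c ∈ Finsupp.supported ℤ ℤ T) : f c ∈ N := by
  rw [← Finsupp.sum_single c, Finsupp.sum, map_sum]
  refine N.sum_mem fun l hl => ?_
  have hlS : l ∈ T := (Finsupp.mem_supported ℤ c).1 hc hl
  have h1 : single l (c l) = c l • (single l 1 : ι →₀ ℤ) := by simp
  rw [h1, map_smul]
  exact N.smul_mem _ (h l hlS)

theorem Cols_ext {ι M : Type} [AddCommGroup M] {f g : (ι →₀ ℤ) →ₗ[ℤ] M}
    (h : ∀ x, f (single x 1) = g (single x 1)) : f = g :=
  Finsupp.lhom_ext' fun x => LinearMap.ext_ring (h x)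

section prism
variable {H : Type} [Group H] {α β : Type} [MulAction H α] [MulAction H β]

/-- the prism operator on lists -/
noncomputable def Cols_pr (g : H) : List α → Ch α
  | [] => 0
  | a :: l => single (g • a :: a :: l) 1 - cone (g • a) (Cols_pr g l)

/-- the prism operator on chains -/
noncomputable def Cols_prc (g : H) : Ch α →ₗ[ℤ] Ch α := Finsupp.linearCombination ℤ (Cols_pr g)

theorem Cols_prc_single (g : H) (l : List α) : Cols_prc g (single l 1) = Cols_pr g l := by
  simp [Cols_prc]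

theorem Cols_aL_single (g : H) (l : List α) (n : ℤ) :
    aL g (single l n : Ch α) = single (l.map (g • ·)) n := by
  simp [aL]

theorem Cols_prc_cone (g : H) (a : α) (c : Ch α) :
    Cols_prc g (cone a c) = cone (g • a) (cone a c) - cone (g • a) (Cols_prc g c) := by
  have h : (Cols_prc g) ∘ₗ (cone a) =
      (cone (g • a)) ∘ₗ (cone a) - (cone (g • a)) ∘ₗ (Cols_prc g) := by
    apply Cols_ext
    intro l
    simp only [LinearMap.comp_apply, LinearMap.sub_apply, cone_single, Cols_prc_single]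
    rfl
  exact LinearMap.congr_fun h c

theorem Cols_prism (g : H) (l : List α) :
    bd (Cols_pr g l) + Cols_prc g (bdL l) = single l 1 - single (l.map (g • ·)) 1 := by
  induction l with
  | nil =>
    rw [bdL_nil, map_zero, List.map_nil, sub_self, add_zero]
    exact map_zero bd
  | cons a l ih =>
    have h1 : Cols_pr g (a :: l) = single (g • a :: a :: l) 1 - cone (g • a) (Cols_pr g l) := rfl
    have h2 : cone (g • a) (bd (Cols_pr g l)) + cone (g • a) (Cols_prc g (bdL l)) =
        cone (g • a) (single l 1) - cone (g • a) (single (l.map (g • ·)) 1) := by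
      rw [← map_add, ih, map_sub]
    rw [h1, map_sub, bd_single, one_smul, bdL_cons, bd_cone, bdL_cons, map_sub (Cols_prc g),
      Cols_prc_cone, Cols_prc_single, map_sub (cone (g • a)), List.map_cons]
    rw [cone_single (g • a) (l.map (g • ·))] at h2
    have h3 : cone (g • a) (bd (Cols_pr g l)) = cone (g • a) (single l 1) -
        single (g • a :: l.map (g • ·)) 1 - cone (g • a) (Cols_prc g (bdL l)) := by
      rw [← h2]
      abel
    rw [h3]
    abel

theorem Cols_prism_c (g : H) (c : Ch α) : bd (Cols_prc g c) + Cols_prc g (bd c) = c - aL g c := by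
  have h : bd ∘ₗ (Cols_prc g) + (Cols_prc g) ∘ₗ bd = LinearMap.id - (aL g : Ch α →ₗ[ℤ] Ch α) := by
    apply Cols_ext
    intro l
    simp only [LinearMap.comp_apply, LinearMap.sub_apply, LinearMap.add_apply, LinearMap.id_apply,
      Cols_prc_single, Cols_aL_single, bd_single, one_smul]
    exact Cols_prism g l
  exact LinearMap.congr_fun h c

theorem Cols_aL_cone (g : H) (a : α) (c : Ch α) : aL g (cone a c) = cone (g • a) (aL g c) := by
  have h : (aL g) ∘ₗ (cone a) = (cone (g • a)) ∘ₗ (aL g : Ch α →ₗ[ℤ] Ch α) := by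
    apply Cols_ext
    intro l
    simp only [LinearMap.comp_apply, cone_single, Cols_aL_single, List.map_cons]
  exact LinearMap.congr_fun h c

theorem Cols_pr_conj (n g : H) (l : List α) :
    Cols_pr (n * g * n⁻¹) (l.map (n • ·)) = aL n (Cols_pr g l) := by
  induction l with
  | nil => exact (map_zero (aL n)).symm
  | cons a l ih =>
    have h1 : Cols_pr g (a :: l) = single (g • a :: a :: l) 1 - cone (g • a) (Cols_pr g l) := rfl
    have h2 : Cols_pr (n * g * n⁻¹) ((a :: l).map (n • ·)) =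
        single ((n * g * n⁻¹) • (n • a) :: (n • a) :: l.map (n • ·)) 1 -
        cone ((n * g * n⁻¹) • (n • a)) (Cols_pr (n * g * n⁻¹) (l.map (n • ·))) := rfl
    have h3 : (n * g * n⁻¹) • (n • a) = n • (g • a) := by
      rw [smul_smul, smul_smul, inv_mul_cancel_right]
    rw [h1, h2, ih, h3, map_sub, Cols_aL_single, Cols_aL_cone]
    rfl

theorem Cols_pr_len (g : H) (l : List α) :
    Cols_pr g l ∈ Sup {l' : List α | l'.length = l.length + 1} := by
  induction l with
  | nil => exact Submodule.zero_mem _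
  | cons a l ih =>
    refine Submodule.sub_mem _ (single_mem_Sup ?_ 1) (cone_mem_Sup (g • a) ?_ ih)
    · rfl
    · intro l' hl'
      show (g • a :: l').length = (a :: l).length + 1
      rw [List.length_cons, List.length_cons, hl']

/-- inclusion of a column -/
noncomputable def Cols_in (α : Type) (s : List β) : Ch α →ₗ[ℤ] Ch2 β α :=
  Finsupp.lmapDomain ℤ ℤ (fun l => (s, l))

theorem Cols_in_single (s : List β) (l : List α) (n : ℤ) :
    Cols_in α s (single l n) = single (s, l) n := by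
  simp [Cols_in]

theorem Cols_d2_single (s : List β) (l : List α) :
    d2 (single (s, l) 1 : Ch2 β α) = Cols_in α s (bdL l) := by
  unfold d2
  rw [Finsupp.linearCombination_single, one_smul]
  rfl

theorem Cols_d2_in (s : List β) (c : Ch α) : d2 (Cols_in α s c) = Cols_in α s (bd c) := by
  have h : d2 ∘ₗ (Cols_in α s) = (Cols_in α s) ∘ₗ bd := by
    apply Cols_ext
    intro l
    simp only [LinearMap.comp_apply, Cols_in_single, Cols_d2_single, bd_single, one_smul]
  exact LinearMap.congr_fun h c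

theorem Cols_aL2_single (g : H) (s : List β) (l : List α) (n : ℤ) :
    aL2 g (single (s, l) n : Ch2 β α) = single (s.map (g • ·), l.map (g • ·)) n := by
  simp [aL2]

theorem Cols_aL2_in (g : H) (s : List β) (c : Ch α) :
    aL2 g (Cols_in α s c) = Cols_in α (s.map (g • ·)) (aL g c) := by
  have h : (aL2 g) ∘ₗ (Cols_in α s) = (Cols_in α (s.map (g • ·))) ∘ₗ (aL g) := by
    apply Cols_ext
    intro l
    simp only [LinearMap.comp_apply, Cols_in_single, Cols_aL2_single, Cols_aL_single]
  exact LinearMap.congr_fun h c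

/-- the prism operator on the columns -/
noncomputable def Cols_P (α : Type) [MulAction H α] (θ' : List β → H) : Ch2 β α →ₗ[ℤ] Ch2 β α :=
  Finsupp.linearCombination ℤ (fun x => Cols_in α x.1 (Cols_pr (θ' x.1) x.2))

omit [MulAction H β] in
theorem Cols_P_single (θ' : List β → H) (s : List β) (l : List α) :
    Cols_P α θ' (single (s, l) 1) = Cols_in α s (Cols_pr (θ' s) l) := by
  unfold Cols_P
  rw [Finsupp.linearCombination_single, one_smul]

omit [MulAction H β] in
theorem Cols_P_in (θ' : List β → H) (s : List β) (c : Ch α) :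
    Cols_P α θ' (Cols_in α s c) = Cols_in α s (Cols_prc (θ' s) c) := by
  have h : (Cols_P α θ') ∘ₗ (Cols_in α s) = (Cols_in α s) ∘ₗ (Cols_prc (θ' s)) := by
    apply Cols_ext
    intro l
    simp only [LinearMap.comp_apply, Cols_in_single, Cols_P_single, Cols_prc_single]
  exact LinearMap.congr_fun h c

/-- apply `θ' s` to the second list -/
noncomputable def Cols_T (α : Type) [MulAction H α] (θ' : List β → H) : Ch2 β α →ₗ[ℤ] Ch2 β α :=
  Finsupp.lmapDomain ℤ ℤ (fun x => (x.1, x.2.map (θ' x.1 • ·)))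

omit [MulAction H β] in
theorem Cols_T_single (θ' : List β → H) (s : List β) (l : List α) (n : ℤ) :
    Cols_T α θ' (single (s, l) n) = single (s, l.map (θ' s • ·)) n := by
  simp [Cols_T]

theorem Cols_homotopy (θ' : List β → H) (c : Ch2 β α) :
    d2 (Cols_P α θ' c) + Cols_P α θ' (d2 c) = c - Cols_T α θ' c := by
  have h : d2 ∘ₗ (Cols_P α θ') + (Cols_P α θ') ∘ₗ d2 = LinearMap.id - Cols_T α θ' := by
    apply Cols_ext
    rintro ⟨s, l⟩
    simp only [LinearMap.comp_apply, LinearMap.sub_apply, LinearMap.add_apply, LinearMap.id_apply]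
    rw [Cols_P_single, Cols_d2_in, Cols_d2_single, Cols_P_in, Cols_T_single, ← map_add,
      Cols_prism, map_sub, Cols_in_single, Cols_in_single]
  exact LinearMap.congr_fun h c

theorem Cols_P_equi (θ' : List β → H) (n : H)
    (h : ∀ s : List β, θ' (s.map (n • ·)) = n * θ' s * n⁻¹) (c : Ch2 β α) :
    Cols_P α θ' (aL2 n c) = aL2 n (Cols_P α θ' c) := by
  have h : (Cols_P α θ') ∘ₗ (aL2 n) = (aL2 n) ∘ₗ (Cols_P α θ') := by
    apply Cols_ext
    rintro ⟨s, l⟩
    simp only [LinearMap.comp_apply]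
    rw [Cols_aL2_single, Cols_P_single, Cols_P_single, h s, Cols_pr_conj, Cols_aL2_in]
  exact LinearMap.congr_fun h c

theorem Cols_P_KL2 (N : Subgroup H) (θ' : List β → H)
    (h : ∀ n ∈ N, ∀ s : List β, θ' (s.map (n • ·)) = n * θ' s * n⁻¹) {c : Ch2 β α}
    (hc : c ∈ KL2 N β α) : Cols_P α θ' c ∈ KL2 N β α := by
  unfold KL2 at hc
  induction hc using Submodule.span_induction with
  | mem x hx =>
    obtain ⟨n, hn, y, rfl⟩ := hx
    rw [map_sub, Cols_P_equi θ' n (h n hn)]
    exact Submodule.subset_span ⟨n, hn, _, rfl⟩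
  | zero => rw [map_zero]; exact Submodule.zero_mem _
  | add x y _ _ hx hy => rw [map_add]; exact Submodule.add_mem _ hx hy
  | smul r x _ hx => rw [map_smul]; exact Submodule.smul_mem _ _ hx

end prism

theorem cols {H : Type} [Group H] (N : Subgroup H) [N.Normal] {α β : Type} [MulAction H α]
    [MulAction H β] (S : Set (List β)) (k : ℕ) (τ : H) (θ : List β → H)
    (hu : UData N β S k τ θ) (p q : ℕ) (x : Ch2 β α) (hx : x ∈ Sup2 S α (p + 1) (q + 1))
    (hd : q ≠ 0 → d2 x ∈ KL2 N β α) :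
    ∃ y ∈ Sup2 S α (p + 1) (q + 2), aL2 τ x - x - d2 y ∈ KL2 N β α := by
  classical
  obtain ⟨θ', hθ1, hθ2⟩ : ∃ θ' : List β → H, (∀ s ∈ S, s ≠ [] → θ' s = θ s) ∧
      ∀ n ∈ N, ∀ s : List β, θ' (s.map (n • ·)) = n * θ' s * n⁻¹ := by
    refine ⟨fun s => if s ∈ S ∧ s ≠ [] then θ s else 1, ?_, ?_⟩
    · intro s hs hs0
      exact if_pos ⟨hs, hs0⟩
    · intro n hn s
      have h0 : s.map (n • ·) ≠ [] ↔ s ≠ [] := by
        rw [ne_eq, ne_eq, List.map_eq_nil_iff]
      have h1 : s.map (n • ·) ∈ S ↔ s ∈ S := by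
        constructor
        · intro h2
          have h3 := hu.inv n⁻¹ _ h2
          rw [List.map_map] at h3
          have h4 : ((n⁻¹ • ·) ∘ (n • ·) : β → β) = id := by
            funext b
            simp
          rwa [h4, List.map_id] at h3
        · exact hu.inv n s
      show (if s.map (n • ·) ∈ S ∧ s.map (n • ·) ≠ [] then θ (s.map (n • ·)) else 1) =
        n * (if s ∈ S ∧ s ≠ [] then θ s else 1) * n⁻¹
      have h3 := and_congr h1 h0
      by_cases h2 : s ∈ S ∧ s ≠ []
      · rw [if_pos (h3.mpr h2), if_pos h2]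
        exact hu.equi s h2.1 h2.2 n hn
      · rw [if_neg (fun h => h2 (h3.mp h)), if_neg h2, mul_one, mul_inv_cancel]
  have hT : aL2 τ x - Cols_T α θ' x ∈ KL2 N β α := by
    have h1 : (aL2 τ - Cols_T α θ' : Ch2 β α →ₗ[ℤ] Ch2 β α) x ∈ KL2 N β α := by
      refine Cols_supp _ _ ?_ hx
      rintro ⟨s, l⟩ ⟨⟨hs1, hs2⟩, hl⟩
      have hs0 : s ≠ [] := by
        intro h0
        have hs3 : s.length = p + 1 := hs2
        rw [h0] at hs3
        simp at hs3
      have hc := hu.coset s hs1 hs0
      have hf := hu.fix s hs1 hs0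
      rw [LinearMap.sub_apply, Cols_T_single, hθ1 s hs1 hs0, ← neg_sub]
      refine Submodule.neg_mem _ (Submodule.subset_span ⟨_, hc, aL2 τ (single (s, l) 1), ?_⟩)
      congr 1
      rw [Cols_aL2_single, Cols_aL2_single, List.map_map, List.map_map]
      have h4 : ∀ {γ : Type} [MulAction H γ], ((θ s * τ⁻¹) • · : γ → γ) ∘ (τ • ·) = (θ s • ·) := by
        intro γ _
        funext b
        show (θ s * τ⁻¹) • (τ • b) = θ s • b
        rw [smul_smul, inv_mul_cancel_right]
      rw [h4, h4, hf]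
    exact h1
  have hPd : Cols_P α θ' (d2 x) ∈ KL2 N β α := by
    by_cases hq : q = 0
    · have h1 : (Cols_P α θ' ∘ₗ d2) x ∈ (⊥ : Submodule ℤ (Ch2 β α)) := by
        refine Cols_supp _ _ ?_ hx
        rintro ⟨s, l⟩ ⟨_, hl⟩
        have hl2 : l.length = 1 := by
          rw [hq] at hl
          exact hl
        obtain ⟨a, rfl⟩ := List.length_eq_one_iff.mp hl2
        rw [Submodule.mem_bot, LinearMap.comp_apply, Cols_d2_single, Cols_P_in, bdL_cons, bdL_nil,
          map_zero, sub_zero, Cols_prc_single]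
        exact map_zero _
      rw [Submodule.mem_bot] at h1
      have h2 : Cols_P α θ' (d2 x) = 0 := h1
      rw [h2]
      exact Submodule.zero_mem _
    · exact Cols_P_KL2 N θ' hθ2 (hd hq)
  have hP : Cols_P α θ' x ∈ Sup2 S α (p + 1) (q + 2) := by
    refine Cols_supp _ _ ?_ hx
    rintro ⟨s, l⟩ ⟨⟨hs1, hs2⟩, hl⟩
    rw [Cols_P_single]
    refine Cols_supp (Cols_in α s) _ ?_ (Cols_pr_len (θ' s) l)
    intro l' hl'
    rw [Cols_in_single]
    refine Finsupp.single_mem_supported ℤ 1 ⟨⟨hs1, hs2⟩, ?_⟩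
    have h1 : l'.length = l.length + 1 := hl'
    have h2 : l.length = q + 1 := hl
    show l'.length = q + 2
    omega
  refine ⟨-Cols_P α θ' x, Submodule.neg_mem _ hP, ?_⟩
  have h1 := Cols_homotopy θ' x
  have h2 : aL2 τ x - x - d2 (-Cols_P α θ' x) = (aL2 τ x - Cols_T α θ' x) -
      Cols_P α θ' (d2 x) := by
    rw [map_neg, sub_neg_eq_add]
    have h3 : d2 (Cols_P α θ' x) = x - Cols_T α θ' x - Cols_P α θ' (d2 x) := by
      rw [← h1]
      abel
    rw [h3]
    abel
  rw [h2]
  exact Submodule.sub_mem _ hT hPd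

end Tor
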