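import Mathlib
import Pool.Agent.Lib.MP_05cdf2_gt.D.DDef

/-! MP_05cdf2_gt, stream D, job Rows: exactness of the rows of the double complex modulo `N`.

Notation: `β`-lists `s` in the first place, `α`-lists `l` (nonempty) in the second place. Choose `ν : α → N` with
`ν (n • a) = n * ν a` for `n ∈ N` (possible because `N` acts freely on `α`: choose a representative `r` of every
`N`-orbit (`Quotient.out` for `MulAction.orbitRel N α`) and let `ν a` be the element with `ν a • r = a`).
Define the normalisation `σ : Ch2 β α → Ch2 β α`, `σ (s, a :: l) = (ν a)⁻¹ • (s, a :: l)`, `σ (s, []) = 0` (a map on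
basis elements, `Finsupp.linearCombination`). Then
(1) `σ (aL2 n c) = σ c` for `n ∈ N` (for all `c`; both sides are `0` on pairs with an empty second list), so `σ = 0` on
    `KL2 N β α`;
(2) `σ c - c ∈ KL2 N β α` for `c` supported on pairs with nonempty second list;
(3) `σ (d1 c) = d1 (σ c)` (the second list is not changed by `d1`; `bd_map` for the action on the first list);
(4) `σ` preserves `Sup2 S α p (q+1)`.
Let `x` be as in the statement. `d1 (σ x) = σ (d1 x) = 0` by (1), (3). For a fixed second list `l` the part of `σ x`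
with second list `l` is `z_l ⊗ l`, `z_l ∈ Sup (Len S p)`, `bd z_l = 0`, so `z_l = bd w_l`; `y = ∑ w_l ⊗ l` (finite sum
over the second lists in the support of `σ x`). `d1 y = σ x ≡ x`.
(Useful: for fixed `l` the maps `Ch β → Ch2 β α`, `c ↦ mapDomain (·, l) c` and the component map
`Ch2 β α → Ch β`, `comapDomain (·, l)`; `d1` commutes with both.)
-/

set_option autoImplicit false

namespace Tor
open Finsupp

section Rows_aux
variable {H : Type} [Group H] {α β : Type} [MulAction H α] [MulAction H β]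

private theorem Rows_ext {M : Type} [AddCommGroup M] {f g : Ch2 β α →ₗ[ℤ] M}
    (h : ∀ s l, f (single (s, l) 1) = g (single (s, l) 1)) : f = g := by
  refine Finsupp.lhom_ext' fun x => ?_
  refine LinearMap.ext_ring ?_
  exact h x.1 x.2

/-- insertion of a second list -/
private noncomputable def Rows_ins (l : List α) : Ch β →ₗ[ℤ] Ch2 β α :=
  Finsupp.lmapDomain ℤ ℤ (fun s => (s, l))

private theorem Rows_inj (l : List α) : Function.Injective (fun s : List β => (s, l)) :=
  fun _ _ h => (Prod.mk.inj h).1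

private theorem Rows_ins_single (l : List α) (s : List β) (a : ℤ) :
    Rows_ins l (single s a) = (single (s, l) a : Ch2 β α) := by
  simp [Rows_ins]

/-- the component with given second list -/
private noncomputable def Rows_pr (l : List α) : Ch2 β α →ₗ[ℤ] Ch β :=
  Finsupp.lcomapDomain (fun s : List β => (s, l)) (Rows_inj l)

private theorem Rows_pr_apply (l : List α) (c : Ch2 β α) (s : List β) :
    Rows_pr l c s = c (s, l) := rfl

private theorem Rows_d1_single (s : List β) (l : List α) :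
    d1 (single (s, l) 1 : Ch2 β α) = Rows_ins l (bdL s) := by
  unfold d1
  rw [Finsupp.linearCombination_single, one_smul]
  rfl

private theorem Rows_d1_ins (l : List α) (c : Ch β) :
    d1 (Rows_ins l c : Ch2 β α) = Rows_ins l (bd c) := by
  have : (d1 : Ch2 β α →ₗ[ℤ] Ch2 β α) ∘ₗ Rows_ins l = Rows_ins l ∘ₗ bd := by
    apply Ch.ext_lin
    intro s
    simp only [LinearMap.comp_apply, Rows_ins_single, Rows_d1_single, bd_single, one_smul]
  exact LinearMap.congr_fun this c

private theorem Rows_pr_ins_self (l : List α) (c : Ch β) : Rows_pr l (Rows_ins l c : Ch2 β α) = c := by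
  ext s
  rw [Rows_pr_apply]
  exact mapDomain_apply (Rows_inj l) c s

private theorem Rows_pr_ins_ne {l l' : List α} (h : l ≠ l') (c : Ch β) :
    Rows_pr l (Rows_ins l' c : Ch2 β α) = 0 := by
  ext s
  rw [Rows_pr_apply]
  refine mapDomain_of_notMem_range c _ ?_
  rintro ⟨s', hs'⟩
  exact h (Prod.mk.inj hs').2.symm

private theorem Rows_pr_d1 (l : List α) (c : Ch2 β α) :
    Rows_pr l (d1 c) = bd (Rows_pr l c) := by
  have : Rows_pr l ∘ₗ (d1 : Ch2 β α →ₗ[ℤ] Ch2 β α) = bd ∘ₗ Rows_pr l := by
    apply Rows_ext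
    intro s l'
    simp only [LinearMap.comp_apply, Rows_d1_single]
    rw [← Rows_ins_single l' s 1]
    by_cases h : l = l'
    · subst h
      rw [Rows_pr_ins_self, Rows_pr_ins_self, bd_single, one_smul]
    · rw [Rows_pr_ins_ne h, Rows_pr_ins_ne h, map_zero]
  exact LinearMap.congr_fun this c

open Classical in
private theorem Rows_decomp (c : Ch2 β α) :
    ∑ l ∈ (Finset.image Prod.snd c.support), Rows_ins l (Rows_pr l c) = c := by
  ext ⟨s, l'⟩
  rw [Finsupp.finsetSum_apply]
  have h1 : ∀ l, (Rows_ins l (Rows_pr l c) : Ch2 β α) (s, l') =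
      if l = l' then c (s, l') else 0 := by
    intro l
    rw [← Rows_pr_apply l' (Rows_ins l (Rows_pr l c)) s]
    split_ifs with h
    · subst h
      rw [Rows_pr_ins_self, Rows_pr_apply]
    · rw [Rows_pr_ins_ne (fun h' => h h'.symm)]
      rfl
  rw [Finset.sum_congr rfl (fun l _ => h1 l), Finset.sum_ite_eq']
  split_ifs with h
  · rfl
  · by_contra hne
    apply h
    rw [Finset.mem_image]
    exact ⟨(s, l'), by rw [Finsupp.mem_support_iff]; exact fun h0 => hne h0.symm, rfl⟩

private theorem Rows_solve (S : Set (List β)) (p q : ℕ)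
    (hex : ∀ z ∈ Sup (Len S p), bd z = 0 → ∃ w ∈ Sup (Len S (p + 1)), bd w = z)
    (z : Ch2 β α) (hz : z ∈ Sup2 S α p q) (hd : d1 z = 0) :
    ∃ y ∈ Sup2 S α (p + 1) q, d1 y = z := by
  classical
  have h1 : ∀ l : List α, ∃ w ∈ Sup (Len S (p + 1)), bd w = Rows_pr l z := by
    intro l
    apply hex
    · rw [Finsupp.mem_supported]
      intro s hs
      have hs' : z (s, l) ≠ 0 := by
        have := Finsupp.mem_support_iff.1 hs
        rwa [Rows_pr_apply] at this
      exact ((Finsupp.mem_supported ℤ z).1 hz (Finsupp.mem_support_iff.2 hs')).1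
    · rw [← Rows_pr_d1, hd, map_zero]
  choose w hw hbw using h1
  refine ⟨∑ l ∈ (Finset.image Prod.snd z.support), Rows_ins l (w l), ?_, ?_⟩
  · refine Submodule.sum_mem _ fun l hl => ?_
    rw [Finset.mem_image] at hl
    obtain ⟨x, hx, rfl⟩ := hl
    have hlen : x.2.length = q := ((Finsupp.mem_supported ℤ z).1 hz hx).2
    refine map_Sup (Rows_ins x.2) (Sup2 S α (p + 1) q) ?_ (hw x.2)
    intro s hs
    rw [Rows_ins_single]
    exact Finsupp.single_mem_supported ℤ 1 ⟨hs, hlen⟩
  · rw [map_sum]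
    calc ∑ l ∈ (Finset.image Prod.snd z.support), d1 (Rows_ins l (w l))
        = ∑ l ∈ (Finset.image Prod.snd z.support), Rows_ins l (Rows_pr l z) := by
          refine Finset.sum_congr rfl fun l _ => ?_
          rw [Rows_d1_ins, hbw]
      _ = z := Rows_decomp z

private theorem Rows_aL2_single (h : H) (s : List β) (l : List α) (a : ℤ) :
    aL2 h (single (s, l) a) = single (s.map (h • ·), l.map (h • ·)) a := by
  simp [aL2]

/-- choice of a section -/
private theorem Rows_nu (N : Subgroup H) (hfree : ∀ n ∈ N, ∀ a : α, n • a = a → n = 1) :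
    ∃ ν : α → H, (∀ a, ν a ∈ N) ∧ ∀ n ∈ N, ∀ a, ν (n • a) = n * ν a := by
  classical
  let r : Setoid α := MulAction.orbitRel N α
  have hrep : ∀ a : α, ∃ n : H, n ∈ N ∧ n • (Quotient.out (Quotient.mk r a)) = a := by
    intro a
    have h1 : r (Quotient.out (Quotient.mk r a)) a := Quotient.mk_out a
    have h2 : r a (Quotient.out (Quotient.mk r a)) := r.symm h1
    obtain ⟨n, hn⟩ := (MulAction.orbitRel_apply.1 h2 : a ∈ MulAction.orbit N _)
    exact ⟨n.1, n.2, hn⟩
  choose ν hνN hν using hrep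
  refine ⟨ν, hνN, fun n hn a => ?_⟩
  have hq : Quotient.mk r (n • a) = Quotient.mk r a := by
    apply Quotient.sound
    exact MulAction.orbitRel_apply.2 ⟨⟨n, hn⟩, rfl⟩
  have h1 := hν (n • a)
  rw [hq] at h1
  have h2 := hν a
  have h3 : ((n * ν a)⁻¹ * ν (n • a)) • (Quotient.out (Quotient.mk r a)) =
      Quotient.out (Quotient.mk r a) := by
    rw [mul_smul, h1, inv_smul_eq_iff, mul_smul, h2]
  have h4 := hfree _ (N.mul_mem (N.inv_mem (N.mul_mem hn (hνN a))) (hνN (n • a))) _ h3
  have h5 : ν (n • a) = (n * ν a) * ((n * ν a)⁻¹ * ν (n • a)) := by group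
  rw [h5, h4, mul_one]

/-- the normalisation on basis elements -/
private noncomputable def Rows_sg (ν : α → H) (s : List β) : List α → Ch2 β α
  | [] => 0
  | a :: l => single (s.map ((ν a)⁻¹ • ·), (a :: l).map ((ν a)⁻¹ • ·)) 1

/-- the normalisation -/
private noncomputable def Rows_s (ν : α → H) : Ch2 β α →ₗ[ℤ] Ch2 β α :=
  Finsupp.linearCombination ℤ (fun x => Rows_sg ν x.1 x.2)

private theorem Rows_s_single (ν : α → H) (s : List β) (l : List α) :
    Rows_s ν (single (s, l) 1) = Rows_sg ν s l := by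
  unfold Rows_s
  rw [Finsupp.linearCombination_single, one_smul]

private theorem Rows_s_inv (N : Subgroup H) (ν : α → H) (hν : ∀ n ∈ N, ∀ a, ν (n • a) = n * ν a)
    {n : H} (hn : n ∈ N) (c : Ch2 β α) : Rows_s ν (aL2 n c) = Rows_s ν c := by
  have : Rows_s ν ∘ₗ (aL2 n : Ch2 β α →ₗ[ℤ] Ch2 β α) = Rows_s ν := by
    apply Rows_ext
    intro s l
    simp only [LinearMap.comp_apply, Rows_aL2_single, Rows_s_single]
    cases l with
    | nil => rfl
    | cons a l =>
      simp only [List.map_cons, Rows_sg, List.map_map]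
      have e : ∀ {γ : Type} [MulAction H γ], (fun b : γ => (ν (n • a))⁻¹ • b) ∘ (fun b : γ => n • b)
          = fun b : γ => (ν a)⁻¹ • b := by
        intro γ _
        funext b
        simp only [Function.comp_apply, hν n hn a, ← mul_smul]
        congr 1
        group
      rw [e, e]
      congr 3
      have := congrFun (@e α _) a
      exact this
  exact LinearMap.congr_fun this c

private theorem Rows_s_KL (N : Subgroup H) (ν : α → H) (hν : ∀ n ∈ N, ∀ a, ν (n • a) = n * ν a)
    {c : Ch2 β α} (hc : c ∈ KL2 N β α) : Rows_s ν c = 0 := by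
  have h : KL2 N β α ≤ LinearMap.ker (Rows_s ν) := by
    unfold KL2
    rw [Submodule.span_le]
    rintro c ⟨n, hn, x, rfl⟩
    rw [SetLike.mem_coe, LinearMap.mem_ker, map_sub, Rows_s_inv N ν hν hn, sub_self]
  exact h hc

private theorem Rows_s_sub (N : Subgroup H) (ν : α → H) (hN : ∀ a, ν a ∈ N) (S : Set (List β))
    (p q : ℕ) {c : Ch2 β α} (hc : c ∈ Sup2 S α p (q + 1)) : Rows_s ν c - c ∈ KL2 N β α := by
  rw [← Finsupp.sum_single c, Finsupp.sum, map_sum, ← Finset.sum_sub_distrib]
  refine Submodule.sum_mem _ fun x hx => ?_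
  have hlen : x.2.length = q + 1 := ((Finsupp.mem_supported ℤ c).1 hc hx).2
  obtain ⟨s, l⟩ := x
  have e : (single (s, l) (c (s, l)) : Ch2 β α) = c (s, l) • single (s, l) 1 := by simp
  rw [e, map_smul, ← smul_sub]
  refine Submodule.smul_mem _ _ ?_
  rw [Rows_s_single]
  cases l with
  | nil => simp at hlen
  | cons a l =>
    refine Submodule.subset_span ⟨(ν a)⁻¹, N.inv_mem (hN a), single (s, a :: l) 1, ?_⟩
    rw [Rows_aL2_single]
    rfl

private theorem Rows_s_ins_nil (ν : α → H) (c : Ch β) :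
    Rows_s ν (Rows_ins ([] : List α) c) = 0 := by
  have : Rows_s ν ∘ₗ Rows_ins ([] : List α) = (0 : Ch β →ₗ[ℤ] Ch2 β α) := by
    apply Ch.ext_lin
    intro s
    simp only [LinearMap.comp_apply, Rows_ins_single, Rows_s_single]
    rfl
  exact LinearMap.congr_fun this c

private theorem Rows_s_ins_cons (ν : α → H) (a : α) (l : List α) (c : Ch β) :
    Rows_s ν (Rows_ins (a :: l) c) = Rows_ins ((a :: l).map ((ν a)⁻¹ • ·))
      (mapDomain (List.map ((ν a)⁻¹ • ·)) c) := by
  have : Rows_s ν ∘ₗ Rows_ins (a :: l) = (Rows_ins ((a :: l).map ((ν a)⁻¹ • ·))) ∘ₗ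
      (Finsupp.lmapDomain ℤ ℤ (List.map ((ν a)⁻¹ • ·)) : Ch β →ₗ[ℤ] Ch β) := by
    apply Ch.ext_lin
    intro s
    simp only [LinearMap.comp_apply, Rows_ins_single, Rows_s_single, lmapDomain_apply,
      mapDomain_single]
    rfl
  exact LinearMap.congr_fun this c

private theorem Rows_s_d1 (ν : α → H) (c : Ch2 β α) : Rows_s ν (d1 c) = d1 (Rows_s ν c) := by
  have : Rows_s ν ∘ₗ (d1 : Ch2 β α →ₗ[ℤ] Ch2 β α) = d1 ∘ₗ Rows_s ν := by
    apply Rows_ext
    intro s l
    simp only [LinearMap.comp_apply, Rows_d1_single, Rows_s_single]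
    cases l with
    | nil =>
      rw [Rows_s_ins_nil]
      simp only [Rows_sg, map_zero]
    | cons a l =>
      rw [Rows_s_ins_cons]
      simp only [Rows_sg]
      rw [Rows_d1_single]
      congr 1
      have := bd_map (fun b : β => (ν a)⁻¹ • b) (single s 1)
      rw [mapDomain_single, bd_single, bd_single, one_smul, one_smul] at this
      exact this.symm
  exact LinearMap.congr_fun this c

private theorem Rows_s_mem (ν : α → H) (S : Set (List β))
    (hinv : ∀ (h : H) (l : List β), l ∈ S → l.map (h • ·) ∈ S) (p q : ℕ) {c : Ch2 β α}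
    (hc : c ∈ Sup2 S α p q) : Rows_s ν c ∈ Sup2 S α p q := by
  rw [← Finsupp.sum_single c, Finsupp.sum, map_sum]
  refine Submodule.sum_mem _ fun x hx => ?_
  have hmem := (Finsupp.mem_supported ℤ c).1 hc hx
  obtain ⟨s, l⟩ := x
  have e : (single (s, l) (c (s, l)) : Ch2 β α) = c (s, l) • single (s, l) 1 := by simp
  rw [e, map_smul]
  refine Submodule.smul_mem _ _ ?_
  rw [Rows_s_single]
  cases l with
  | nil => exact Submodule.zero_mem _
  | cons a l =>
    refine Finsupp.single_mem_supported ℤ 1 ⟨⟨hinv _ s hmem.1.1, ?_⟩, ?_⟩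
    · rw [List.length_map]
      exact hmem.1.2
    · rw [List.length_map]
      exact hmem.2

end Rows_aux

theorem rows {H : Type} [Group H] (N : Subgroup H) {α β : Type} [MulAction H α] [MulAction H β]
    (hfree : ∀ n ∈ N, ∀ a : α, n • a = a → n = 1) (S : Set (List β))
    (hinv : ∀ (h : H) (l : List β), l ∈ S → l.map (h • ·) ∈ S) (p : ℕ)
    (hex : ∀ z ∈ Sup (Len S p), bd z = 0 → ∃ w ∈ Sup (Len S (p + 1)), bd w = z) (q : ℕ)
    (x : Ch2 β α) (hx : x ∈ Sup2 S α p (q + 1)) (hd : d1 x ∈ KL2 N β α) :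
    ∃ y ∈ Sup2 S α (p + 1) (q + 1), d1 y - x ∈ KL2 N β α := by
  obtain ⟨ν, hN, hν⟩ := Rows_nu N hfree
  have h0 : d1 (Rows_s ν x) = 0 := by
    rw [← Rows_s_d1]
    exact Rows_s_KL N ν hν hd
  obtain ⟨y, hy, hdy⟩ := Rows_solve S p (q + 1) hex (Rows_s ν x)
    (Rows_s_mem ν S hinv p (q + 1) hx) h0
  refine ⟨y, hy, ?_⟩
  rw [hdy]
  exact Rows_s_sub N ν hN S p q hx

end Tor
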