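import Mathlib
import Pool.Agent.Lib.MP_05cdf2_gt.D.Rows
import Pool.Agent.Lib.MP_05cdf2_gt.D.Cols

/-! MP_05cdf2_gt, stream D, job Chase: the diagram chase, and the case of lists.

Basic facts first: `d1 (d1 x) = 0`, `d2 (d2 x) = 0`, `d1 (d2 x) = d2 (d1 x)`, `aL2 h` commutes with `d1`, `d2`
(`bd_map`); `KL2 N β α` is preserved by `d1`, `d2` and by `aL2 h` for `h ∈ H` (normality); `d1` maps
`Sup2 S α (p+1) q` to `Sup2 S α p q` (`S` closed), `d2` maps `Sup2 S α p (q+1)` to `Sup2 S α p q`; `aL2 h` preserves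
`Sup2 S α p q`. Write `T = aL2 τ - 1`.

`chase`, induction on `q`. Let `x` be as in the statement. `rows` gives `y1 ∈ Sup2 S α (p+1) (q+1)`, `d1 y1 ≡ x`.
Case `q = 0`: `cols` for `y1` gives `v ∈ Sup2 S α (p+1) 2` with `T y1 ≡ d2 v`. Put `y = d1 v`: `T x ≡ T d1 y1 = d1 T y1 ≡
d1 d2 v = d2 y`, `d1 y = 0`.
Case `q + 1`: `u = d2 y1 ∈ Sup2 S α (p+1) (q+1)` satisfies `d1 u = d2 (d1 y1) ≡ d2 x ≡ 0`, `d2 u = 0`. By induction (for
`p + 1`) there is `w ∈ Sup2 S α (p+1) (q+2)`, `T^(q+1) u ≡ d2 w`, `d1 w ≡ 0`. Then `u' = T^(q+1) y1 - w` satisfies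
`d2 u' ≡ 0`, so `cols` gives `v` with `T u' ≡ d2 v`. Put `y = d1 v`:
`T^(q+2) x ≡ d1 T^(q+2) y1 = d1 (T u' + T w) ≡ d1 d2 v + T d1 w ≡ d2 y`.

`unip_list`: apply `chase` with `p = 0`, `q = k` to the image of `c` under `l ↦ ([], l)` (`d1` of it is `0`); the result
`y` is supported on pairs `([], l)`; transport back with `(s, l) ↦ l` (linear, commutes with the action, maps
`KL2` to `KL`, and intertwines `d2` and `bd` on pairs).
-/

set_option autoImplicit false

namespace Tor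
open Finsupp

section chaseAux

variable {H : Type} [Group H] {α β : Type} [MulAction H α] [MulAction H β]

/-- the exterior product of chains -/
private noncomputable def Chase_tn : Ch β →ₗ[ℤ] Ch α →ₗ[ℤ] Ch2 β α :=
  Finsupp.linearCombination ℤ (fun s => Finsupp.lmapDomain ℤ ℤ (fun l => (s, l)))

private lemma Chase_tn_single (s : List β) (l : List α) (a b : ℤ) :
    Chase_tn (single s a) (single l b) = single (s, l) (a * b) := by
  simp [Chase_tn]

private lemma Chase_tn_left (s : List β) (c : Ch α) :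
    Chase_tn (single s 1) c = mapDomain (fun l => (s, l)) c := by
  simp [Chase_tn]

private lemma Chase_tn_right (c : Ch β) (l : List α) :
    Chase_tn c (single l 1) = mapDomain (fun s => (s, l)) c := by
  induction c using Finsupp.induction_linear with
  | zero => simp
  | add a b ha hb => rw [map_add, LinearMap.add_apply, ha, hb, mapDomain_add]
  | single s n => rw [Chase_tn_single, mapDomain_single, mul_one]

private lemma Chase_ext {M : Type} [AddCommGroup M] {f g : Ch2 β α →ₗ[ℤ] M}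
    (h : ∀ s l, f (Chase_tn (single s 1) (single l 1)) = g (Chase_tn (single s 1) (single l 1)))
    (x : Ch2 β α) : f x = g x := by
  have h1 : f = g := by
    refine Finsupp.lhom_ext' fun x => LinearMap.ext_ring ?_
    have h2 := h x.1 x.2
    rw [Chase_tn_single, mul_one] at h2
    exact h2
  rw [h1]

private lemma Chase_biext {M : Type} [AddCommGroup M] {f g : Ch β →ₗ[ℤ] Ch α →ₗ[ℤ] M}
    (h : ∀ s l, f (single s 1) (single l 1) = g (single s 1) (single l 1)) (c : Ch β) (c' : Ch α) :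
    f c c' = g c c' := by
  have h1 : f = g := by
    apply Ch.ext_lin
    intro s
    apply Ch.ext_lin
    intro l
    exact h s l
  rw [h1]

private lemma Chase_d1_single (s : List β) (l : List α) :
    d1 (single (s, l) 1 : Ch2 β α) = mapDomain (fun s => (s, l)) (bdL s) := by
  unfold d1
  rw [Finsupp.linearCombination_single, one_smul]

private lemma Chase_d2_single (s : List β) (l : List α) :
    d2 (single (s, l) 1 : Ch2 β α) = mapDomain (fun l => (s, l)) (bdL l) := by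
  unfold d2
  rw [Finsupp.linearCombination_single, one_smul]

private lemma Chase_d1_tn (c : Ch β) (c' : Ch α) :
    d1 (Chase_tn c c') = Chase_tn (bd c) c' := by
  refine Chase_biext (f := Chase_tn.compr₂ d1) (g := Chase_tn ∘ₗ bd) ?_ c c'
  intro s l
  change d1 (Chase_tn (single s 1) (single l 1)) = Chase_tn (bd (single s 1)) (single l 1)
  rw [Chase_tn_single, mul_one, Chase_d1_single, bd_single, one_smul, Chase_tn_right]

private lemma Chase_d2_tn (c : Ch β) (c' : Ch α) :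
    d2 (Chase_tn c c') = Chase_tn c (bd c') := by
  refine Chase_biext (f := Chase_tn.compr₂ d2) (g := Chase_tn.compl₂ bd) ?_ c c'
  intro s l
  change d2 (Chase_tn (single s 1) (single l 1)) = Chase_tn (single s 1) (bd (single l 1))
  rw [Chase_tn_single, mul_one, Chase_d2_single, bd_single, one_smul, Chase_tn_left]

private lemma Chase_aL2_tn (h : H) (c : Ch β) (c' : Ch α) :
    aL2 h (Chase_tn c c') = Chase_tn (aL h c) (aL h c') := by
  have e1 : ∀ (s : List β) (a : ℤ), aL h (single s a : Ch β) = single (s.map (h • ·)) a := by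
    intro s a
    simp [aL]
  have e2 : ∀ (l : List α) (a : ℤ), aL h (single l a : Ch α) = single (l.map (h • ·)) a := by
    intro l a
    simp [aL]
  have e3 : ∀ (s : List β) (l : List α) (a : ℤ), aL2 h (single (s, l) a : Ch2 β α) =
      single (s.map (h • ·), l.map (h • ·)) a := by
    intro s l a
    simp [aL2]
  induction c using Finsupp.induction_linear with
  | zero => simp only [map_zero, LinearMap.zero_apply]
  | add a b ha hb => rw [map_add, LinearMap.add_apply, map_add, ha, hb, map_add, map_add,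
      LinearMap.add_apply]
  | single s a =>
    induction c' using Finsupp.induction_linear with
    | zero => simp only [map_zero]
    | add a b ha hb => rw [map_add, map_add, ha, hb, map_add, map_add]
    | single l b => rw [Chase_tn_single, e1, e2, e3, Chase_tn_single]

private lemma Chase_d1_d1 (x : Ch2 β α) : d1 (d1 x) = 0 := by
  refine Chase_ext (f := d1 ∘ₗ d1) (g := 0) ?_ x
  intro s l
  change d1 (d1 (Chase_tn (single s 1) (single l 1))) = 0
  rw [Chase_d1_tn, Chase_d1_tn, bd_bd]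
  simp

private lemma Chase_d2_d2 (x : Ch2 β α) : d2 (d2 x) = 0 := by
  refine Chase_ext (f := d2 ∘ₗ d2) (g := 0) ?_ x
  intro s l
  change d2 (d2 (Chase_tn (single s 1) (single l 1))) = 0
  rw [Chase_d2_tn, Chase_d2_tn, bd_bd]
  simp

private lemma Chase_d1_d2 (x : Ch2 β α) : d1 (d2 x) = d2 (d1 x) := by
  refine Chase_ext (f := d1 ∘ₗ d2) (g := d2 ∘ₗ d1) ?_ x
  intro s l
  change d1 (d2 (Chase_tn (single s 1) (single l 1))) = d2 (d1 (Chase_tn (single s 1) (single l 1)))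
  rw [Chase_d2_tn, Chase_d1_tn, Chase_d1_tn, Chase_d2_tn]

private lemma Chase_bd_aL (h : H) (c : Ch α) : bd (aL h c) = aL h (bd c) :=
  bd_map (h • ·) c

private lemma Chase_d1_aL2 (h : H) (x : Ch2 β α) : d1 (aL2 h x) = aL2 h (d1 x) := by
  refine Chase_ext (f := d1 ∘ₗ aL2 h) (g := aL2 h ∘ₗ d1) ?_ x
  intro s l
  change d1 (aL2 h (Chase_tn (single s 1) (single l 1))) =
    aL2 h (d1 (Chase_tn (single s 1) (single l 1)))
  rw [Chase_aL2_tn, Chase_d1_tn, Chase_d1_tn, Chase_aL2_tn, Chase_bd_aL]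

private lemma Chase_d2_aL2 (h : H) (x : Ch2 β α) : d2 (aL2 h x) = aL2 h (d2 x) := by
  refine Chase_ext (f := d2 ∘ₗ aL2 h) (g := aL2 h ∘ₗ d2) ?_ x
  intro s l
  change d2 (aL2 h (Chase_tn (single s 1) (single l 1))) =
    aL2 h (d2 (Chase_tn (single s 1) (single l 1)))
  rw [Chase_aL2_tn, Chase_d2_tn, Chase_d2_tn, Chase_aL2_tn, Chase_bd_aL]

private lemma Chase_aL_mul (g h : H) (c : Ch α) : aL (g * h) c = aL g (aL h c) := by
  have h1 : aL (g * h) = aL g ∘ₗ (aL h : Ch α →ₗ[ℤ] Ch α) := by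
    apply Ch.ext_lin
    intro l
    have e1 : ∀ (h : H) (l : List α), aL h (single l 1 : Ch α) = single (l.map (h • ·)) 1 := by
      intro h l
      simp [aL]
    rw [LinearMap.comp_apply, e1, e1, e1, List.map_map]
    have e2 : (fun x : α => (g * h) • x) = (fun x => g • x) ∘ (fun x => h • x) :=
      funext fun x => mul_smul g h x
    rw [e2]
  rw [h1]
  rfl

private lemma Chase_aL2_mul (g h : H) (x : Ch2 β α) : aL2 (g * h) x = aL2 g (aL2 h x) := by
  refine Chase_ext (f := aL2 (g * h)) (g := aL2 g ∘ₗ aL2 h) ?_ x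
  intro s l
  change aL2 (g * h) (Chase_tn (single s 1) (single l 1)) =
    aL2 g (aL2 h (Chase_tn (single s 1) (single l 1)))
  rw [Chase_aL2_tn, Chase_aL2_tn, Chase_aL2_tn, Chase_aL_mul, Chase_aL_mul]

private lemma Chase_KL2_map (N : Subgroup H) (f : Ch2 β α →ₗ[ℤ] Ch2 β α)
    (hf : ∀ n ∈ N, ∀ x, ∃ n' ∈ N, f (aL2 n x) = aL2 n' (f x)) {c : Ch2 β α}
    (hc : c ∈ KL2 N β α) : f c ∈ KL2 N β α := by
  have h1 : KL2 N β α ≤ (KL2 N β α).comap f := by
    refine Submodule.span_le.2 ?_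
    rintro _ ⟨n, hn, x, rfl⟩
    obtain ⟨n', hn', h2⟩ := hf n hn x
    change f (aL2 n x - x) ∈ KL2 N β α
    rw [map_sub, h2]
    exact Submodule.subset_span ⟨n', hn', f x, rfl⟩
  exact h1 hc

private lemma Chase_KL2_d1 (N : Subgroup H) {c : Ch2 β α} (hc : c ∈ KL2 N β α) :
    d1 c ∈ KL2 N β α :=
  Chase_KL2_map N d1 (fun n hn x => ⟨n, hn, Chase_d1_aL2 n x⟩) hc

private lemma Chase_KL2_d2 (N : Subgroup H) {c : Ch2 β α} (hc : c ∈ KL2 N β α) :
    d2 c ∈ KL2 N β α :=
  Chase_KL2_map N d2 (fun n hn x => ⟨n, hn, Chase_d2_aL2 n x⟩) hc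

private lemma Chase_KL2_T (N : Subgroup H) [N.Normal] (h : H) {c : Ch2 β α}
    (hc : c ∈ KL2 N β α) : (aL2 h - 1 : Module.End ℤ (Ch2 β α)) c ∈ KL2 N β α := by
  have h1 : aL2 h c ∈ KL2 N β α := by
    refine Chase_KL2_map N (aL2 h) (fun n hn x => ⟨h * n * h⁻¹,
      Subgroup.Normal.conj_mem inferInstance n hn h, ?_⟩) hc
    rw [← Chase_aL2_mul, ← Chase_aL2_mul]
    congr 2
    group
  exact Submodule.sub_mem _ h1 hc

private lemma Chase_KL2_Tpow (N : Subgroup H) [N.Normal] (h : H) (n : ℕ) {c : Ch2 β α}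
    (hc : c ∈ KL2 N β α) : ((aL2 h - 1 : Module.End ℤ (Ch2 β α)) ^ n) c ∈ KL2 N β α := by
  induction n with
  | zero => simpa using hc
  | succ n ih =>
    rw [pow_succ', Module.End.mul_apply]
    exact Chase_KL2_T N h ih

private lemma Chase_T_comm (h : H) (f : Ch2 β α →ₗ[ℤ] Ch2 β α)
    (hf : ∀ x, f (aL2 h x) = aL2 h (f x)) (n : ℕ) (x : Ch2 β α) :
    f (((aL2 h - 1 : Module.End ℤ (Ch2 β α)) ^ n) x) =
      ((aL2 h - 1 : Module.End ℤ (Ch2 β α)) ^ n) (f x) := by
  induction n with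
  | zero => simp
  | succ n ih =>
    rw [pow_succ', Module.End.mul_apply, Module.End.mul_apply, ← ih]
    simp only [LinearMap.sub_apply, Module.End.one_apply, map_sub, hf]

private lemma Chase_map_supp {M : Type} [AddCommGroup M] {U : Set (List β × List α)}
    (f : Ch2 β α →ₗ[ℤ] M) (N : Submodule ℤ M) (h : ∀ x ∈ U, f (single x 1) ∈ N) {c : Ch2 β α}
    (hc : c ∈ Finsupp.supported ℤ ℤ U) : f c ∈ N := by
  rw [← Finsupp.sum_single c, Finsupp.sum, map_sum]
  refine N.sum_mem fun l hl => ?_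
  have hlS : l ∈ U := (Finsupp.mem_supported ℤ c).1 hc hl
  have : single l (c l) = c l • (single l 1 : Ch2 β α) := by simp
  rw [this, map_smul]
  exact N.smul_mem _ (h l hlS)

private lemma Chase_Sup_d1 {S : Set (List β)} (hS : Closed S) {p q : ℕ} {x : Ch2 β α}
    (hx : x ∈ Sup2 S α (p + 1) q) : d1 x ∈ Sup2 S α p q := by
  refine Chase_map_supp d1 _ ?_ hx
  rintro ⟨s, l⟩ ⟨⟨h1, h2⟩, h3⟩
  rw [Chase_d1_single, Finsupp.mem_supported]
  intro y hy
  classical
  have hy' := Finsupp.mapDomain_support hy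
  rw [Finset.mem_image] at hy'
  obtain ⟨s', h4, rfl⟩ := hy'
  obtain ⟨h5, h6⟩ := bdL_support s s' h4
  have h2' : s.length = p + 1 := h2
  exact ⟨⟨hS s h1 s' h5, by simp only; omega⟩, h3⟩

private lemma Chase_Sup_d2 {S : Set (List β)} {p q : ℕ} {x : Ch2 β α}
    (hx : x ∈ Sup2 S α p (q + 1)) : d2 x ∈ Sup2 S α p q := by
  refine Chase_map_supp d2 _ ?_ hx
  rintro ⟨s, l⟩ ⟨⟨h1, h2⟩, h3⟩
  rw [Chase_d2_single, Finsupp.mem_supported]
  intro y hy
  classical
  have hy' := Finsupp.mapDomain_support hy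
  rw [Finset.mem_image] at hy'
  obtain ⟨l', h4, rfl⟩ := hy'
  obtain ⟨h5, h6⟩ := bdL_support l l' h4
  have h3' : l.length = q + 1 := h3
  exact ⟨⟨h1, h2⟩, by simp only; omega⟩

private lemma Chase_Sup_aL2 {S : Set (List β)} (hinv : ∀ (h : H) (l : List β), l ∈ S →
    l.map (h • ·) ∈ S) (h : H) {p q : ℕ} {x : Ch2 β α}
    (hx : x ∈ Sup2 S α p q) : aL2 h x ∈ Sup2 S α p q := by
  refine Chase_map_supp (aL2 h) _ ?_ hx
  rintro ⟨s, l⟩ ⟨⟨h1, h2⟩, h3⟩
  have e3 : aL2 h (single (s, l) 1 : Ch2 β α) = single (s.map (h • ·), l.map (h • ·)) 1 := by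
    simp [aL2]
  rw [e3]
  refine Finsupp.single_mem_supported ℤ 1 ⟨⟨hinv h s h1, ?_⟩, ?_⟩
  · simpa using h2
  · simpa using h3

private lemma Chase_Sup_Tpow {S : Set (List β)} (hinv : ∀ (h : H) (l : List β), l ∈ S →
    l.map (h • ·) ∈ S) (h : H) (n : ℕ) {p q : ℕ} {x : Ch2 β α}
    (hx : x ∈ Sup2 S α p q) :
    ((aL2 h - 1 : Module.End ℤ (Ch2 β α)) ^ n) x ∈ Sup2 S α p q := by
  induction n with
  | zero => simpa using hx
  | succ n ih =>
    rw [pow_succ', Module.End.mul_apply]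
    exact Submodule.sub_mem _ (Chase_Sup_aL2 hinv h ih) ih

end chaseAux

theorem chase {H : Type} [Group H] (N : Subgroup H) [N.Normal] {α β : Type} [MulAction H α]
    [MulAction H β] (hfree : ∀ n ∈ N, ∀ a : α, n • a = a → n = 1) (S : Set (List β)) (k : ℕ)
    (τ : H) (θ : List β → H) (hu : UData N β S k τ θ) (q : ℕ) :
    ∀ (p : ℕ), p + q ≤ k → ∀ x ∈ Sup2 S α p (q + 1), d1 x ∈ KL2 N β α →
      (q ≠ 0 → d2 x ∈ KL2 N β α) →
      ∃ y ∈ Sup2 S α p (q + 2), ((aL2 τ - 1) ^ (q + 1)) x - d2 y ∈ KL2 N β α ∧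
        d1 y ∈ KL2 N β α := by
  induction q with
  | zero =>
    intro p hp x hx hd1 _
    obtain ⟨y1, hy1, hy2⟩ := rows N hfree S hu.inv p (hu.exact p (by omega)) 0 x hx hd1
    obtain ⟨v, hv1, hv2⟩ := cols N S k τ θ hu p 0 y1 hy1 (fun h => absurd rfl h)
    refine ⟨d1 v, Chase_Sup_d1 hu.closed hv1, ?_, ?_⟩
    · have h1 := Chase_KL2_T N τ hy2
      have h2 := Chase_KL2_d1 N hv2
      have h3 : ((aL2 τ - 1 : Module.End ℤ (Ch2 β α)) ^ (0 + 1)) x - d2 (d1 v) =
          d1 (aL2 τ y1 - y1 - d2 v) - (aL2 τ - 1 : Module.End ℤ (Ch2 β α)) (d1 y1 - x) := by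
        rw [zero_add, pow_one]
        simp only [LinearMap.sub_apply, Module.End.one_apply, map_sub, Chase_d1_aL2, Chase_d1_d2]
        abel
      rw [h3]
      exact Submodule.sub_mem _ h2 h1
    · rw [Chase_d1_d1]
      exact Submodule.zero_mem _
  | succ q ih =>
    intro p hp x hx hd1 hd2
    obtain ⟨y1, hy1, hy2⟩ := rows N hfree S hu.inv p (hu.exact p (by omega)) (q + 1) x hx hd1
    have hu1 : d2 y1 ∈ Sup2 S α (p + 1) (q + 1) := Chase_Sup_d2 hy1
    have hu2 : d1 (d2 y1) ∈ KL2 N β α := by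
      rw [Chase_d1_d2]
      have h1 := Chase_KL2_d2 N hy2
      have h2 := hd2 (Nat.succ_ne_zero q)
      have h3 : d2 (d1 y1) = d2 (d1 y1 - x) + d2 x := by
        rw [map_sub]
        abel
      rw [h3]
      exact Submodule.add_mem _ h1 h2
    have hu3 : q ≠ 0 → d2 (d2 y1) ∈ KL2 N β α := by
      intro _
      rw [Chase_d2_d2]
      exact Submodule.zero_mem _
    obtain ⟨w, hw1, hw2, hw3⟩ := ih (p + 1) (by omega) (d2 y1) hu1 hu2 hu3
    have hv1 : ((aL2 τ - 1 : Module.End ℤ (Ch2 β α)) ^ (q + 1)) y1 - w ∈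
        Sup2 S α (p + 1) ((q + 1) + 1) :=
      Submodule.sub_mem _ (Chase_Sup_Tpow hu.inv τ (q + 1) hy1) hw1
    have hv2 : q + 1 ≠ 0 →
        d2 (((aL2 τ - 1 : Module.End ℤ (Ch2 β α)) ^ (q + 1)) y1 - w) ∈ KL2 N β α := by
      intro _
      rw [map_sub, Chase_T_comm τ d2 (Chase_d2_aL2 τ)]
      exact hw2
    obtain ⟨v, hv3, hv4⟩ := cols N S k τ θ hu p (q + 1) _ hv1 hv2
    refine ⟨d1 v, Chase_Sup_d1 hu.closed hv3, ?_, ?_⟩
    · have h1 := Chase_KL2_Tpow N τ (q + 1 + 1) hy2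
      have h2 := Chase_KL2_d1 N hv4
      have h3 := Chase_KL2_T N τ hw3
      have h4 : ((aL2 τ - 1 : Module.End ℤ (Ch2 β α)) ^ (q + 1 + 1)) x - d2 (d1 v) =
          d1 (aL2 τ (((aL2 τ - 1 : Module.End ℤ (Ch2 β α)) ^ (q + 1)) y1 - w) -
            (((aL2 τ - 1 : Module.End ℤ (Ch2 β α)) ^ (q + 1)) y1 - w) - d2 v) +
          (aL2 τ - 1 : Module.End ℤ (Ch2 β α)) (d1 w) -
          ((aL2 τ - 1 : Module.End ℤ (Ch2 β α)) ^ (q + 1 + 1)) (d1 y1 - x) := by
        have e1 : ((aL2 τ - 1 : Module.End ℤ (Ch2 β α)) ^ (q + 1 + 1)) (d1 y1) =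
            aL2 τ (d1 (((aL2 τ - 1 : Module.End ℤ (Ch2 β α)) ^ (q + 1)) y1)) -
            d1 (((aL2 τ - 1 : Module.End ℤ (Ch2 β α)) ^ (q + 1)) y1) := by
          rw [pow_succ', Module.End.mul_apply, ← Chase_T_comm τ d1 (Chase_d1_aL2 τ)]
          simp only [LinearMap.sub_apply, Module.End.one_apply]
        rw [map_sub (((aL2 τ - 1 : Module.End ℤ (Ch2 β α)) ^ (q + 1 + 1))) (d1 y1) x, e1]
        simp only [LinearMap.sub_apply, Module.End.one_apply, map_sub, Chase_d1_aL2, Chase_d1_d2]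
        abel
      rw [h4]
      exact Submodule.sub_mem _ (Submodule.add_mem _ h2 h3) h1
    · rw [Chase_d1_d1]
      exact Submodule.zero_mem _

theorem unip_list {H : Type} [Group H] (N : Subgroup H) [N.Normal] {α β : Type} [MulAction H α]
    [MulAction H β] (hfree : ∀ n ∈ N, ∀ a : α, n • a = a → n = 1) (S : Set (List β)) (k : ℕ)
    (τ : H) (θ : List β → H) (hu : UData N β S k τ θ) (c : Ch α)
    (hc : c ∈ Sup (Len Set.univ (k + 1))) (hcyc : k ≠ 0 → bd c ∈ KL N α) :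
    ∃ w ∈ Sup (Len Set.univ (k + 2)), ((aL τ - 1) ^ (k + 1)) c - bd w ∈ KL N α := by
  have hpaL : ∀ (h : H) (x : Ch2 β α), lmapDomain ℤ ℤ Prod.snd (aL2 h x) =
      aL h (lmapDomain ℤ ℤ Prod.snd x) := by
    intro h x
    unfold aL2 aL
    simp only [lmapDomain_apply, ← mapDomain_comp]
    rfl
  have hpd : ∀ x : Ch2 β α, lmapDomain ℤ ℤ Prod.snd (d2 x) =
      bd (lmapDomain ℤ ℤ Prod.snd x) := by
    intro x
    refine Chase_ext (f := lmapDomain ℤ ℤ Prod.snd ∘ₗ d2) (g := bd ∘ₗ lmapDomain ℤ ℤ Prod.snd) ?_ x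
    intro s l
    change lmapDomain ℤ ℤ Prod.snd (d2 (Chase_tn (single s 1) (single l 1))) =
      bd (lmapDomain ℤ ℤ Prod.snd (Chase_tn (single s 1) (single l 1)))
    rw [Chase_tn_single, mul_one, Chase_d2_single, lmapDomain_apply, lmapDomain_apply,
      mapDomain_single, bd_single, one_smul, ← mapDomain_comp]
    exact mapDomain_id
  have hpK : ∀ x ∈ KL2 N β α, lmapDomain ℤ ℤ Prod.snd x ∈ KL N α := by
    have h1 : KL2 N β α ≤ (KL N α).comap (lmapDomain ℤ ℤ Prod.snd) := by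
      refine Submodule.span_le.2 ?_
      rintro _ ⟨n, hn, x, rfl⟩
      change lmapDomain ℤ ℤ Prod.snd (aL2 n x - x) ∈ KL N α
      rw [map_sub, hpaL]
      exact Submodule.subset_span ⟨n, hn, _, rfl⟩
    exact fun x hx => h1 hx
  have hpT : ∀ (n : ℕ) (x : Ch2 β α),
      lmapDomain ℤ ℤ Prod.snd (((aL2 τ - 1 : Module.End ℤ (Ch2 β α)) ^ n) x) =
        ((aL τ - 1 : Module.End ℤ (Ch α)) ^ n) (lmapDomain ℤ ℤ Prod.snd x) := by
    intro n x
    induction n with
    | zero => simp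
    | succ n ih =>
      rw [pow_succ', pow_succ', Module.End.mul_apply, Module.End.mul_apply, ← ih]
      simp only [LinearMap.sub_apply, Module.End.one_apply, map_sub, hpaL]
  -- the inclusion
  have hi : ∀ c : Ch α, Chase_tn (single ([] : List β) 1) c =
      mapDomain (fun l => (([] : List β), l)) c := fun c => Chase_tn_left [] c
  have hiaL : ∀ (h : H) (c : Ch α), aL2 h (Chase_tn (single ([] : List β) 1) c) =
      Chase_tn (single ([] : List β) 1) (aL h c) := by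
    intro h c
    rw [Chase_aL2_tn]
    have e1 : aL h (single ([] : List β) 1 : Ch β) = single [] 1 := by
      simp [aL]
    rw [e1]
  have hiK : ∀ c ∈ KL N α, Chase_tn (single ([] : List β) 1) c ∈ KL2 N β α := by
    have h1 : KL N α ≤ (KL2 N β α).comap (Chase_tn (single ([] : List β) 1)) := by
      refine Submodule.span_le.2 ?_
      rintro _ ⟨n, hn, x, rfl⟩
      change Chase_tn (single ([] : List β) 1) (aL n x - x) ∈ KL2 N β α
      rw [map_sub, ← hiaL]
      exact Submodule.subset_span ⟨n, hn, _, rfl⟩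
    exact fun x hx => h1 hx
  have hx1 : Chase_tn (single ([] : List β) 1) c ∈ Sup2 S α 0 (k + 1) := by
    refine map_Sup (Chase_tn (single ([] : List β) 1)) _ ?_ hc
    intro l hl
    rw [Chase_tn_single]
    exact Finsupp.single_mem_supported ℤ _ ⟨⟨hu.nil, rfl⟩, hl.2⟩
  have hx2 : d1 (Chase_tn (single ([] : List β) 1) c) ∈ KL2 N β α := by
    rw [Chase_d1_tn, bd_single, bdL_nil, smul_zero, map_zero, LinearMap.zero_apply]
    exact Submodule.zero_mem _
  have hx3 : k ≠ 0 → d2 (Chase_tn (single ([] : List β) 1) c) ∈ KL2 N β α := by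
    intro hk
    rw [Chase_d2_tn]
    exact hiK _ (hcyc hk)
  obtain ⟨y, hy1, hy2, -⟩ := chase N hfree S k τ θ hu k 0 (by omega) _ hx1 hx2 hx3
  refine ⟨lmapDomain ℤ ℤ Prod.snd y, ?_, ?_⟩
  · refine Chase_map_supp (lmapDomain ℤ ℤ Prod.snd) _ ?_ hy1
    rintro ⟨s, l⟩ ⟨-, h3⟩
    rw [lmapDomain_apply, mapDomain_single]
    exact single_mem_Sup (S := Len Set.univ (k + 2)) ⟨Set.mem_univ _, h3⟩ 1
  · have h1 := hpK _ hy2
    rw [map_sub, hpT, hpd] at h1
    have h2 : lmapDomain ℤ ℤ Prod.snd (Chase_tn (single ([] : List β) 1) c) = c := by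
      rw [hi, lmapDomain_apply, ← mapDomain_comp]
      exact mapDomain_id
    rw [h2] at h1
    exact h1

end Tor
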