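import Mathlib
import Pool.Agent.Lib.MP_05cdf2_gt.D.DDef

/-! MP_05cdf2_gt, stream D, job CoFree: coinvariants of a free module.

The ring map `π : GA G → GA (G/N)` (`MonoidAlgebra.mapDomainRingHom`) is surjective; its kernel is generated by the
`of n - 1`, `n ∈ N`. Coordinatewise it gives `p : (Fin m → GA G) → (Fin m → GA (G/N))`, additive, surjective,
`p (r • x) = π r • p x`, and `p x = 0 ↔ x ∈ coSub N (Fin m → GA G)`. (`⇐` clear. `⇒`: choose a section
`σ : G/N → G`; modulo `coSub` every `single g a` at coordinate `i` equals `single (σ (g N)) a`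
(`g = n' σ(gN)` with `n' ∈ N` because `N` is normal); so `x` is equivalent to `σ_* (p x) = 0`.) Hence
`Co N (Fin m → GA G) ≃ₗ[GA (G/N)] (Fin m → GA (G/N))`; apply `FP.free` and `FP.iso`.
Another way: `Module.Finite` + build the inverse maps by hand.
-/

set_option autoImplicit false

namespace Tor
open Finsupp

section
variable {G : Type} [Group G] (N : Subgroup G) [N.Normal]

/-- the ring map between the group rings -/
noncomputable def CoFree_pi : GA G →+* GA (G ⧸ N) :=
  MonoidAlgebra.mapDomainRingHom ℤ (QuotientGroup.mk' N)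

theorem CoFree_pi_of (g : G) : CoFree_pi N (MonoidAlgebra.of ℤ G g) =
    MonoidAlgebra.of ℤ (G ⧸ N) (g : G ⧸ N) := by
  unfold CoFree_pi
  rw [MonoidAlgebra.mapDomainRingHom_apply, MonoidAlgebra.of_apply, MonoidAlgebra.mapDomain_single]
  rfl

theorem CoFree_pi_surj : Function.Surjective (CoFree_pi N) := by
  intro q
  induction q using MonoidAlgebra.induction_on with
  | of q =>
    obtain ⟨g, rfl⟩ := QuotientGroup.mk_surjective q
    exact ⟨_, CoFree_pi_of N g⟩
  | add a b ha hb =>
    obtain ⟨x, rfl⟩ := ha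
    obtain ⟨y, rfl⟩ := hb
    exact ⟨x + y, map_add _ _ _⟩
  | smul n a ha =>
    obtain ⟨x, rfl⟩ := ha
    exact ⟨n • x, map_zsmul _ _ _⟩

theorem CoFree_pi_smul {M : Type} [AddCommGroup M] [Module (GA G) M] (r : GA G) (x : M) :
    CoFree_pi N r • Co.mk N M x = Co.mk N M (r • x) := by
  induction r using MonoidAlgebra.induction_on with
  | of g => rw [CoFree_pi_of, Co.of_smul_mk]
  | add a b ha hb => rw [map_add, add_smul, add_smul, map_add, ha, hb]
  | smul n a ha => rw [map_zsmul, smul_assoc, smul_assoc, map_zsmul, ha]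

theorem CoFree_ker {m : ℕ} {x : Fin m → GA G} (hx : x ∈ coSub N (Fin m → GA G)) (i : Fin m) :
    CoFree_pi N (x i) = 0 := by
  unfold coSub at hx
  induction hx using Submodule.span_induction with
  | mem x h =>
    obtain ⟨n, hn, y, rfl⟩ := h
    rw [Pi.sub_apply, Pi.smul_apply, smul_eq_mul, map_sub, map_mul, CoFree_pi_of]
    have h1 : ((n : G) : G ⧸ N) = 1 := (QuotientGroup.eq_one_iff n).2 hn
    rw [h1, map_one, one_mul, sub_self]
  | zero => rw [Pi.zero_apply, map_zero]
  | add x y _ _ hx hy => rw [Pi.add_apply, map_add, hx, hy, add_zero]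
  | smul r x _ hx => rw [Pi.smul_apply, smul_eq_mul, map_mul, hx, mul_zero]

/-- the comparison map -/
noncomputable def CoFree_phi (m : ℕ) :
    (Fin m → GA (G ⧸ N)) →ₗ[GA (G ⧸ N)] Co N (Fin m → GA G) :=
  Fintype.linearCombination (GA (G ⧸ N))
    (fun i => Co.mk N (Fin m → GA G) (Pi.single i (1 : GA G)))

theorem CoFree_phi_pi {m : ℕ} (x : Fin m → GA G) :
    CoFree_phi N m (fun i => CoFree_pi N (x i)) = Co.mk N (Fin m → GA G) x := by
  unfold CoFree_phi
  rw [Fintype.linearCombination_apply]
  have h1 : x = ∑ i, x i • (Pi.single i (1 : GA G) : Fin m → GA G) := by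
    conv_lhs => rw [← Finset.univ_sum_single x]
    refine Finset.sum_congr rfl (fun i _ => ?_)
    rw [← Pi.single_smul, smul_eq_mul, mul_one]
  conv_rhs => rw [h1]
  rw [map_sum]
  refine Finset.sum_congr rfl (fun i _ => ?_)
  rw [CoFree_pi_smul]

theorem CoFree_bij (m : ℕ) : Function.Bijective (CoFree_phi N m) := by
  constructor
  · rw [← LinearMap.ker_eq_bot, LinearMap.ker_eq_bot']
    intro v hv
    choose x hx using fun i => CoFree_pi_surj N (v i)
    have h1 : v = fun i => CoFree_pi N (x i) := funext fun i => (hx i).symm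
    rw [h1, CoFree_phi_pi, Co.mk_eq_zero] at hv
    funext i
    rw [← hx i]
    exact CoFree_ker N hv i
  · intro y
    induction y using Co.ind with
    | h x => exact ⟨_, CoFree_phi_pi N x⟩

end

theorem FPI_Co_free {G : Type} [Group G] (N : Subgroup G) [N.Normal] (m : ℕ) :
    FPI (GA (G ⧸ N)) (Co N (Fin m → GA G)) := fun n =>
  FP.iso (FP.free n m) (LinearEquiv.ofBijective (CoFree_phi N m) (CoFree_bij N m))

end Tor
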