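import Mathlib
import Pool.Agent.Lib.MP_05cdf2_gt.D.DDef

/-! MP_05cdf2_gt, stream D, job Res: a module of type FP_infinity has a resolution by finitely generated
free modules.

Step: if `FPI R M` then there are `k` and a surjection `f : (Fin k → R) → M` (from `h 1`), and
`FPI R (LinearMap.ker f)` by `FP.ker_of_surj` (applied to `h (n+1)` for every `n`). Recursion: states
are triples `(k, K : Submodule R (Fin k → R), FPI R K)`; the next state is `(k', ker f)` with
`f : (Fin k' → R) → K` surjective, and `d` is `f` followed by the inclusion of `K`.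
Build a sequence of states `s : ℕ → State` and maps `f n : (Fin (s (n+1)).k → R) → (s n).K` surjective with
`(s (n+1)).K = ker (f n)`.
-/

set_option autoImplicit false

namespace Tor
open Finsupp

/-- the states of the recursion -/
structure ResState (R : Type) [Ring R] where
  /-- the rank -/
  k : ℕ
  /-- the submodule to be resolved -/
  K : Submodule R (Fin k → R)
  h : FPI R K

theorem Res_step {R : Type} [Ring R] {M : Type} [AddCommGroup M] [Module R M] (h : FPI R M) :
    ∃ (k : ℕ) (f : (Fin k → R) →ₗ[R] M), Function.Surjective f ∧ FPI R (LinearMap.ker f) := by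
  obtain ⟨k, f, hf, -⟩ := h 1
  exact ⟨k, f, hf, fun n => (h (n + 1)).ker_of_surj f hf⟩

/-- the next rank -/
noncomputable def Res_k {R : Type} [Ring R] (s : ResState R) : ℕ := (Res_step s.h).choose

/-- the surjection -/
noncomputable def Res_f {R : Type} [Ring R] (s : ResState R) : (Fin (Res_k s) → R) →ₗ[R] s.K :=
  (Res_step s.h).choose_spec.choose

theorem Res_f_spec {R : Type} [Ring R] (s : ResState R) :
    Function.Surjective (Res_f s) ∧ FPI R (LinearMap.ker (Res_f s)) :=
  (Res_step s.h).choose_spec.choose_spec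

/-- the next state -/
noncomputable def Res_next {R : Type} [Ring R] (s : ResState R) : ResState R :=
  ⟨Res_k s, LinearMap.ker (Res_f s), (Res_f_spec s).2⟩

/-- the sequence of the states -/
noncomputable def Res_seq {R : Type} [Ring R] (s : ResState R) : ℕ → ResState R
  | 0 => s
  | n + 1 => Res_next (Res_seq s n)

/-- the differential -/
noncomputable def Res_d {R : Type} [Ring R] (s : ResState R) (n : ℕ) :
    (Fin (Res_seq s (n + 1)).k → R) →ₗ[R] (Fin (Res_seq s n).k → R) :=
  (Res_seq s n).K.subtype ∘ₗ Res_f (Res_seq s n)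

theorem Res_range {R : Type} [Ring R] (s : ResState R) (n : ℕ) (x : Fin (Res_seq s n).k → R) :
    x ∈ (Res_seq s n).K ↔ ∃ y, Res_d s n y = x := by
  constructor
  · intro h
    obtain ⟨y, hy⟩ := (Res_f_spec (Res_seq s n)).1 ⟨x, h⟩
    refine ⟨y, ?_⟩
    show ((Res_f (Res_seq s n) y : (Res_seq s n).K) : Fin (Res_seq s n).k → R) = x
    rw [hy]
  · rintro ⟨y, rfl⟩
    exact (Res_f (Res_seq s n) y).2

theorem Res_ker {R : Type} [Ring R] (s : ResState R) (n : ℕ)
    (x : Fin (Res_seq s (n + 1)).k → R) : Res_d s n x = 0 ↔ x ∈ (Res_seq s (n + 1)).K := by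
  show ((Res_f (Res_seq s n) x : (Res_seq s n).K) : Fin (Res_seq s n).k → R) = 0 ↔
    Res_f (Res_seq s n) x = 0
  exact Submodule.coe_eq_zero

theorem FPI.exists_resolution {R : Type} [Ring R] {M : Type} [AddCommGroup M] [Module R M]
    (h : FPI R M) :
    ∃ (m : ℕ → ℕ) (d : ∀ n, (Fin (m (n + 1)) → R) →ₗ[R] (Fin (m n) → R))
      (e : (Fin (m 0) → R) →ₗ[R] M), Function.Surjective e ∧ (∀ x, e x = 0 ↔ ∃ y, d 0 y = x) ∧
      ∀ n x, d n x = 0 ↔ ∃ y, d (n + 1) y = x := by
  obtain ⟨k, f, hf, hK⟩ := Res_step h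
  refine ⟨fun n => (Res_seq ⟨k, LinearMap.ker f, hK⟩ n).k, Res_d ⟨k, LinearMap.ker f, hK⟩, f, hf,
    fun x => ?_, fun n x => ?_⟩
  · exact Res_range ⟨k, LinearMap.ker f, hK⟩ 0 x
  · rw [Res_ker]
    exact Res_range _ (n + 1) x

end Tor
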