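import Mathlib
import Pool.Agent.Lib.MP_05cdf2_gt.D.DDef

/-! MP_05cdf2_gt, stream D, job Tr: finite generation of homology is invariant under domination.

If `f, g` are chain maps and `f ∘ g` is homotopic to the identity of `C'`, then `H_k(C')` is a quotient of
`H_k(C)`. Let `s` be the finite set for `C`; take `s.image (f k)`. For a cycle `x` of `C'` write
`g x = y + d w`; then `x = f (g x) - d' (h x) - h (d' x) = f y + d' (f w - h x)` (for `k = 0` there is no term
`h (d' x)`, for `k + 1` it vanishes since `d' x = 0`).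
-/

set_option autoImplicit false

namespace Tor
open Finsupp

section
variable {R : Type} [Ring R] (C C' : ℕ → Type) [∀ n, AddCommGroup (C n)] [∀ n, Module R (C n)]
  [∀ n, AddCommGroup (C' n)] [∀ n, Module R (C' n)] (d : ∀ n, C (n + 1) →ₗ[R] C n)
  (d' : ∀ n, C' (n + 1) →ₗ[R] C' n) (f : ∀ n, C n →ₗ[R] C' n) (g : ∀ n, C' n →ₗ[R] C n)
  (h : ∀ n, C' n →ₗ[R] C' (n + 1))

private theorem Tr_f (hf : ∀ n x, d' n (f (n + 1) x) = f n (d n x)) (k : ℕ) (x : C k)
    (hx : x ∈ Zc C d k) : f k x ∈ Zc C' d' k := by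
  cases k with
  | zero => exact Submodule.mem_top
  | succ k =>
    have h1 : d k x = 0 := hx
    show d' k (f (k + 1) x) = 0
    rw [hf, h1, map_zero]

private theorem Tr_h (h0 : ∀ x, f 0 (g 0 x) - x = d' 0 (h 0 x))
    (hh : ∀ n x, f (n + 1) (g (n + 1) x) - x = d' (n + 1) (h (n + 1) x) + h n (d' n x))
    (k : ℕ) (x : C' k) (hx : x ∈ Zc C' d' k) : f k (g k x) - x = d' k (h k x) := by
  cases k with
  | zero => exact h0 x
  | succ k =>
    have h1 : d' k x = 0 := hx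
    rw [hh, h1, map_zero, add_zero]

private theorem Tr_main (hf : ∀ n x, d' n (f (n + 1) x) = f n (d n x))
    (h0 : ∀ x, f 0 (g 0 x) - x = d' 0 (h 0 x))
    (hh : ∀ n x, f (n + 1) (g (n + 1) x) - x = d' (n + 1) (h (n + 1) x) + h n (d' n x))
    (k : ℕ) (x : C' k) (hx : x ∈ Zc C' d' k) (y : C k) (w : C (k + 1)) (hy : g k x = y + d k w) :
    x = f k y + d' k (f (k + 1) w - h k x) := by
  have h1 := Tr_h C C' d' f g h h0 hh k x hx
  rw [hy, map_add, ← hf] at h1
  rw [map_sub, ← h1]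
  abel

theorem HFG.transfer (hf : ∀ n x, d' n (f (n + 1) x) = f n (d n x))
    (hg : ∀ n x, d n (g (n + 1) x) = g n (d' n x))
    (h0 : ∀ x, f 0 (g 0 x) - x = d' 0 (h 0 x))
    (hh : ∀ n x, f (n + 1) (g (n + 1) x) - x = d' (n + 1) (h (n + 1) x) + h n (d' n x))
    (k : ℕ) (H : HFG C d k) : HFG C' d' k := by
  classical
  obtain ⟨s, hs, hx⟩ := H
  refine ⟨s.image (f k), ?_, ?_⟩
  · intro z hz
    obtain ⟨z', hz', rfl⟩ := Finset.mem_image.1 hz
    exact Tr_f C C' d d' f hf k z' (hs z' hz')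
  · intro x hxc
    obtain ⟨y, hy, w, hyw⟩ := hx (g k x) (Tr_f C' C d' d g hg k x hxc)
    refine ⟨f k y, ?_, f (k + 1) w - h k x, Tr_main C C' d d' f g h hf h0 hh k x hxc y w hyw⟩
    rw [Finset.coe_image, ← Submodule.map_span]
    exact Submodule.mem_map_of_mem hy

theorem HFGZ.transfer (hf : ∀ n x, d' n (f (n + 1) x) = f n (d n x))
    (hg : ∀ n x, d n (g (n + 1) x) = g n (d' n x))
    (h0 : ∀ x, f 0 (g 0 x) - x = d' 0 (h 0 x))
    (hh : ∀ n x, f (n + 1) (g (n + 1) x) - x = d' (n + 1) (h (n + 1) x) + h n (d' n x))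
    (k : ℕ) (H : HFGZ C d k) : HFGZ C' d' k := by
  classical
  obtain ⟨s, hs, hx⟩ := H
  refine ⟨s.image (f k), ?_, ?_⟩
  · intro z hz
    obtain ⟨z', hz', rfl⟩ := Finset.mem_image.1 hz
    exact Tr_f C C' d d' f hf k z' (hs z' hz')
  · intro x hxc
    obtain ⟨y, hy, w, hyw⟩ := hx (g k x) (Tr_f C' C d' d g hg k x hxc)
    refine ⟨f k y, ?_, f (k + 1) w - h k x, Tr_main C C' d d' f g h hf h0 hh k x hxc y w hyw⟩
    have h1 : (f k).toAddMonoidHom y ∈
        (AddSubgroup.closure (s : Set (C k))).map (f k).toAddMonoidHom :=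
      AddSubgroup.mem_map_of_mem _ hy
    rw [AddMonoidHom.map_closure] at h1
    rw [Finset.coe_image]
    exact h1

end

end Tor
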