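import Mathlib
import Pool.Agent.Lib.MP_05cdf2_gt.D.CT
import Pool.Agent.Lib.MP_05cdf2_gt.D.Res
import Pool.Agent.Lib.MP_05cdf2_gt.D.Tr
import Pool.Agent.Lib.MP_05cdf2_gt.D.BarEx
import Pool.Agent.Lib.MP_05cdf2_gt.D.CoFree

/-! MP_05cdf2_gt, stream D, job Cmp: comparison of the bar complex with a resolution by finitely generated
free modules.

`GFP G` is `FPI (GA G) (PM G PUnit)`; `PM G PUnit ≅ PM G (Tup G 0)` (`PM.congr`; `Tup G 0` has one element), so
`FPI.exists_resolution` gives a resolution `P n = (Fin (m n) → GA G)`, `dP`, `eP : P 0 → PM G (Tup G 0)`.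
`Bar G n` with `dBar`, `eBar` is another projective resolution of `PM G (Tup G 0)` (job BarEx). `chain_lift` twice (over
the identity of `PM G (Tup G 0)`) gives chain maps `F : P → Bar`, `F' : Bar → P`; `chain_homotopy` gives homotopies
`F ∘ F' ~ id` and `F' ∘ F ~ id` (projectivity of `Fin m → GA G` is an instance). Put `C n = Co N (P n)`,
`d n = Co.map N (dP n)`. Apply `Co.map` to everything (`Co.map_comp`, `Co.map_add`, `Co.map_sub`, `Co.map_id`;
use `Co.ind` to check identities on `Co.mk`), and `HFG.transfer`, `HFGZ.transfer`. `FPI_Co_free` for the last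
point.
-/

set_option autoImplicit false

namespace Tor
open Finsupp

theorem Cmp_tup0 {G : Type} [Group G] (hG : GFP G) : FPI (GA G) (PM G (Tup G 0)) := by
  have e : PUnit.{1} ≃ Tup G 0 :=
    { toFun := fun _ => ⟨[], rfl⟩
      invFun := fun _ => PUnit.unit
      left_inv := fun _ => rfl
      right_inv := fun l => Subtype.ext (List.length_eq_zero_iff.mp l.2).symm }
  obtain ⟨i⟩ := PM.congr (G := G) e (fun g s => by
    have h1 : (e (g • s)).1 = [] := List.length_eq_zero_iff.mp (e (g • s)).2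
    have h2 : (g • e s).1 = [] := List.length_eq_zero_iff.mp (g • e s).2
    exact Subtype.ext (h1.trans h2.symm))
  intro n
  exact FP.iso (hG n) i

theorem compare {G : Type} [Group G] (N : Subgroup G) [N.Normal] (hG : GFP G) :
    ∃ (C : ℕ → Type) (_ : ∀ n, AddCommGroup (C n)) (_ : ∀ n, Module (GA (G ⧸ N)) (C n))
      (d : ∀ n, C (n + 1) →ₗ[GA (G ⧸ N)] C n), (∀ n x, d n (d (n + 1) x) = 0) ∧
      (∀ n, FPI (GA (G ⧸ N)) (C n)) ∧ (∀ k, HFGZ (CB N) (dCB N) k → HFGZ C d k) ∧
      (∀ k, HFG C d k → HFG (CB N) (dCB N) k) := by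
  obtain ⟨m, dP, eP, hes, he0, hex⟩ := FPI.exists_resolution (Cmp_tup0 hG)
  have hP0 : ∀ x, eP (dP 0 x) = 0 := fun x => (he0 _).mpr ⟨x, rfl⟩
  have hPP : ∀ n x, dP n (dP (n + 1) x) = 0 := fun n x => (hex n _).mpr ⟨x, rfl⟩
  have hPproj : ∀ n, Module.Projective (GA G) (Fin (m n) → GA G) := fun n => inferInstance
  obtain ⟨F, hF0, hF⟩ := chain_lift (fun n => (Fin (m n) → GA G)) (fun n => Bar G n) dP (dBar G)
    eP (eBar G) hPproj hP0 hPP (eBar_surjective G) (eBar_exact G) (dBar_exact G)
    (LinearMap.id : PM G (Tup G 0) →ₗ[GA G] PM G (Tup G 0))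
  obtain ⟨F', hF0', hF'⟩ := chain_lift (fun n => Bar G n) (fun n => (Fin (m n) → GA G)) (dBar G) dP
    (eBar G) eP (bar_projective G) (eBar_dBar G) (dBar_dBar G) hes (fun y hy => (he0 y).mp hy)
    (fun n y hy => (hex n y).mp hy)
    (LinearMap.id : PM G (Tup G 0) →ₗ[GA G] PM G (Tup G 0))
  -- homotopies
  obtain ⟨h, hh0, hh⟩ := chain_homotopy (fun n => (Fin (m n) → GA G)) (fun n => (Fin (m n) → GA G))
    dP dP eP hPproj hPP (fun y hy => (he0 y).mp hy) (fun n y hy => (hex n y).mp hy)
    (fun n => (F' n) ∘ₗ (F n)) (fun n => LinearMap.id)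
    (fun x => by
      show eP (F' 0 (F 0 x)) = eP x
      rw [hF0', hF0]; rfl)
    (fun n x => by
      show dP n (F' (n + 1) (F (n + 1) x)) = F' n (F n (dP n x))
      rw [hF', hF])
    (fun n x => rfl)
  obtain ⟨h', hh0', hh'⟩ := chain_homotopy (fun n => Bar G n) (fun n => Bar G n)
    (dBar G) (dBar G) (eBar G) (bar_projective G) (dBar_dBar G) (eBar_exact G) (dBar_exact G)
    (fun n => (F n) ∘ₗ (F' n)) (fun n => LinearMap.id)
    (fun x => by
      show eBar G (F 0 (F' 0 x)) = eBar G x
      rw [hF0, hF0']; rfl)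
    (fun n x => by
      show dBar G n (F (n + 1) (F' (n + 1) x)) = F n (F' n (dBar G n x))
      rw [hF, hF'])
    (fun n x => rfl)
  have hcF : ∀ n x, dCB N n (Co.map N (F (n + 1)) x) = Co.map N (F n) (Co.map N (dP n) x) := by
    intro n x
    induction x using Co.ind with
    | h x =>
      show Co.map N (dBar G n) (Co.map N (F (n + 1)) (Co.mk N _ x)) = _
      rw [Co.map_mk, Co.map_mk, Co.map_mk, Co.map_mk, hF]
  have hcF' : ∀ n x, Co.map N (dP n) (Co.map N (F' (n + 1)) x) =
      Co.map N (F' n) (dCB N n x) := by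
    intro n x
    induction x using Co.ind with
    | h x =>
      show _ = Co.map N (F' n) (Co.map N (dBar G n) (Co.mk N _ x))
      rw [Co.map_mk, Co.map_mk, Co.map_mk, Co.map_mk, hF']
  refine ⟨fun n => Co N (Fin (m n) → GA G), fun n => inferInstance, fun n => inferInstance,
    fun n => Co.map N (dP n), ?_, ?_, ?_, ?_⟩
  · intro n x
    induction x using Co.ind with
    | h x => rw [Co.map_mk, Co.map_mk, hPP, map_zero]
  · intro n
    exact FPI_Co_free N (m n)
  · intro k hk
    refine HFGZ.transfer (CB N) (fun n => Co N (Fin (m n) → GA G)) (dCB N)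
      (fun n => Co.map N (dP n)) (fun n => Co.map N (F' n)) (fun n => Co.map N (F n))
      (fun n => Co.map N (h n)) hcF' hcF ?_ ?_ k hk
    · intro x
      induction x using Co.ind with
      | h x =>
        rw [Co.map_mk, Co.map_mk, Co.map_mk, Co.map_mk, ← hh0, ← map_sub]
        rfl
    · intro n x
      induction x using Co.ind with
      | h x =>
        rw [Co.map_mk, Co.map_mk, Co.map_mk, Co.map_mk, Co.map_mk, Co.map_mk, ← map_add, ← hh,
          ← map_sub]
        rfl
  · intro k hk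
    refine HFG.transfer (fun n => Co N (Fin (m n) → GA G)) (CB N) (fun n => Co.map N (dP n))
      (dCB N) (fun n => Co.map N (F n)) (fun n => Co.map N (F' n))
      (fun n => Co.map N (h' n)) hcF hcF' ?_ ?_ k hk
    · intro x
      induction x using Co.ind with
      | h x =>
        show Co.map N (F 0) (Co.map N (F' 0) (Co.mk N _ x)) - Co.mk N _ x =
          Co.map N (dBar G 0) (Co.map N (h' 0) (Co.mk N _ x))
        rw [Co.map_mk, Co.map_mk, Co.map_mk, Co.map_mk, ← hh0', ← map_sub]
        rfl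
    · intro n x
      induction x using Co.ind with
      | h x =>
        show Co.map N (F (n + 1)) (Co.map N (F' (n + 1)) (Co.mk N _ x)) - Co.mk N _ x =
          Co.map N (dBar G (n + 1)) (Co.map N (h' (n + 1)) (Co.mk N _ x)) +
          Co.map N (h' n) (Co.map N (dBar G n) (Co.mk N _ x))
        rw [Co.map_mk, Co.map_mk, Co.map_mk, Co.map_mk, Co.map_mk, Co.map_mk, ← map_add, ← hh',
          ← map_sub]
        rfl

end Tor
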