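import Mathlib
import Pool.Agent.Lib.MP_05cdf2_gt.D.DDef

/-! MP_05cdf2_gt, stream D, job Low: if the modules of a complex are FPI, the homology in degrees `< k` is
finitely generated over `ℤ` and modules which are finitely generated over `ℤ` are FPI, then the homology in
degree `k` is finitely generated over `R`.

Claim: `FPI R (Zc C d i)` for all `i ≤ k`. `i = 0`: `Zc C d 0 = ⊤ ≅ C 0` (`Submodule.topEquiv`). Step: let
`FPI R (Zc C d i)`, `i < k`. `B = range (d i)` is contained in `Zc C d i` (`hdd`, or trivially for `i = 0`). The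
quotient `H = Zc C d i ⧸ (B.comap (Zc C d i).subtype)` is generated over `ℤ` by the classes of the finite set of
`HFGZ C d i`, so it is `Module.Finite ℤ`, so FPI by `hlat`. `FPI.ker` gives that the kernel of `Zc → H`, isomorphic
to `B`, is FPI. `Zc C d (i+1) = ker (d i)` is the kernel of the surjection `C (i+1) → B`, `FPI.ker` again.
For `i = k`: `FPI R (Zc C d k)` gives `Module.Finite R (Zc C d k)` (the case `n = 0`), take the images of the
generators.
-/

set_option autoImplicit false

namespace Tor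
open Finsupp

theorem Low_range_le {R : Type} [Ring R] (C : ℕ → Type) [∀ n, AddCommGroup (C n)]
    [∀ n, Module R (C n)] (d : ∀ n, C (n + 1) →ₗ[R] C n) (hdd : ∀ n x, d n (d (n + 1) x) = 0) :
    ∀ i, LinearMap.range (d i) ≤ Zc C d i
  | 0 => le_top
  | i + 1 => by
    rintro _ ⟨x, rfl⟩
    exact hdd i x

theorem Low_finite {R : Type} [Ring R] (C : ℕ → Type) [∀ n, AddCommGroup (C n)]
    [∀ n, Module R (C n)] (d : ∀ n, C (n + 1) →ₗ[R] C n) (i : ℕ) (h : HFGZ C d i) :
    Module.Finite ℤ
      ((Zc C d i) ⧸ ((LinearMap.range (d i)).comap (Zc C d i).subtype)) := by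
  classical
  obtain ⟨s, hs1, hs2⟩ := h
  refine ⟨⟨s.attach.image (fun z => Submodule.Quotient.mk (p :=
    (LinearMap.range (d i)).comap (Zc C d i).subtype) (⟨z.1, hs1 z.1 z.2⟩ : Zc C d i)), ?_⟩⟩
  rw [eq_top_iff]
  rintro q -
  obtain ⟨⟨x, hx⟩, rfl⟩ := Submodule.Quotient.mk_surjective _ q
  obtain ⟨y, hy, w, hxy⟩ := hs2 x hx
  have key : ∃ hy' : y ∈ Zc C d i, (Submodule.Quotient.mk (p :=
      (LinearMap.range (d i)).comap (Zc C d i).subtype) (⟨y, hy'⟩ : Zc C d i)) ∈
      Submodule.span ℤ ((s.attach.image (fun z => Submodule.Quotient.mk (p :=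
        (LinearMap.range (d i)).comap (Zc C d i).subtype)
          (⟨z.1, hs1 z.1 z.2⟩ : Zc C d i)) : Finset _) : Set _) := by
    clear hxy
    induction hy using AddSubgroup.closure_induction with
    | mem y h =>
      refine ⟨hs1 y h, Submodule.subset_span ?_⟩
      refine Finset.mem_coe.2 (Finset.mem_image.2 ⟨⟨y, h⟩, Finset.mem_attach _ _, rfl⟩)
    | zero => exact ⟨Submodule.zero_mem _, Submodule.zero_mem _⟩
    | add a b _ _ ha hb =>
      obtain ⟨ha1, ha2⟩ := ha
      obtain ⟨hb1, hb2⟩ := hb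
      exact ⟨Submodule.add_mem _ ha1 hb1, Submodule.add_mem _ ha2 hb2⟩
    | neg a _ ha =>
      obtain ⟨ha1, ha2⟩ := ha
      exact ⟨Submodule.neg_mem _ ha1, Submodule.neg_mem _ ha2⟩
  obtain ⟨hy', hmem⟩ := key
  have heq : (Submodule.Quotient.mk (p :=
      (LinearMap.range (d i)).comap (Zc C d i).subtype) (⟨x, hx⟩ : Zc C d i)) =
      Submodule.Quotient.mk (⟨y, hy'⟩ : Zc C d i) := by
    rw [Submodule.Quotient.eq, Submodule.mem_comap]
    refine ⟨w, ?_⟩
    show d i w = x - y
    rw [hxy]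
    abel
  rw [heq]
  exact hmem

theorem Low_FPI {R : Type} [Ring R] (C : ℕ → Type) [∀ n, AddCommGroup (C n)]
    [∀ n, Module R (C n)] (d : ∀ n, C (n + 1) →ₗ[R] C n) (hdd : ∀ n x, d n (d (n + 1) x) = 0)
    (hC : ∀ n, FPI R (C n))
    (hlat : ∀ (M : Type) [AddCommGroup M] [Module R M], Module.Finite ℤ M → FPI R M)
    (k : ℕ) (h : ∀ i, i < k → HFGZ C d i) : ∀ i, i ≤ k → FPI R (Zc C d i)
  | 0, _ => (hC 0).iso Submodule.topEquiv.symm
  | i + 1, hi => by
    have ih := Low_FPI C d hdd hC hlat k h i (by omega)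
    have hle := Low_range_le C d hdd i
    have hfin := Low_finite C d i (h i (by omega))
    have hH := hlat _ hfin
    have h1 : FPI R ((LinearMap.range (d i)).comap (Zc C d i).subtype) := by
      refine FPI.ker ((LinearMap.range (d i)).comap (Zc C d i).subtype).subtype
        ((LinearMap.range (d i)).comap (Zc C d i).subtype).mkQ
        (Submodule.subtype_injective _) (Submodule.mkQ_surjective _) ?_ ih hH
      intro b
      constructor
      · intro hb
        exact ⟨⟨b, (Submodule.Quotient.mk_eq_zero _).1 hb⟩, rfl⟩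
      · rintro ⟨a, rfl⟩
        exact (Submodule.Quotient.mk_eq_zero _).2 a.2
    have h2 : FPI R (LinearMap.range (d i)) := h1.iso (Submodule.comapSubtypeEquivOfLe hle)
    refine FPI.ker (LinearMap.ker (d i)).subtype (d i).rangeRestrict
      (Submodule.subtype_injective _) (LinearMap.surjective_rangeRestrict _) ?_ (hC (i + 1)) h2
    intro b
    constructor
    · intro hb
      have hb1 : d i b = 0 := congrArg Subtype.val hb
      exact ⟨⟨b, hb1⟩, rfl⟩
    · rintro ⟨a, rfl⟩
      exact Subtype.ext a.2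

theorem HFG_of_lower {R : Type} [Ring R] (C : ℕ → Type) [∀ n, AddCommGroup (C n)]
    [∀ n, Module R (C n)] (d : ∀ n, C (n + 1) →ₗ[R] C n) (hdd : ∀ n x, d n (d (n + 1) x) = 0)
    (hC : ∀ n, FPI R (C n))
    (hlat : ∀ (M : Type) [AddCommGroup M] [Module R M], Module.Finite ℤ M → FPI R M)
    (k : ℕ) (h : ∀ i, i < k → HFGZ C d i) : HFG C d k := by
  have h1 : Module.Finite R (Zc C d k) := Low_FPI C d hdd hC hlat k h k le_rfl 0
  obtain ⟨s, hs⟩ := Module.Finite.iff_fg.1 h1
  refine ⟨s, fun z hz => ?_, fun x hx => ⟨x, ?_, 0, ?_⟩⟩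
  · rw [← hs]
    exact Submodule.subset_span hz
  · rw [hs]
    exact hx
  · rw [map_zero, add_zero]

end Tor
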