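import Mathlib
import Pool.Agent.Lib.MP_05cdf2_gt.D.DDef

/-! MP_05cdf2_gt, stream D, job Uni: bounded generation and unipotency.

Write `B = range (d k)` as additive subgroup of `C k`, `Z = Zc C d k`, `B ≤ Z` (`hdd`). All of `Z`, `B` are
`GA Q`-submodules.
1. For `t ∈ l`, `x ∈ Z`, `n : ℤ`: `of (t^n) • x` is in the additive subgroup `E(t, x)` generated by `B` and the
   `(of t - 1)^j • x`, `j < K`. Indeed `E` is stable under `u = of t - 1` (`u^K x ∈ B`), so under `of t = 1 + u`; and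
   under `of t⁻¹`: modulo `B` one has `of t⁻¹ • y = ∑_{j<K} (-u)^j y` for `y ∈ Z` (multiply by `of t = 1 + u`:
   `(1+u) ∑_{j<K} (-u)^j = 1 - (-u)^K`, and `(-u)^K y ∈ B`).
2. For a list `l' = t_1, ..., t_r` of elements of `l` and a finite set `s ⊆ Z`, there is a finite set `s' ⊆ Z` such
   that for all integer exponents and `z ∈ s`: `of (t_1^{e_1} ... t_r^{e_r}) • z ∈ closure s' ⊔ B`. Induction on
   `l'`: for `t :: l'` take the `(of t - 1)^j • y`, `y ∈ s'`, `j < K`.
3. If `s` generates over `GA Q` modulo `B`: every element of `span (GA Q) s` is a `ℤ`-combination of the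
   `of q • z`, `z ∈ s`, `q ∈ Q`, and every `q` is such a product.
-/

set_option autoImplicit false

namespace Tor
open Finsupp

section uni
variable {Q : Type} [Group Q] {M : Type} [AddCommGroup M] [Module (GA Q) M]

/-- the additive subgroup generated by `s` and `B` -/
def Uni_cl (B : Submodule (GA Q) M) (s : Set M) : AddSubgroup M :=
  AddSubgroup.closure (s ∪ (B : Set M))

theorem Uni_mem_B {B : Submodule (GA Q) M} {s : Set M} {x : M} (hx : x ∈ B) : x ∈ Uni_cl B s :=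
  AddSubgroup.subset_closure (Or.inr hx)

theorem Uni_mem_s {B : Submodule (GA Q) M} {s : Set M} {x : M} (hx : x ∈ s) : x ∈ Uni_cl B s :=
  AddSubgroup.subset_closure (Or.inl hx)

theorem Uni_stab {B : Submodule (GA Q) M} {s : Set M} {A : AddSubgroup M}
    (hB : ∀ x ∈ B, x ∈ A) (r : GA Q) (h : ∀ x ∈ s, r • x ∈ A) : ∀ x ∈ Uni_cl B s, r • x ∈ A := by
  intro x hx
  unfold Uni_cl at hx
  induction hx using AddSubgroup.closure_induction with
  | mem x hx =>
    rcases hx with hx | hx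
    · exact h x hx
    · exact hB _ (B.smul_mem r hx)
  | zero => rw [smul_zero]; exact A.zero_mem
  | add x y _ _ hx hy => rw [smul_add]; exact A.add_mem hx hy
  | neg x _ hx => rw [smul_neg]; exact A.neg_mem hx

theorem Uni_le_Z {Z B : Submodule (GA Q) M} (hBZ : B ≤ Z) {s : Set M} (hs : ∀ x ∈ s, x ∈ Z) :
    ∀ x ∈ Uni_cl B s, x ∈ Z := by
  intro x hx
  unfold Uni_cl at hx
  induction hx using AddSubgroup.closure_induction with
  | mem x hx =>
    rcases hx with hx | hx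
    · exact hs x hx
    · exact hBZ hx
  | zero => exact Z.zero_mem
  | add x y _ _ hx hy => exact Z.add_mem hx hy
  | neg x _ hx => exact Z.neg_mem hx

theorem Uni_step {Z B : Submodule (GA Q) M} (hBZ : B ≤ Z) (t : Q) (K : ℕ)
    (hu : ∀ x ∈ Z, (MonoidAlgebra.of ℤ Q t - 1) ^ K • x ∈ B) (s : Finset M)
    (hs : ∀ x ∈ s, x ∈ Z) :
    ∃ s' : Finset M, (∀ x ∈ s', x ∈ Z) ∧
      ∀ x ∈ Uni_cl B (s : Set M), ∀ n : ℤ,
        MonoidAlgebra.of ℤ Q (t ^ n) • x ∈ Uni_cl B (s' : Set M) := by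
  classical
  set u : GA Q := MonoidAlgebra.of ℤ Q t - 1 with hudef
  set s' : Finset M := (Finset.range (K + 1) ×ˢ s).image fun p => u ^ p.1 • p.2 with hs'
  have hmem : ∀ j ≤ K, ∀ y ∈ s, u ^ j • y ∈ s' := by
    intro j hj y hy
    rw [hs', Finset.mem_image]
    exact ⟨(j, y), Finset.mem_product.mpr ⟨Finset.mem_range.mpr (Nat.lt_succ_of_le hj), hy⟩, rfl⟩
  have hmem' : ∀ x ∈ s', ∃ j ≤ K, ∃ y ∈ s, x = u ^ j • y := by
    intro x hx
    rw [hs', Finset.mem_image] at hx
    obtain ⟨⟨j, y⟩, hp, rfl⟩ := hx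
    rw [Finset.mem_product, Finset.mem_range] at hp
    exact ⟨j, Nat.le_of_lt_succ hp.1, y, hp.2, rfl⟩
  have hs'Z : ∀ x ∈ s', x ∈ Z := by
    intro x hx
    obtain ⟨j, _, y, hy, rfl⟩ := hmem' x hx
    exact Z.smul_mem _ (hs y hy)
  set E : AddSubgroup M := Uni_cl B (s' : Set M) with hE
  have hEZ : ∀ x ∈ E, x ∈ Z := Uni_le_Z hBZ hs'Z
  have hEB : ∀ x ∈ B, x ∈ E := fun x hx => Uni_mem_B hx
  have hEu : ∀ x ∈ E, u • x ∈ E := by
    refine Uni_stab hEB u ?_
    intro x hx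
    obtain ⟨j, hj, y, hy, rfl⟩ := hmem' x hx
    rw [smul_smul, ← pow_succ']
    by_cases hjK : j + 1 ≤ K
    · exact Uni_mem_s (hmem _ hjK y hy)
    · have hjK' : j = K := by omega
      rw [hjK', pow_succ', mul_smul]
      exact hEB _ (B.smul_mem u (hu y (hs y hy)))
  have hEuj : ∀ j : ℕ, ∀ x ∈ E, u ^ j • x ∈ E := by
    intro j
    induction j with
    | zero => intro x hx; rw [pow_zero, one_smul]; exact hx
    | succ j ih => intro x hx; rw [pow_succ', mul_smul]; exact hEu _ (ih x hx)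
  have ht : MonoidAlgebra.of ℤ Q t = u + 1 := by rw [hudef, sub_add_cancel]
  have hEt : ∀ x ∈ E, MonoidAlgebra.of ℤ Q t • x ∈ E := by
    intro x hx
    rw [ht, add_smul, one_smul]
    exact E.add_mem (hEu x hx) hx
  have hEneg : ∀ j : ℕ, ∀ x ∈ E, (-u) ^ j • x ∈ E := by
    intro j x hx
    rcases Nat.even_or_odd j with hj | hj
    · rw [hj.neg_pow]
      exact hEuj j x hx
    · rw [hj.neg_pow, neg_smul]
      exact E.neg_mem (hEuj j x hx)
  have hEti : ∀ x ∈ E, MonoidAlgebra.of ℤ Q t⁻¹ • x ∈ E := by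
    intro x hx
    have h1 : (∑ j ∈ Finset.range K, (-u) ^ j) • x ∈ E := by
      rw [Finset.sum_smul]
      exact E.sum_mem fun j _ => hEneg j x hx
    have h2 : MonoidAlgebra.of ℤ Q t * (∑ j ∈ Finset.range K, (-u) ^ j) = 1 - (-u) ^ K := by
      have h3 : MonoidAlgebra.of ℤ Q t = 1 - (-u) := by rw [ht, sub_neg_eq_add, add_comm]
      rw [h3]
      exact mul_neg_geom_sum (-u) K
    have h4 : MonoidAlgebra.of ℤ Q t⁻¹ * MonoidAlgebra.of ℤ Q t = 1 := by
      rw [← map_mul, inv_mul_cancel, map_one]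
    have h5 : MonoidAlgebra.of ℤ Q t⁻¹ • x = (∑ j ∈ Finset.range K, (-u) ^ j) • x +
        MonoidAlgebra.of ℤ Q t⁻¹ • ((-u) ^ K • x) := by
      have h6 : (∑ j ∈ Finset.range K, (-u) ^ j) = MonoidAlgebra.of ℤ Q t⁻¹ * (1 - (-u) ^ K) := by
        rw [← h2, ← mul_assoc, h4, one_mul]
      rw [h6, mul_sub, mul_one, sub_smul, mul_smul, sub_add_cancel]
    rw [h5]
    refine E.add_mem h1 (hEB _ (B.smul_mem _ ?_))
    have h7 := hu x (hEZ x hx)
    rcases Nat.even_or_odd K with hj | hj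
    · rw [hj.neg_pow]
      exact h7
    · rw [hj.neg_pow, neg_smul]
      exact B.neg_mem h7
  have hEn : ∀ n : ℤ, ∀ x ∈ E, MonoidAlgebra.of ℤ Q (t ^ n) • x ∈ E := by
    intro n
    induction n using Int.induction_on with
    | zero => intro x hx; rw [zpow_zero, map_one, one_smul]; exact hx
    | succ i ih =>
      intro x hx
      rw [zpow_add_one, map_mul, mul_smul]
      exact ih _ (hEt x hx)
    | pred i ih =>
      intro x hx
      rw [zpow_sub_one, map_mul, mul_smul]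
      exact ih _ (hEti x hx)
  refine ⟨s', hs'Z, ?_⟩
  intro x hx n
  refine hEn n x ?_
  have h8 : ∀ x ∈ Uni_cl B (s : Set M), (1 : GA Q) • x ∈ E := by
    refine Uni_stab hEB 1 ?_
    intro y hy
    have h9 := Uni_mem_s (B := B) (s := (s' : Set M)) (hmem 0 (Nat.zero_le K) y hy)
    rw [pow_zero] at h9
    exact h9
  have h10 := h8 x hx
  rwa [one_smul] at h10

theorem Uni_list {Z B : Submodule (GA Q) M} (hBZ : B ≤ Z) (K : ℕ) (l : List Q)
    (hu : ∀ t ∈ l, ∀ x ∈ Z, (MonoidAlgebra.of ℤ Q t - 1) ^ K • x ∈ B) (s : Finset M)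
    (hs : ∀ x ∈ s, x ∈ Z) :
    ∃ s' : Finset M, (∀ x ∈ s', x ∈ Z) ∧ ∀ e : List ℤ, e.length = l.length →
      ∀ x ∈ Uni_cl B (s : Set M),
        MonoidAlgebra.of ℤ Q (List.zipWith (fun t (n : ℤ) => t ^ n) l e).prod • x ∈
          Uni_cl B (s' : Set M) := by
  induction l with
  | nil =>
    refine ⟨s, hs, ?_⟩
    intro e _ x hx
    rw [List.zipWith_nil_left, List.prod_nil, map_one, one_smul]
    exact hx
  | cons t l ih =>
    obtain ⟨s1, h1, h2⟩ := ih fun t' ht' => hu t' (List.mem_cons_of_mem _ ht')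
    obtain ⟨s2, h3, h4⟩ := Uni_step hBZ t K (hu t List.mem_cons_self) s1 h1
    refine ⟨s2, h3, ?_⟩
    intro e he x hx
    cases e with
    | nil => simp at he
    | cons n e =>
      have he' : e.length = l.length := by
        rw [List.length_cons, List.length_cons] at he
        omega
      rw [List.zipWith_cons_cons, List.prod_cons, map_mul, mul_smul]
      exact h4 _ (h2 e he' x hx) n

theorem Uni_span (s : Set M) (A : AddSubgroup M)
    (h : ∀ q : Q, ∀ z ∈ s, MonoidAlgebra.of ℤ Q q • z ∈ A) :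
    ∀ x ∈ Submodule.span (GA Q) s, x ∈ A := by
  have h1 : ∀ (r : GA Q), ∀ x ∈ AddSubgroup.closure {y : M | ∃ q : Q, ∃ z ∈ s,
      y = MonoidAlgebra.of ℤ Q q • z}, r • x ∈ AddSubgroup.closure {y : M | ∃ q : Q, ∃ z ∈ s,
      y = MonoidAlgebra.of ℤ Q q • z} := by
    intro r
    induction r using MonoidAlgebra.induction_on with
    | of g =>
      intro x hx
      induction hx using AddSubgroup.closure_induction with
      | mem x hx =>
        obtain ⟨q, z, hz, rfl⟩ := hx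
        rw [smul_smul, ← map_mul]
        exact AddSubgroup.subset_closure ⟨_, z, hz, rfl⟩
      | zero => rw [smul_zero]; exact AddSubgroup.zero_mem _
      | add x y _ _ hx hy => rw [smul_add]; exact AddSubgroup.add_mem _ hx hy
      | neg x _ hx => rw [smul_neg]; exact AddSubgroup.neg_mem _ hx
    | add a b ha hb =>
      intro x hx
      rw [add_smul]
      exact AddSubgroup.add_mem _ (ha x hx) (hb x hx)
    | smul n a ha =>
      intro x hx
      rw [smul_assoc]
      exact AddSubgroup.zsmul_mem _ (ha x hx) n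
  have h2 : AddSubgroup.closure {y : M | ∃ q : Q, ∃ z ∈ s, y = MonoidAlgebra.of ℤ Q q • z} ≤ A := by
    rw [AddSubgroup.closure_le]
    rintro y ⟨q, z, hz, rfl⟩
    exact h q z hz
  intro x hx
  refine h2 ?_
  induction hx using Submodule.span_induction with
  | mem x hx =>
    refine AddSubgroup.subset_closure ⟨1, x, hx, ?_⟩
    rw [map_one, one_smul]
  | zero => exact AddSubgroup.zero_mem _
  | add x y _ _ hx hy => exact AddSubgroup.add_mem _ hx hy
  | smul r x _ hx => exact h1 r x hx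

end uni

theorem HFGZ_of_unipotent {Q : Type} [Group Q] (C : ℕ → Type) [∀ n, AddCommGroup (C n)]
    [∀ n, Module (GA Q) (C n)] (d : ∀ n, C (n + 1) →ₗ[GA Q] C n)
    (hdd : ∀ n x, d n (d (n + 1) x) = 0) (k K : ℕ) (l : List Q)
    (hl : ∀ q : Q, ∃ e : List ℤ, e.length = l.length ∧
      q = (List.zipWith (fun t (n : ℤ) => t ^ n) l e).prod)
    (hu : ∀ t ∈ l, ∀ x ∈ Zc C d k, ∃ w, (MonoidAlgebra.of ℤ Q t - 1) ^ K • x = d k w)
    (h : HFG C d k) : HFGZ C d k := by
  have hBZ : LinearMap.range (d k) ≤ Zc C d k := by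
    rintro _ ⟨w, rfl⟩
    cases k with
    | zero => exact Submodule.mem_top
    | succ k => exact hdd k w
  have hu' : ∀ t ∈ l, ∀ x ∈ Zc C d k,
      (MonoidAlgebra.of ℤ Q t - 1) ^ K • x ∈ LinearMap.range (d k) := by
    intro t ht x hx
    obtain ⟨w, hw⟩ := hu t ht x hx
    exact ⟨w, hw.symm⟩
  obtain ⟨s, hsZ, hs⟩ := h
  obtain ⟨s', hs'Z, hs'⟩ := Uni_list hBZ K l hu' s hsZ
  refine ⟨s', hs'Z, ?_⟩
  intro x hx
  obtain ⟨y, hy, w, rfl⟩ := hs x hx
  have hy' : y ∈ Uni_cl (LinearMap.range (d k)) (s' : Set (C k)) := by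
    refine Uni_span (s : Set (C k)) _ ?_ y hy
    intro q z hz
    obtain ⟨e, he, rfl⟩ := hl q
    exact hs' e he z (Uni_mem_s hz)
  unfold Uni_cl at hy'
  rw [AddSubgroup.closure_union, AddSubgroup.mem_sup] at hy'
  obtain ⟨y1, hy1, b, hb, rfl⟩ := hy'
  have hb' : b ∈ (LinearMap.range (d k)).toAddSubgroup := by
    rw [← AddSubgroup.closure_eq (LinearMap.range (d k)).toAddSubgroup]
    exact hb
  obtain ⟨w1, rfl⟩ := hb'
  refine ⟨y1, hy1, w1 + w, ?_⟩
  rw [map_add, add_assoc]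

end Tor
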