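import Mathlib
import Pool.Agent.Lib.MP_05cdf2_gt.D.Chase

/-! MP_05cdf2_gt, stream D, job UniCo: unipotency on the homology of `N`.

`UData.mono`: immediate (only `exact` depends on `k`).

`unip_co`: let `x = Co.mk N x0`, `x0 : Bar G k`, i.e. `x0' = PM.eq x0 : Tup G (k+1) →₀ ℤ`. Put `c = Tup.inc _ _ x0'`, a chain of
lists of length `k + 1` in `G`. The group `H ≤ G` acts on `G` by left multiplication and `N.subgroupOf H` acts freely.
`k = k' + 1` and `dCB N k' x = 0` means `dBar G k' x0 ∈ coSub N (Bar G k')`, and this gives `bd c ∈ KL (N.subgroupOf H) G`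
(an element of `coSub N (PM G X)` is a sum of elements `of n • m - m`: the `GA G`-span of these is their additive
span, since `of g • (of n • m - m) = of (g n g⁻¹) • (of g • m) - of g • m`; `PM.eq_of_smul`). `unip_list` gives `w` with
`((aL τ - 1)^(k+1)) c - bd w ∈ KL`. All chains here are supported on lists of length `k + 1` (resp. `k + 2`), so `w`
comes from `w0 : Bar G (k+1)` (`Finsupp.comapDomain Tup.v`), and an element of `KL` supported on lists of length
`k + 1` comes from `coSub N (Bar G k)` (restrict every `x` in the generators `aL n x - x` to its part of length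
`k + 1`: the restriction map `Ch G → (Tup G (k+1) →₀ ℤ)`, `comapDomain Tup.v`, commutes with the action).
Finally `(of t - 1)^(k+1) • Co.mk x0 = Co.mk ((of τ - 1)^(k+1) • x0)` by `Co.of_smul_mk` (induction on the exponent),
and `PM.eq ((of τ - 1)^(k+1) • x0)` corresponds to `((aL τ - 1)^(k+1)) c`.
-/

set_option autoImplicit false

namespace Tor
open Finsupp

theorem UData.mono {H : Type} [Group H] {N : Subgroup H} {β : Type} [MulAction H β]
    {S : Set (List β)} {k j : ℕ} {τ : H} {θ : List β → H} (hu : UData N β S k τ θ) (hj : j ≤ k) :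
    UData N β S j τ θ := by
  exact ⟨hu.nil, hu.closed, hu.inv, fun n hn => hu.exact n (hn.trans hj), hu.equi, hu.fix,
    hu.coset⟩

/-- left multiplication on chains of lists -/
noncomputable def UniCo_gL {G : Type} [Group G] (g : G) : Ch G →ₗ[ℤ] Ch G :=
  Finsupp.lmapDomain ℤ ℤ (List.map (g * ·))

theorem UniCo_gL_mul {G : Type} [Group G] (g h : G) (c : Ch G) :
    UniCo_gL g (UniCo_gL h c) = UniCo_gL (g * h) c := by
  simp only [UniCo_gL, lmapDomain_apply, ← mapDomain_comp]
  congr 1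
  funext l
  simp only [Function.comp_apply, List.map_map]
  congr 1
  funext x
  simp [mul_assoc]

theorem UniCo_aL {G : Type} [Group G] (H : Subgroup G) (h : H) :
    (aL h : Ch G →ₗ[ℤ] Ch G) = UniCo_gL (h : G) := rfl

theorem UniCo_KL {G : Type} [Group G] (N : Subgroup G) [N.Normal] (H : Subgroup G) (hNH : N ≤ H)
    (g : G) {c : Ch G} (hc : c ∈ KL (N.subgroupOf H) G) :
    UniCo_gL g c ∈ KL (N.subgroupOf H) G := by
  unfold KL at hc
  induction hc using Submodule.span_induction with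
  | mem x h =>
    obtain ⟨n, hn, m, rfl⟩ := h
    have hn' : (n : G) ∈ N := Subgroup.mem_subgroupOf.1 hn
    have h1 : g * (n : G) * g⁻¹ ∈ N := (inferInstance : N.Normal).conj_mem _ hn' g
    rw [map_sub, UniCo_aL, UniCo_gL_mul]
    refine Submodule.subset_span ⟨⟨g * (n : G) * g⁻¹, hNH h1⟩, h1, UniCo_gL g m, ?_⟩
    rw [UniCo_aL, UniCo_gL_mul]
    simp
  | zero => rw [map_zero]; exact Submodule.zero_mem _
  | add x y _ _ hx hy => rw [map_add]; exact Submodule.add_mem _ hx hy
  | smul r x _ hx => rw [map_smul]; exact Submodule.smul_mem _ _ hx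

theorem UniCo_inc {G : Type} [Group G] (m : ℕ) (g : G) (x : Tup G m →₀ ℤ) :
    Tup.inc G m (mapDomain (g • ·) x) = UniCo_gL g (Tup.inc G m x) := by
  simp only [UniCo_gL, Tup.inc, lmapDomain_apply, ← mapDomain_comp]
  rfl

theorem UniCo_toKL {G : Type} [Group G] (N : Subgroup G) [N.Normal] (H : Subgroup G)
    (hNH : N ≤ H) (m : ℕ) {y : PM G (Tup G m)} (hy : y ∈ coSub N (PM G (Tup G m))) :
    Tup.inc G m (PM.eq G (Tup G m) y) ∈ KL (N.subgroupOf H) G := by
  unfold coSub at hy
  induction hy using Submodule.span_induction with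
  | mem x h =>
    obtain ⟨n, hn, y, rfl⟩ := h
    rw [map_sub, map_sub, PM.eq_of_smul, UniCo_inc]
    exact Submodule.subset_span ⟨⟨n, hNH hn⟩, hn, Tup.inc G m (PM.eq G (Tup G m) y), rfl⟩
  | zero => rw [map_zero, map_zero]; exact Submodule.zero_mem _
  | add x y _ _ hx hy => rw [map_add, map_add]; exact Submodule.add_mem _ hx hy
  | smul r x _ hx =>
    induction r using MonoidAlgebra.induction_on with
    | of g =>
      rw [PM.eq_of_smul, UniCo_inc]
      exact UniCo_KL N H hNH g hx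
    | add a b ha hb =>
      rw [add_smul, map_add, map_add]
      exact Submodule.add_mem _ ha hb
    | smul n a ha =>
      rw [smul_assoc, map_zsmul, map_zsmul]
      exact Submodule.smul_mem _ _ ha

/-- restriction to the lists of length `m` -/
noncomputable def UniCo_res (G : Type) (m : ℕ) : Ch G →ₗ[ℤ] (Tup G m →₀ ℤ) :=
  Finsupp.lcomapDomain Tup.v (Tup.v_injective m)

theorem UniCo_res_apply (G : Type) (m : ℕ) (c : Ch G) (l : Tup G m) :
    UniCo_res G m c l = c l.v := rfl

theorem UniCo_res_inc (G : Type) (m : ℕ) (x : Tup G m →₀ ℤ) :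
    UniCo_res G m (Tup.inc G m x) = x := by
  ext l
  rw [UniCo_res_apply]
  exact mapDomain_apply (Tup.v_injective m) x l

theorem UniCo_inc_res (G : Type) (m : ℕ) (c : Ch G) (hc : c ∈ Sup (Len Set.univ m)) :
    Tup.inc G m (UniCo_res G m c) = c := by
  have hc' := (Finsupp.mem_supported ℤ c).1 hc
  apply Finsupp.mapDomain_comapDomain
  · exact Tup.v_injective m
  · intro l hl
    exact ⟨⟨l, (hc' hl).2⟩, rfl⟩

theorem UniCo_inc_mem (G : Type) (m : ℕ) (x : Tup G m →₀ ℤ) :
    Tup.inc G m x ∈ Sup (Len Set.univ m) := by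
  classical
  rw [Finsupp.mem_supported]
  intro l hl
  have h1 := Finsupp.mapDomain_support (Finset.mem_coe.1 hl)
  rw [Finset.mem_image] at h1
  obtain ⟨l', _, rfl⟩ := h1
  exact ⟨Set.mem_univ _, l'.v_length⟩

theorem UniCo_res_gL {G : Type} [Group G] (m : ℕ) (g : G) (c : Ch G) :
    UniCo_res G m (UniCo_gL g c) = mapDomain (g • ·) (UniCo_res G m c) := by
  have hinj : ∀ g : G, Function.Injective (List.map (g * ·) : List G → List G) := fun g =>
    List.map_injective_iff.2 (mul_right_injective g)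
  ext l
  have h1 : g • (g⁻¹ • l) = l := smul_inv_smul g l
  have h2 : (mapDomain (g • ·) (UniCo_res G m c)) l = UniCo_res G m c (g⁻¹ • l) := by
    conv_lhs => rw [← h1]
    exact mapDomain_apply (MulAction.injective g) _ _
  rw [h2, UniCo_res_apply, UniCo_res_apply]
  have h3 : l.v = List.map (g * ·) (g⁻¹ • l).v := by
    have h4 := congrArg Tup.v h1
    exact h4.symm
  rw [h3]
  exact mapDomain_apply (hinj g) c _

theorem UniCo_fromKL {G : Type} [Group G] (N : Subgroup G) [N.Normal] (H : Subgroup G)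
    (m : ℕ) {c : Ch G} (hc : c ∈ KL (N.subgroupOf H) G) :
    (PM.eq G (Tup G m)).symm (UniCo_res G m c) ∈ coSub N (PM G (Tup G m)) := by
  unfold KL at hc
  induction hc using Submodule.span_induction with
  | mem x h =>
    obtain ⟨n, hn, y, rfl⟩ := h
    refine Submodule.subset_span ⟨n, Subgroup.mem_subgroupOf.1 hn,
      (PM.eq G (Tup G m)).symm (UniCo_res G m y), ?_⟩
    apply (PM.eq G (Tup G m)).injective
    rw [map_sub (PM.eq G (Tup G m)), PM.eq_of_smul, AddEquiv.apply_symm_apply,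
      AddEquiv.apply_symm_apply, map_sub, UniCo_aL, UniCo_res_gL]
  | zero => rw [map_zero, map_zero]; exact Submodule.zero_mem _
  | add x y _ _ hx hy => rw [map_add, map_add]; exact Submodule.add_mem _ hx hy
  | smul r x _ hx =>
    rw [map_zsmul, map_zsmul]
    have h1 : ∀ (M : Type) [AddCommGroup M] [Module (GA G) M] (P : Submodule (GA G) M) (z : M),
        z ∈ P → r • z ∈ P := fun M _ _ P z hz => P.toAddSubgroup.zsmul_mem hz r
    exact h1 _ _ _ hx

theorem UniCo_pow {G : Type} [Group G] (m : ℕ) (g : G) (x : PM G (Tup G m)) (j : ℕ) :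
    ((UniCo_gL g - 1) ^ j) (Tup.inc G m (PM.eq G (Tup G m) x)) =
      Tup.inc G m (PM.eq G (Tup G m) ((MonoidAlgebra.of ℤ G g - 1) ^ j • x)) := by
  induction j with
  | zero => simp
  | succ j ih =>
    rw [pow_succ', pow_succ', Module.End.mul_apply, ih, mul_smul, sub_smul, one_smul, map_sub,
      map_sub, PM.eq_of_smul, UniCo_inc]
    rfl

theorem UniCo_copow {G : Type} [Group G] (N : Subgroup G) [N.Normal] {M : Type} [AddCommGroup M]
    [Module (GA G) M] (g : G) (x : M) (j : ℕ) :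
    (MonoidAlgebra.of ℤ (G ⧸ N) (g : G ⧸ N) - 1) ^ j • Co.mk N M x =
      Co.mk N M ((MonoidAlgebra.of ℤ G g - 1) ^ j • x) := by
  induction j with
  | zero => simp
  | succ j ih =>
    rw [pow_succ', pow_succ', mul_smul, ih, mul_smul, sub_smul, one_smul, Co.of_smul_mk, sub_smul,
      one_smul, map_sub]

theorem unip_co {G : Type} [Group G] (N : Subgroup G) [N.Normal] (H : Subgroup G) (hNH : N ≤ H)
    (β : Type) [MulAction H β] (S : Set (List β)) (k : ℕ) (hk : k ≠ 0) (τ : H) (θ : List β → H)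
    (hu : UData (N.subgroupOf H) β S k τ θ) :
    ∀ x ∈ Zc (CB N) (dCB N) k, ∃ w : CB N (k + 1),
      (MonoidAlgebra.of ℤ (G ⧸ N) ((τ : G) : G ⧸ N) - 1) ^ (k + 1) • x = dCB N k w := by
  intro x hx
  obtain ⟨x0, rfl⟩ := Co.mk_surjective N x
  obtain ⟨k', rfl⟩ := Nat.exists_eq_succ_of_ne_zero hk
  have h1 : dCB N k' (Co.mk N (Bar G (k' + 1)) x0) = 0 := hx
  have h2 : Co.mk N (Bar G k') (dBar G k' x0) = 0 := h1
  rw [Co.mk_eq_zero] at h2
  have h3 := UniCo_toKL N H hNH (k' + 1) h2
  have h4 : Tup.inc G (k' + 1) (PM.eq G (Tup G (k' + 1)) (dBar G k' x0)) =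
      bd (Tup.inc G (k' + 1 + 1) (PM.eq G (Tup G (k' + 1 + 1)) x0)) :=
    Tup.inc_tb (k' + 1) (PM.eq G (Tup G (k' + 1 + 1)) x0)
  rw [h4] at h3
  have hfree : ∀ n ∈ N.subgroupOf H, ∀ a : G, n • a = a → n = 1 := by
    intro n _ a ha
    have h5 : (n : G) * a = a := ha
    exact Subtype.ext (mul_eq_right.1 h5)
  obtain ⟨w, hw, h5⟩ := unip_list (N.subgroupOf H) hfree S (k' + 1) τ θ hu
    (Tup.inc G (k' + 1 + 1) (PM.eq G (Tup G (k' + 1 + 1)) x0)) (UniCo_inc_mem G _ _)
    (fun _ => h3)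
  have h6 := UniCo_fromKL N H (k' + 1 + 1) h5
  have hw' := UniCo_inc_res G (k' + 1 + 2) w hw
  have h7 : UniCo_res G (k' + 1 + 1) (bd w) =
      PM.eq G (Tup G (k' + 1 + 1)) (dBar G (k' + 1)
        ((PM.eq G (Tup G (k' + 1 + 2))).symm (UniCo_res G (k' + 1 + 2) w))) := by
    conv_lhs => rw [← hw']
    have h8 : bd (Tup.inc G (k' + 1 + 2) (UniCo_res G (k' + 1 + 2) w)) =
        Tup.inc G (k' + 1 + 1) (tb G (k' + 1 + 1) (UniCo_res G (k' + 1 + 2) w)) :=
      (Tup.inc_tb (k' + 1 + 1) (UniCo_res G (k' + 1 + 2) w)).symm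
    rw [h8, UniCo_res_inc]
    rfl
  refine ⟨Co.mk N (Bar G (k' + 1 + 1))
    ((PM.eq G (Tup G (k' + 1 + 2))).symm (UniCo_res G (k' + 1 + 2) w)), ?_⟩
  rw [UniCo_copow]
  show _ = Co.mk N (Bar G (k' + 1)) (dBar G (k' + 1)
    ((PM.eq G (Tup G (k' + 1 + 2))).symm (UniCo_res G (k' + 1 + 2) w)))
  rw [← sub_eq_zero, ← map_sub, Co.mk_eq_zero]
  rw [map_sub, h7, UniCo_aL, UniCo_pow, UniCo_res_inc, ← map_sub, AddEquiv.symm_apply_apply] at h6
  exact h6

end Tor
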