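import Mathlib
import Pool.Agent.Lib.MP_05cdf2_gt.D.Cmp
import Pool.Agent.Lib.MP_05cdf2_gt.D.Low
import Pool.Agent.Lib.MP_05cdf2_gt.D.Uni
import Pool.Agent.Lib.MP_05cdf2_gt.D.UniCo
import Pool.Agent.Lib.MP_05cdf2_gt.D.BrC

/-! MP_05cdf2_gt, stream D, job DMain: the main theorem of stream D.

Strong induction on `j ≤ k`: `HFGZ (CB N) (dCB N) j`. `j = 0`: `HFGZ_zero`. `j ≥ 1`: let `C, d` be the complex of
`compare`. By induction `HFGZ (CB N) (dCB N) i` for `i < j`, so `HFGZ C d i` for `i < j`, so `HFG C d j` by `HFG_of_lower`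
(`hlat` from `FPI_lattice hQ`), so `HFG (CB N) (dCB N) j`. By `unip_co` (with `UData.mono`) every `t ∈ l` satisfies
`(of t - 1)^(j+1) • x ∈ range (dCB N j)` for cycles `x`. `HFGZ_of_unipotent` with `K = j + 1` (`dCB_dCB`).
The second part: `HIF_of_HFGZ`, `groupHomology_finite_of`.
-/

set_option autoImplicit false

namespace Tor
open Finsupp

theorem D_main {G : Type} [Group G] (N : Subgroup G) [N.Normal] (k : ℕ) (hG : GFP G)
    (hQ : GFP (G ⧸ N)) (l : List (G ⧸ N))
    (hl : ∀ q : G ⧸ N, ∃ e : List ℤ, e.length = l.length ∧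
      q = (List.zipWith (fun t (n : ℤ) => t ^ n) l e).prod)
    (hA : ∀ t ∈ l, ∃ (H : Subgroup G) (_ : N ≤ H) (β : Type) (_ : MulAction H β)
      (S : Set (List β)) (τ : H) (θ : List β → H),
      UData (N.subgroupOf H) β S k τ θ ∧ ((τ : G) : G ⧸ N) = t) :
    (∀ j ≤ k, HIF N j) ∧ ∀ j ≤ k, Module.Finite ℤ (groupHomology (Rep.trivial ℤ N ℤ) j) := by
  have main : ∀ j, j ≤ k → HFGZ (CB N) (dCB N) j := by
    intro j
    induction j using Nat.strong_induction_on with
    | _ j ih =>
      intro hj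
      rcases Nat.eq_zero_or_pos j with rfl | hpos
      · exact HFGZ_zero N
      · obtain ⟨C, i1, i2, d, hdd, hC, h1, h2⟩ := compare N hG
        have hlow : ∀ i, i < j → HFGZ C d i := fun i hi => h1 i (ih i hi (by omega))
        have hC' : HFG C d j := HFG_of_lower C d hdd hC
          (fun M _ _ hM => FPI_lattice hQ M) j hlow
        have hCB := h2 j hC'
        refine HFGZ_of_unipotent (CB N) (dCB N) (fun n x => dCB_dCB _ N n x) j (j + 1) l hl ?_ hCB
        intro t ht x hx
        obtain ⟨H, hNH, β, iβ, S, τ, θ, hU, hτ⟩ := hA t ht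
        have h3 := unip_co N H hNH β S j (by omega) τ θ (hU.mono hj) x hx
        rw [hτ] at h3
        exact h3
  refine ⟨fun j hj => HIF_of_HFGZ N j (main j hj), fun j hj => ?_⟩
  exact groupHomology_finite_of N j (HIF_of_HFGZ N j (main j hj))

end Tor
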